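import Pool.Agent.Lib.MP_dd8365_nt.Core

/-! MP_dd8365_nt (SAF): boxes in the adelic topology. -/

open IsDedekindDomain NumberField
open scoped RestrictedProduct

namespace SAF

variable {K : Type} [Field K] [NumberField K]

/-! ### Completions -/

theorem cc_one (v : HeightOneSpectrum (𝓞 K)) (x : v.adicCompletion K) :
    Valued.v x = 1 ↔ ‖x‖ = 1 := by
  rw [le_antisymm_iff, le_antisymm_iff, Valued.toNormedField.norm_le_one_iff,
    Valued.toNormedField.one_le_norm_iff]

theorem cc_int (v : HeightOneSpectrum (𝓞 K)) (x : v.adicCompletion K) :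
    x ∈ v.adicCompletionIntegers K ↔ ‖x‖ ≤ 1 := by
  rw [Valued.toNormedField.norm_le_one_iff]
  exact Iff.rfl

omit [NumberField K] in
theorem cc_cont {L : Type} [NormedField L] [Algebra K L] {N : ℕ} (q : MvPolynomial (Fin N) K) :
    Continuous fun x : Fin N → L => MvPolynomial.aeval x q := by
  have h : (fun x : Fin N → L => MvPolynomial.aeval x q) =
      fun x => MvPolynomial.eval x (MvPolynomial.map (algebraMap K L) q) := by
    funext x
    rw [MvPolynomial.aeval_def, MvPolynomial.eval_map]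
  rw [h]
  exact MvPolynomial.continuous_eval _

theorem cc_isOpen {N : ℕ} (P I : Ideal (MvPolynomial (Fin N) K)) (v : HeightOneSpectrum (𝓞 K)) :
    IsOpen (IntPts P I v) := by
  have h1 : IntPts P I v = (⋂ i, {x : Pts P I (v.adicCompletion K) | ‖x.1 i‖ ≤ 1}) ∩
      ⋃ (g : MvPolynomial (Fin N) (𝓞 K))
        (_ : MvPolynomial.map (algebraMap (𝓞 K) K) g ∈ I),
        {x : Pts P I (v.adicCompletion K) | ‖MvPolynomial.aeval x.1
          (MvPolynomial.map (algebraMap (𝓞 K) K) g)‖ = 1} := by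
    ext x
    simp only [IntPts, Set.mem_ofPred_eq, Set.mem_inter_iff, Set.mem_iInter, Set.mem_iUnion,
      cc_int, cc_one, exists_prop]
  rw [h1]
  refine IsOpen.inter (isOpen_iInter_of_finite fun i => ?_)
    (isOpen_iUnion fun g => isOpen_iUnion fun _ => ?_)
  · have h2 : {x : Pts P I (v.adicCompletion K) | ‖x.1 i‖ ≤ 1} =
        (fun x : Pts P I (v.adicCompletion K) => x.1 i) ⁻¹' Metric.closedBall 0 1 := by
      ext x; simp
    rw [h2]
    exact (IsUltrametricDist.isOpen_closedBall _ one_ne_zero).preimage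
      ((continuous_apply i).comp continuous_subtype_val)
  · have h2 : {x : Pts P I (v.adicCompletion K) | ‖MvPolynomial.aeval x.1
          (MvPolynomial.map (algebraMap (𝓞 K) K) g)‖ = 1} =
        (fun x : Pts P I (v.adicCompletion K) => MvPolynomial.aeval x.1
          (MvPolynomial.map (algebraMap (𝓞 K) K) g)) ⁻¹' Metric.sphere 0 1 := by
      ext x; simp
    rw [h2]
    exact (IsUltrametricDist.isOpen_sphere _ one_ne_zero).preimage
      ((cc_cont _).comp continuous_subtype_val)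

/-! ### Boxes -/

theorem cc_min {ι : Type*} (T : Finset ι) (d : ι → ℝ) (hd : ∀ i, 0 < d i) :
    ∃ δ > 0, ∀ i ∈ T, δ ≤ d i := by
  classical
  induction T using Finset.induction_on with
  | empty => exact ⟨1, one_pos, fun i hi => absurd hi (Finset.notMem_empty i)⟩
  | insert a T _ ih =>
    obtain ⟨δ, hδ, h⟩ := ih
    refine ⟨min δ (d a), lt_min hδ (hd a), fun i hi => ?_⟩
    rcases Finset.mem_insert.1 hi with rfl | hi
    · exact min_le_right _ _
    · exact (min_le_left _ _).trans (h i hi)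

theorem cc_box {N : ℕ} {P I : Ideal (MvPolynomial (Fin N) K)} {S : Set (Place K)}
    {U : Set (Adelic P I S)} (hU : IsOpen U) {y : Adelic P I S} (hy : y ∈ U)
    (T0 : Finset {v : HeightOneSpectrum (𝓞 K) // Sum.inl v ∉ S}) :
    ∃ T : Finset {v : HeightOneSpectrum (𝓞 K) // Sum.inl v ∉ S}, T0 ⊆ T ∧
      (∀ v ∉ T, y.1 v ∈ IntPts P I v.1) ∧ ∃ δ > (0 : ℝ), ∀ z : Adelic P I S,
        (∀ v ∈ T, dist (z.1 v).1 (y.1 v).1 < δ) → (∀ v ∉ T, z.1 v ∈ IntPts P I v.1) →
        (∀ w, dist (z.2 w).1 (y.2 w).1 < δ) → z ∈ U := by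
  classical
  have hAopen : ∀ v : {v : HeightOneSpectrum (𝓞 K) // Sum.inl v ∉ S},
      IsOpen (IntPts P I v.1) := fun v => cc_isOpen P I v.1
  obtain ⟨u1, hu1, u2, hu2, hu⟩ := mem_nhds_prod_iff.1 (hU.mem_nhds hy)
  -- the infinite places
  rw [nhds_pi, Filter.mem_pi] at hu2
  obtain ⟨I2, hI2, t2, ht2, hsub2⟩ := hu2
  -- the finite places
  set S' : Set {v : HeightOneSpectrum (𝓞 K) // Sum.inl v ∉ S} := {v | y.1 v ∈ IntPts P I v.1}
  have hS' : Filter.cofinite ≤ Filter.principal S' := Filter.le_principal_iff.2 y.1.2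
  obtain ⟨y', hy'⟩ := RestrictedProduct.exists_inclusion_eq_of_eventually
    (fun v : {v : HeightOneSpectrum (𝓞 K) // Sum.inl v ∉ S} => Pts P I (v.1.adicCompletion K))
    (fun v => IntPts P I v.1) hS' (x := y.1) (fun v hv => hv)
  rw [← hy', RestrictedProduct.nhds_eq_map_inclusion hAopen hS', Filter.mem_map,
    RestrictedProduct.isEmbedding_coe_of_principal.nhds_eq_comap, Filter.mem_comap] at hu1
  obtain ⟨t, ht, htsub⟩ := hu1
  rw [nhds_pi, Filter.mem_pi] at ht
  obtain ⟨I1, hI1, t1, ht1, hsub1⟩ := ht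
  have hyy : ∀ v, y' v = y.1 v := fun v => by rw [← hy']; rfl
  have hfin : S'ᶜ.Finite := y.1.2
  -- radii
  have hd1 : ∀ v : {v : HeightOneSpectrum (𝓞 K) // Sum.inl v ∉ S}, ∃ d > (0 : ℝ),
      ∀ z : Pts P I (v.1.adicCompletion K), dist z.1 (y.1 v).1 < d →
        z ∈ t1 v ∧ (y.1 v ∈ IntPts P I v.1 → z ∈ IntPts P I v.1) := by
    intro v
    have h1 : t1 v ∩ {z | y.1 v ∈ IntPts P I v.1 → z ∈ IntPts P I v.1} ∈ nhds (y.1 v) := by
      refine Filter.inter_mem ?_ ?_
      · have := ht1 v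
        rwa [hyy v] at this
      · by_cases h : y.1 v ∈ IntPts P I v.1
        · filter_upwards [(hAopen v).mem_nhds h] with z hz _ using hz
        · filter_upwards with z hz using absurd hz h
    obtain ⟨d, hd, hball⟩ := Metric.mem_nhds_iff.1 h1
    exact ⟨d, hd, fun z hz => hball hz⟩
  choose d1 hd1p hd1 using hd1
  have hd2 : ∀ w : {w : InfinitePlace K // Sum.inr w ∉ S}, ∃ d > (0 : ℝ),
      ∀ z : Pts P I w.1.Completion, dist z.1 (y.2 w).1 < d → z ∈ t2 w := by
    intro w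
    obtain ⟨d, hd, hball⟩ := Metric.mem_nhds_iff.1 (ht2 w)
    exact ⟨d, hd, fun z hz => hball hz⟩
  choose d2 hd2p hd2 using hd2
  set T := hfin.toFinset ∪ hI1.toFinset ∪ T0
  obtain ⟨δ1, hδ1, hδ1'⟩ := cc_min T d1 hd1p
  obtain ⟨δ2, hδ2, hδ2'⟩ := cc_min hI2.toFinset d2 hd2p
  refine ⟨T, Finset.subset_union_right, fun v hv => ?_, min δ1 δ2, lt_min hδ1 hδ2,
    fun z hz1 hz2 hz3 => hu ⟨?_, hsub2 fun w hw => ?_⟩⟩
  · by_contra h
    exact hv (Finset.mem_union_left _ (Finset.mem_union_left _ (hfin.mem_toFinset.2 h)))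
  · have hzS : ∀ v ∈ S', z.1 v ∈ IntPts P I v.1 := by
      intro v hv
      by_cases hvT : v ∈ T
      · exact (hd1 v _ ((hz1 v hvT).trans_le ((min_le_left _ _).trans (hδ1' v hvT)))).2 hv
      · exact hz2 v hvT
    obtain ⟨z', hz'⟩ := RestrictedProduct.exists_inclusion_eq_of_eventually
      (fun v : {v : HeightOneSpectrum (𝓞 K) // Sum.inl v ∉ S} => Pts P I (v.1.adicCompletion K))
      (fun v => IntPts P I v.1) hS' (x := z.1) hzS
    have hzz : ∀ v, z' v = z.1 v := fun v => by rw [← hz']; rfl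
    rw [← hz']
    refine htsub (hsub1 fun v hv => ?_)
    have hvT : v ∈ T :=
      Finset.mem_union_left _ (Finset.mem_union_right _ (hI1.mem_toFinset.2 hv))
    have := (hd1 v _ ((hz1 v hvT).trans_le ((min_le_left _ _).trans (hδ1' v hvT)))).1
    rw [← hzz v] at this
    exact this
  · exact hd2 w _ ((hz3 w).trans_le ((min_le_right _ _).trans
      (hδ2' w (hI2.mem_toFinset.2 hw))))

/-! ### Rational points -/

omit [NumberField K] in
theorem cc_aeval {N : ℕ} {L : Type} [Field L] [Algebra K L] (x : Fin N → K)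
    (q : MvPolynomial (Fin N) K) :
    MvPolynomial.aeval (fun i => algebraMap K L (x i)) q =
      algebraMap K L (MvPolynomial.aeval x q) :=
  MvPolynomial.aeval_algebraMap_apply L x q

omit [NumberField K] in
theorem cc_pts {N : ℕ} {P I : Ideal (MvPolynomial (Fin N) K)} {L : Type} [Field L] [Algebra K L]
    {x : Fin N → K} (hx : x ∈ Pts P I K) : (fun i => algebraMap K L (x i)) ∈ Pts P I L := by
  refine ⟨fun p hp => by rw [cc_aeval, hx.1 p hp, map_zero], ?_⟩
  obtain ⟨g, hg, hgx⟩ := hx.2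
  refine ⟨g, hg, ?_⟩
  rw [cc_aeval]
  exact fun h => hgx ((map_eq_zero _).1 h)

end SAF
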