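import Pool.Agent.Lib.MP_dd8365_nt.DefsT
import Pool.Agent.Lib.MP_dd8365_nt.Conc

/-! MP_dd8365_nt (SAF), torus quotients: the torus action. -/

open IsDedekindDomain NumberField
open scoped RestrictedProduct

namespace SAF

/-- a polynomial is the sum of its components -/
theorem sum_comp {R : Type} [CommRing R] {N r : ℕ} (W : Fin N → Fin r → ℤ)
    (p : MvPolynomial (Fin N) R) : ∃ C : Finset (Fin r → ℤ),
      p = ∑ c ∈ C, MvPolynomial.weightedHomogeneousComponent W c p := by
  classical
  refine ⟨p.support.image (Finsupp.weight W), ?_⟩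
  ext d
  rw [MvPolynomial.coeff_sum]
  simp only [MvPolynomial.coeff_weightedHomogeneousComponent]
  by_cases hd : d ∈ p.support
  · rw [Finset.sum_eq_single (Finsupp.weight W d)]
    · rw [if_pos rfl]
    · intro c _ hc
      rw [if_neg hc.symm]
    · intro h
      exact absurd (Finset.mem_image_of_mem _ hd) h
  · have h0 : MvPolynomial.coeff d p = 0 := MvPolynomial.notMem_support_iff.1 hd
    rw [h0]
    simp

theorem map_comp' {R R' : Type} [CommRing R] [CommRing R'] (f : R →+* R') {N r : ℕ}
    (W : Fin N → Fin r → ℤ) (p : MvPolynomial (Fin N) R) (c : Fin r → ℤ) :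
    MvPolynomial.map f (MvPolynomial.weightedHomogeneousComponent W c p) =
      MvPolynomial.weightedHomogeneousComponent W c (MvPolynomial.map f p) := by
  classical
  ext d
  rw [MvPolynomial.coeff_map, MvPolynomial.coeff_weightedHomogeneousComponent,
    MvPolynomial.coeff_weightedHomogeneousComponent, MvPolynomial.coeff_map]
  split_ifs
  · rfl
  · rw [map_zero]

variable {K : Type} [Field K] {N r : ℕ} {W : Fin N → Fin r → ℤ}
  {P I : Ideal (MvPolynomial (Fin N) K)}

/-- a homogeneous polynomial is multiplied by a character: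
`IsWeightedHomogeneous W g c` means `∑ i, n i • W i = c` for all exponents `n` of `g` -/
theorem aeval_act {L : Type} [Field L] [Algebra K L] (l : Fin r → Lˣ) (x : Fin N → L)
    (g : MvPolynomial (Fin N) K) (c : Fin r → ℤ)
    (hg : MvPolynomial.IsWeightedHomogeneous W g c) :
    MvPolynomial.aeval (act W l x) g = ((∏ j, l j ^ c j : Lˣ) : L) * MvPolynomial.aeval x g := by
  rw [MvPolynomial.aeval_def, MvPolynomial.aeval_def, MvPolynomial.eval₂_eq',
    MvPolynomial.eval₂_eq', Finset.mul_sum]
  refine Finset.sum_congr rfl (fun d hd => ?_)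
  have h1 : ∏ i, act W l x i ^ d i = ((∏ j, l j ^ c j : Lˣ) : L) * ∏ i, x i ^ d i := by
    simp only [act, mul_pow, Finset.prod_mul_distrib]
    congr 1
    have h2 : ∏ i, (∏ j, l j ^ W i j) ^ d i = ∏ j, l j ^ c j := by
      simp only [← Finset.prod_pow]
      rw [Finset.prod_comm]
      refine Finset.prod_congr rfl (fun j _ => ?_)
      have h3 : c j = ∑ i, (d i : ℤ) * W i j := by
        have h4 := hg (MvPolynomial.mem_support_iff.1 hd)
        rw [← h4, Finsupp.weight_apply, Finsupp.sum_fintype _ _ (by simp)]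
        simp
      have h5 : ∀ (s : Finset (Fin N)) (f : Fin N → ℤ), l j ^ (∑ i ∈ s, f i) =
          ∏ i ∈ s, l j ^ f i := by
        intro s f
        classical
        induction s using Finset.induction_on with
        | empty => simp
        | insert a s ha ih => rw [Finset.sum_insert ha, Finset.prod_insert ha, zpow_add, ih]
      rw [h3, h5]
      refine Finset.prod_congr rfl (fun i _ => ?_)
      rw [mul_comm, zpow_mul, zpow_natCast]
    rw [← h2]
    simp
  rw [h1]
  ring

/-- `g` is the (finite) sum of its components -/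
theorem vanish_act {L : Type} [Field L] [Algebra K L] (hP : Homog W P) (l : Fin r → Lˣ)
    {x : Fin N → L} (hx : ∀ p ∈ P, MvPolynomial.aeval x p = 0) :
    ∀ p ∈ P, MvPolynomial.aeval (act W l x) p = 0 := by
  intro p hp
  obtain ⟨C, hC⟩ := sum_comp W p
  rw [hC, map_sum]
  refine Finset.sum_eq_zero (fun c _ => ?_)
  rw [aeval_act l x _ c (MvPolynomial.weightedHomogeneousComponent_isWeightedHomogeneous c p),
    hx _ (hP p hp c), mul_zero]

/-- some component does not vanish -/
theorem act_mem {L : Type} [Field L] [Algebra K L] (hP : Homog W P) (hI : Homog W I)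
    (l : Fin r → Lˣ) {x : Fin N → L} (hx : x ∈ Pts P I L) : act W l x ∈ Pts P I L := by
  obtain ⟨hxP, g, hg, hg0⟩ := hx
  refine ⟨vanish_act hP l hxP, ?_⟩
  obtain ⟨C, hC⟩ := sum_comp W g
  obtain ⟨c, -, hc⟩ : ∃ c ∈ C, MvPolynomial.aeval x
      (MvPolynomial.weightedHomogeneousComponent W c g) ≠ 0 := by
    by_contra hcon
    push Not at hcon
    apply hg0
    rw [hC, map_sum]
    exact Finset.sum_eq_zero hcon
  refine ⟨_, hI g hg c, ?_⟩
  rw [aeval_act l x _ c (MvPolynomial.weightedHomogeneousComponent_isWeightedHomogeneous c g)]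
  exact mul_ne_zero (Units.ne_zero _) hc

/-- a fixed element of the torus acts continuously -/
theorem act_close {L : Type} [NormedField L] (l : Fin r → Lˣ) (x : Fin N → L) {δ : ℝ}
    (hδ : 0 < δ) : ∃ ε > 0, ∀ y : Fin N → L, (∀ i, ‖y i - x i‖ < ε) →
      dist (act W l y) (act W l x) < δ := by
  have hpos : 0 < 1 + ∑ i, ‖((∏ j, l j ^ W i j : Lˣ) : L)‖ := by positivity
  refine ⟨δ / (1 + ∑ i, ‖((∏ j, l j ^ W i j : Lˣ) : L)‖), div_pos hδ hpos, fun y hy => ?_⟩
  rw [dist_pi_lt_iff hδ]
  intro i
  rw [dist_eq_norm]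
  simp only [act]
  rw [← mul_sub, norm_mul]
  have h1 : ‖((∏ j, l j ^ W i j : Lˣ) : L)‖ ≤ ∑ i, ‖((∏ j, l j ^ W i j : Lˣ) : L)‖ :=
    Finset.single_le_sum (f := fun i => ‖((∏ j, l j ^ W i j : Lˣ) : L)‖)
      (fun _ _ => norm_nonneg _) (Finset.mem_univ i)
  have h2 : 0 < ‖((∏ j, l j ^ W i j : Lˣ) : L)‖ := norm_pos_iff.2 (Units.ne_zero _)
  calc _ < ‖((∏ j, l j ^ W i j : Lˣ) : L)‖ *
        (δ / (1 + ∑ i, ‖((∏ j, l j ^ W i j : Lˣ) : L)‖)) := mul_lt_mul_of_pos_left (hy i) h2
    _ ≤ (1 + ∑ i, ‖((∏ j, l j ^ W i j : Lˣ) : L)‖) *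
        (δ / (1 + ∑ i, ‖((∏ j, l j ^ W i j : Lˣ) : L)‖)) := by
          refine mul_le_mul_of_nonneg_right ?_ (div_pos hδ hpos).le
          linarith
    _ = δ := mul_div_cancel₀ δ hpos.ne'

theorem act_cont {L : Type} [NormedField L] (l : Fin r → Lˣ) :
    Continuous (act W l : (Fin N → L) → Fin N → L) :=
  continuous_pi fun i => continuous_const.mul (continuous_apply i)

/-- the quotient map is open -/
theorem isOpenMap_mk {L : Type} [NormedField L] [Algebra K L] (hP : Homog W P) (hI : Homog W I) :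
    IsOpenMap (Quotient.mk (orb W P I L)) := by
  intro B hB
  have h0 : IsOpen (Quotient.mk (orb W P I L) ⁻¹' (Quotient.mk (orb W P I L) '' B)) := by
    have h1 : Quotient.mk (orb W P I L) ⁻¹' (Quotient.mk (orb W P I L) '' B) =
        ⋃ l : Fin r → Lˣ, (fun x : Pts P I L => (⟨act W l x.1, act_mem hP hI l x.2⟩ :
          Pts P I L)) ⁻¹' B := by
      ext x
      simp only [Set.mem_preimage, Set.mem_image, Set.mem_iUnion]
      constructor
      · rintro ⟨y, hy, hyx⟩
        obtain ⟨l, hl⟩ := Quotient.exact hyx.symm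
        refine ⟨l, ?_⟩
        have : (⟨act W l x.1, act_mem hP hI l x.2⟩ : Pts P I L) = y := Subtype.ext hl.symm
        rw [this]
        exact hy
      · rintro ⟨l, hl⟩
        exact ⟨_, hl, (Quotient.sound (s := orb W P I L) ⟨l, rfl⟩).symm⟩
    rw [h1]
    refine isOpen_iUnion fun l => IsOpen.preimage ?_ hB
    exact ((act_cont l).comp continuous_subtype_val).subtype_mk _
  exact h0

variable [NumberField K]

/-- units preserve the integral points: the components of an integral polynomial are integral, one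
of them has a unit value -/
theorem int_act (v : HeightOneSpectrum (𝓞 K)) (hI : Homog W I) (l : Fin r → (v.adicCompletion K)ˣ)
    (hl : ∀ j, ‖(l j : v.adicCompletion K)‖ = 1) (x y : Pts P I (v.adicCompletion K))
    (hy : y.1 = act W l x.1) (hx : x ∈ IntPts P I v) : y ∈ IntPts P I v := by
  have hl1 : ∀ c : Fin r → ℤ, ‖((∏ j, l j ^ c j : (v.adicCompletion K)ˣ) :
      v.adicCompletion K)‖ = 1 := by
    intro c
    rw [Units.coe_prod, norm_prod]
    refine Finset.prod_eq_one (fun j _ => ?_)
    rw [Units.val_zpow_eq_zpow_val, norm_zpow, hl, one_zpow]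
  obtain ⟨h1, g, hg, hg1⟩ := hx
  obtain ⟨C, hC⟩ := sum_comp W g
  have h1' : ∀ i, ‖x.1 i‖ ≤ 1 := fun i => (cc_int v _).1 (h1 i)
  obtain ⟨c, -, hc⟩ : ∃ c ∈ C, 1 ≤ ‖MvPolynomial.aeval x.1 (MvPolynomial.map (algebraMap (𝓞 K) K)
      (MvPolynomial.weightedHomogeneousComponent W c g))‖ := by
    by_contra hcon
    push Not at hcon
    have h2 : ‖MvPolynomial.aeval x.1 (MvPolynomial.map (algebraMap (𝓞 K) K) g)‖ < 1 := by
      rw [hC, map_sum, map_sum]
      rcases C.eq_empty_or_nonempty with hCe | hCe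
      · rw [hCe]
        simp
      · obtain ⟨c, hc, hc'⟩ := IsUltrametricDist.exists_norm_finsetSum_le_of_nonempty hCe
          (fun c => MvPolynomial.aeval x.1 (MvPolynomial.map (algebraMap (𝓞 K) K)
            (MvPolynomial.weightedHomogeneousComponent W c g)))
        exact hc'.trans_lt (hcon c hc)
    rw [cc_one] at hg1
    rw [hg1] at h2
    exact lt_irrefl _ h2
  refine ⟨fun i => ?_, MvPolynomial.weightedHomogeneousComponent W c g, ?_, ?_⟩
  · rw [cc_int, hy]
    simp only [act]
    rw [norm_mul, hl1, one_mul]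
    exact h1' i
  · rw [map_comp']
    exact hI _ hg c
  · rw [cc_one, hy, map_comp', aeval_act l x.1 _ c
      (MvPolynomial.weightedHomogeneousComponent_isWeightedHomogeneous c _), norm_mul, hl1,
      one_mul, ← map_comp']
    refine le_antisymm ?_ hc
    -- integral coefficients
    rw [MvPolynomial.aeval_def, MvPolynomial.eval₂_eq']
    refine IsUltrametricDist.norm_sum_le_of_forall_le_of_nonneg zero_le_one (fun d _ => ?_)
    rw [norm_mul, norm_prod]
    refine mul_le_one₀ ?_ (Finset.prod_nonneg fun _ _ => norm_nonneg _)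
      (Finset.prod_le_one (fun _ _ => norm_nonneg _) (fun i _ => ?_))
    · rw [MvPolynomial.coeff_map, norm_fin]
      exact av_int v _
    · rw [norm_pow]
      exact pow_le_one₀ (norm_nonneg _) (h1' i)

theorem isOpen_QInt (hP : Homog W P) (hI : Homog W I) (v : HeightOneSpectrum (𝓞 K)) :
    IsOpen (QInt W P I v) :=
  isOpenMap_mk hP hI _ (cc_isOpen P I v)

end SAF
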