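import Pool.Agent.Lib.MP_dd8365_nt.Defs

/-! MP_dd8365_nt (SAF): basic facts on places. -/

open IsDedekindDomain NumberField

namespace SAF

variable {K : Type} [Field K] [NumberField K]

theorem av_inl (v : HeightOneSpectrum (𝓞 K)) (x : K) :
    av (Sum.inl v) x = HeightOneSpectrum.adicAbv K v x := rfl

theorem av_int (v : HeightOneSpectrum (𝓞 K)) (x : 𝓞 K) : av (Sum.inl v) (x : K) ≤ 1 :=
  v.adicAbv_coe_le_one (HeightOneSpectrum.one_lt_absNorm_nnreal v) x

theorem av_int_lt_iff (v : HeightOneSpectrum (𝓞 K)) (x : 𝓞 K) :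
    av (Sum.inl v) (x : K) < 1 ↔ x ∈ v.asIdeal :=
  v.adicAbv_coe_lt_one_iff (HeightOneSpectrum.one_lt_absNorm_nnreal v) x

theorem av_int_eq_iff (v : HeightOneSpectrum (𝓞 K)) (x : 𝓞 K) :
    av (Sum.inl v) (x : K) = 1 ↔ x ∉ v.asIdeal :=
  v.adicAbv_coe_eq_one_iff (HeightOneSpectrum.one_lt_absNorm_nnreal v) x

theorem av_le_iff (v : HeightOneSpectrum (𝓞 K)) (x : K) :
    av (Sum.inl v) x ≤ 1 ↔ v.valuation K x ≤ 1 := by
  rw [av_inl, HeightOneSpectrum.adicAbv_def]
  have h := WithZeroMulInt.toNNReal_le_one_iff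
    (m := v.valuation K x) (HeightOneSpectrum.one_lt_absNorm_nnreal v)
  rw [← h]
  exact_mod_cast Iff.rfl

theorem av_add (v : HeightOneSpectrum (𝓞 K)) (x y : K) :
    av (Sum.inl v) (x + y) ≤ max (av (Sum.inl v) x) (av (Sum.inl v) y) :=
  HeightOneSpectrum.adicAbv_add_le_max K v x y

theorem av_sum {ι : Type*} (s : Finset ι) (v : HeightOneSpectrum (𝓞 K)) (f : ι → K)
    (hf : ∀ i ∈ s, av (Sum.inl v) (f i) ≤ 1) : av (Sum.inl v) (∑ i ∈ s, f i) ≤ 1 := by
  classical
  induction s using Finset.induction_on with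
  | empty =>
    rw [Finset.sum_empty, map_zero]
    exact zero_le_one
  | insert a s ha ih =>
    rw [Finset.sum_insert ha]
    exact (av_add v _ _).trans (max_le (hf a (Finset.mem_insert_self a s))
      (ih fun i hi => hf i (Finset.mem_insert_of_mem hi)))

/-- for `x ≠ 0` all but finitely many finite places have `|x| = 1` -/
theorem av_bad {x : K} (hx : x ≠ 0) :
    {v : HeightOneSpectrum (𝓞 K) | av (Sum.inl v) x ≠ 1}.Finite := by
  have h := FinitePlace.hasFiniteMulSupport hx
  have h1 : Set.InjOn (fun v : HeightOneSpectrum (𝓞 K) => FinitePlace.mk v)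
      ((fun v : HeightOneSpectrum (𝓞 K) => FinitePlace.mk v) ⁻¹'
        (Function.mulSupport fun w : FinitePlace K => w x)) :=
    fun v _ w _ hvw => FinitePlace.mk_eq_iff.1 hvw
  refine (Set.Finite.preimage h1 h).subset ?_
  intro v hv
  rw [Set.mem_preimage, Function.mem_mulSupport, FinitePlace.mk_apply,
    FinitePlace.norm_embedding]
  exact hv

theorem av_bad' (x : K) : {v : HeightOneSpectrum (𝓞 K) | ¬ av (Sum.inl v) x ≤ 1}.Finite := by
  by_cases hx : x = 0
  · refine Set.finite_empty.subset ?_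
    intro v hv
    exfalso
    apply hv
    rw [hx, map_zero]
    exact zero_le_one
  · refine (av_bad hx).subset ?_
    intro v hv h
    exact hv h.le

/-- integral at all finite places -/
theorem av_int_iff (x : K) : (∀ v : HeightOneSpectrum (𝓞 K), av (Sum.inl v) x ≤ 1) ↔
    ∃ y : 𝓞 K, (y : K) = x := by
  constructor
  · intro h
    obtain ⟨y, hy⟩ := HeightOneSpectrum.mem_integers_of_valuation_le_one K x
      fun v => (av_le_iff v x).1 (h v)
    exact ⟨y, hy⟩
  · rintro ⟨y, rfl⟩ v
    exact av_int v y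

/-- `v`-integral elements times a `v`-unit of `𝓞 K` are in `𝓞 K` -/
theorem av_denom (v : HeightOneSpectrum (𝓞 K)) (x : K) (hx : av (Sum.inl v) x ≤ 1) :
    ∃ s : 𝓞 K, av (Sum.inl v) (s : K) = 1 ∧ ∃ y : 𝓞 K, (y : K) = s * x := by
  obtain ⟨n, d, h⟩ := HeightOneSpectrum.exists_primeCompl_mul_eq_of_integer v x
    ((av_le_iff v x).1 hx)
  refine ⟨d, (av_int_eq_iff v d).2 d.2, n, ?_⟩
  rw [mul_comm]
  exact h.symm

theorem exists_above {p : ℕ} (hp : p.Prime) :
    ∃ v : HeightOneSpectrum (𝓞 K), (p : 𝓞 K) ∈ v.asIdeal := by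
  have h1 : Ideal.span {(p : 𝓞 K)} ≠ ⊤ := by
    intro h
    rw [Ideal.span_singleton_eq_top] at h
    have h2 : IsUnit (Ideal.absNorm (Ideal.span {(p : 𝓞 K)})) := by
      rw [Ideal.span_singleton_eq_top.2 h, Ideal.absNorm_top]
      exact isUnit_one
    rw [Ideal.absNorm_span_singleton, Nat.isUnit_iff] at h2
    have h3 : Algebra.norm ℤ (p : 𝓞 K) = (p : ℤ) ^ Module.finrank ℤ (𝓞 K) := by
      have h4 := Algebra.norm_algebraMap (S := 𝓞 K) (p : ℤ)
      rwa [eq_intCast, Int.cast_natCast] at h4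
    rw [h3, Int.natAbs_pow, Int.natAbs_natCast] at h2
    have h5 : 0 < Module.finrank ℤ (𝓞 K) := by
      rw [RingOfIntegers.rank]
      exact Module.finrank_pos
    have h6 := Nat.one_lt_pow h5.ne' hp.one_lt
    omega
  obtain ⟨M, hM, hle⟩ := Ideal.exists_le_maximal _ h1
  refine ⟨⟨M, hM.isPrime, ?_⟩, hle (Ideal.mem_span_singleton_self _)⟩
  rintro rfl
  have h2 : (p : 𝓞 K) ∈ (⊥ : Ideal (𝓞 K)) := hle (Ideal.mem_span_singleton_self _)
  rw [Ideal.mem_bot, Nat.cast_eq_zero] at h2
  exact hp.ne_zero h2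

theorem infinite_places : (Set.univ : Set (HeightOneSpectrum (𝓞 K))).Infinite := by
  rw [Set.infinite_univ_iff]
  choose f hf using fun p : Nat.Primes => exists_above (K := K) p.2
  refine Infinite.of_injective f fun p q hpq => ?_
  by_contra hne
  have hcop : Nat.Coprime (p : ℕ) (q : ℕ) :=
    (Nat.coprime_primes p.2 q.2).2 fun h => hne (Subtype.ext h)
  have h1 := hf p
  have h2 := hf q
  rw [← hpq] at h2
  have h3 := (Nat.isCoprime_iff_coprime.2 hcop)
  obtain ⟨a, b, hab⟩ := h3
  have h4 : (1 : 𝓞 K) ∈ (f p).asIdeal := by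
    have h5 : ((a : ℤ) : 𝓞 K) * ((p : ℕ) : 𝓞 K) + ((b : ℤ) : 𝓞 K) * ((q : ℕ) : 𝓞 K) = 1 := by
      exact_mod_cast congrArg (fun z : ℤ => (z : 𝓞 K)) hab
    rw [← h5]
    exact Ideal.add_mem _ (Ideal.mul_mem_left _ _ h1) (Ideal.mul_mem_left _ _ h2)
  exact (f p).isPrime.ne_top ((Ideal.eq_top_iff_one _).2 h4)

theorem small_norm (d : ℕ) :
    {v : HeightOneSpectrum (𝓞 K) | Ideal.absNorm v.asIdeal ≤ d}.Finite :=
  Ring.HasFiniteQuotients.finite_absNorm_heightOneSpectrum_le d

/-- polynomials are continuous for every place (`av p` is an absolute value: induction on `f`,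
or `Continuous` for the topology of `WithAbs (av p)`) -/
theorem av_cont (p : Place K) {m : ℕ} (f : MvPolynomial (Fin m) K) (c : Fin m → K) {δ : ℝ}
    (hδ : 0 < δ) : ∃ ε > 0, ∀ t : Fin m → K, (∀ i, av p (t i - c i) < ε) →
      av p (MvPolynomial.eval t f - MvPolynomial.eval c f) < δ := by
  induction f using MvPolynomial.induction_on generalizing δ with
  | C a =>
    refine ⟨1, one_pos, fun t _ => ?_⟩
    rw [MvPolynomial.eval_C, MvPolynomial.eval_C, sub_self, map_zero]
    exact hδ
  | add f g hf hg =>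
    obtain ⟨ε₁, h1, h1'⟩ := hf (half_pos hδ)
    obtain ⟨ε₂, h2, h2'⟩ := hg (half_pos hδ)
    refine ⟨min ε₁ ε₂, lt_min h1 h2, fun t ht => ?_⟩
    have e1 := h1' t fun i => (ht i).trans_le (min_le_left _ _)
    have e2 := h2' t fun i => (ht i).trans_le (min_le_right _ _)
    have e3 : MvPolynomial.eval t (f + g) - MvPolynomial.eval c (f + g) =
        (MvPolynomial.eval t f - MvPolynomial.eval c f) +
          (MvPolynomial.eval t g - MvPolynomial.eval c g) := by
      rw [map_add, map_add]
      ring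
    rw [e3]
    have e4 := (av p).add_le (MvPolynomial.eval t f - MvPolynomial.eval c f)
      (MvPolynomial.eval t g - MvPolynomial.eval c g)
    linarith
  | mul_X f i hf =>
    have hc0 : 0 ≤ av p (c i) := (av p).nonneg _
    have hf0 : 0 ≤ av p (MvPolynomial.eval c f) := (av p).nonneg _
    obtain ⟨ε₁, h1, h1'⟩ := hf (δ := δ / (2 * (av p (c i) + 1)))
      (div_pos hδ (by linarith))
    refine ⟨min (min ε₁ 1) (δ / (2 * (av p (MvPolynomial.eval c f) + 1))),
      lt_min (lt_min h1 one_pos) (div_pos hδ (by linarith)), fun t ht => ?_⟩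
    have e1 := h1' t fun i => (ht i).trans_le ((min_le_left _ _).trans (min_le_left _ _))
    have e2 := (ht i).trans_le ((min_le_left _ _).trans (min_le_right _ _))
    have e3 := (ht i).trans_le (min_le_right _ _)
    have e4 : MvPolynomial.eval t (f * MvPolynomial.X i) -
        MvPolynomial.eval c (f * MvPolynomial.X i) =
        (MvPolynomial.eval t f - MvPolynomial.eval c f) * t i +
          MvPolynomial.eval c f * (t i - c i) := by
      rw [map_mul, map_mul, MvPolynomial.eval_X, MvPolynomial.eval_X]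
      ring
    rw [e4]
    refine ((av p).add_le _ _).trans_lt ?_
    rw [map_mul, map_mul]
    have e5 : av p (t i) ≤ av p (c i) + 1 := by
      have h := (av p).add_le (c i) (t i - c i)
      rw [add_sub_cancel] at h
      linarith
    have e6 : av p (MvPolynomial.eval t f - MvPolynomial.eval c f) * av p (t i) ≤
        av p (MvPolynomial.eval t f - MvPolynomial.eval c f) * (av p (c i) + 1) :=
      mul_le_mul_of_nonneg_left e5 ((av p).nonneg _)
    have e7 : av p (MvPolynomial.eval t f - MvPolynomial.eval c f) * (av p (c i) + 1) < δ / 2 := by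
      have h : δ / (2 * (av p (c i) + 1)) * (av p (c i) + 1) = δ / 2 := by
        field_simp
      rw [← h]
      exact mul_lt_mul_of_pos_right e1 (by linarith)
    have e8 : av p (MvPolynomial.eval c f) * av p (t i - c i) ≤
        (av p (MvPolynomial.eval c f) + 1) * av p (t i - c i) :=
      mul_le_mul_of_nonneg_right (by linarith) ((av p).nonneg _)
    have e9 : (av p (MvPolynomial.eval c f) + 1) * av p (t i - c i) < δ / 2 := by
      have h : (av p (MvPolynomial.eval c f) + 1) *
          (δ / (2 * (av p (MvPolynomial.eval c f) + 1))) = δ / 2 := by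
        field_simp
      rw [← h]
      exact mul_lt_mul_of_pos_left e3 (by linarith)
    linarith

/-- there are small nonzero elements at every place -/
theorem av_exists_small (p : Place K) : ∃ x : K, x ≠ 0 ∧ av p x < 1 := by
  rcases p with v | w
  · obtain ⟨x, hx, hx0⟩ := Submodule.exists_mem_ne_zero_of_ne_bot v.ne_bot
    refine ⟨(x : K), ?_, (av_int_lt_iff v x).2 hx⟩
    rwa [ne_eq, RingOfIntegers.coe_eq_zero_iff]
  · refine ⟨(2 : K)⁻¹, inv_ne_zero two_ne_zero, ?_⟩
    change w (2 : K)⁻¹ < 1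
    have h : w (2 : K) = 2 := by
      have h1 := w.map_natCast 2
      exact_mod_cast h1
    rw [map_inv₀, h]
    norm_num

theorem av_ball_infinite (p : Place K) (c : K) {ε : ℝ} (hε : 0 < ε) :
    {t : K | av p (t - c) < ε}.Infinite := by
  obtain ⟨x, hx0, hx1⟩ := av_exists_small p
  have hxp : 0 < av p x := (av p).pos hx0
  obtain ⟨N, hN⟩ := exists_pow_lt_of_lt_one hε hx1
  refine Set.infinite_of_injective_forall_mem (f := fun j : ℕ => c + x ^ (N + j)) ?_ ?_
  · intro i j hij
    have h1 : x ^ (N + i) = x ^ (N + j) := add_left_cancel hij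
    have h2 := congrArg (av p) h1
    rw [map_pow, map_pow] at h2
    have h3 := pow_right_injective₀ hxp hx1.ne h2
    omega
  · intro j
    change av p (c + x ^ (N + j) - c) < ε
    rw [add_sub_cancel_left, map_pow, pow_add]
    calc av p x ^ N * av p x ^ j ≤ av p x ^ N * 1 :=
          mul_le_mul_of_nonneg_left (pow_le_one₀ hxp.le hx1.le) (pow_nonneg hxp.le _)
      _ = av p x ^ N := mul_one _
      _ < ε := hN

/-- a nonzero polynomial is nonzero somewhere in every ball (the ball is a product of infinite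
sets: `MvPolynomial.funext_set`) -/
theorem av_ne (p : Place K) {m : ℕ} (f : MvPolynomial (Fin m) K) (hf : f ≠ 0) (c : Fin m → K)
    {ε : ℝ} (hε : 0 < ε) : ∃ t : Fin m → K, (∀ i, av p (t i - c i) < ε) ∧
      MvPolynomial.eval t f ≠ 0 := by
  by_contra hcon
  push Not at hcon
  apply hf
  refine MvPolynomial.funext_set (fun i => {t : K | av p (t - c i) < ε})
    (fun i => av_ball_infinite p (c i) hε) fun t ht => ?_
  rw [map_zero]
  exact hcon t fun i => ht i trivial

/-- integral coefficients and integral point: integral value -/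
theorem av_eval_le (v : HeightOneSpectrum (𝓞 K)) {m : ℕ} (f : MvPolynomial (Fin m) K)
    (hf : ∀ n, av (Sum.inl v) (f.coeff n) ≤ 1) (t : Fin m → K)
    (ht : ∀ i, av (Sum.inl v) (t i) ≤ 1) : av (Sum.inl v) (MvPolynomial.eval t f) ≤ 1 := by
  rw [MvPolynomial.eval_eq]
  refine av_sum _ v _ fun n _ => ?_
  rw [map_mul, map_prod]
  refine mul_le_one₀ (hf n) (Finset.prod_nonneg fun i _ => (av (Sum.inl v)).nonneg _)
    (Finset.prod_le_one (fun i _ => (av (Sum.inl v)).nonneg _) fun i _ => ?_)
  rw [map_pow]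
  exact pow_le_one₀ ((av (Sum.inl v)).nonneg _) (ht i)

/-- norm of the image in the completion at a finite place -/
theorem norm_fin (v : HeightOneSpectrum (𝓞 K)) (x : K) :
    ‖algebraMap K (v.adicCompletion K) x‖ = av (Sum.inl v) x :=
  FinitePlace.norm_embedding v x

theorem norm_inf (w : InfinitePlace K) (x : K) :
    ‖algebraMap K w.Completion x‖ = av (Sum.inr w) x := by
  rw [InfinitePlace.Completion.algebraMap_apply]
  exact InfinitePlace.Completion.norm_coe w _

end SAF
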