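import Pool.Agent.Lib.MP_dd8365_nt.ClsTB

/-! MP_dd8365_nt (SAF), torus quotients: finiteness of the class group. -/

open IsDedekindDomain NumberField

namespace SAF

variable {K : Type} [Field K] [NumberField K]

/-- uniformizers which are units outside a fixed finite set: choose integral ideals `b_c` for the
classes `c` (`ClassGroup.mk0_surjective`), `T` = the primes dividing one of them;
`v * b_c = (a)` for a suitable `c` (`ClassGroup.mk0_eq_one_iff`) -/
theorem exists_unif_elt : ∃ T : Finset (HeightOneSpectrum (𝓞 K)), ∀ v ∉ T, ∃ a : K, a ≠ 0 ∧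
    v.valuation K a = WithZero.exp (-1 : ℤ) ∧ ∀ u ∉ T, u ≠ v → av (Sum.inl u) a = 1 := by
  classical
  choose b hb using fun c : ClassGroup (𝓞 K) => ClassGroup.mk0_surjective c
  have hb0 : ∀ c, (b c : Ideal (𝓞 K)) ≠ 0 := fun c => nonZeroDivisors.coe_ne_zero (b c)
  have hfin : (⋃ c, {v : HeightOneSpectrum (𝓞 K) | v.asIdeal ∣ (b c : Ideal (𝓞 K))}).Finite :=
    Set.finite_iUnion fun c => Ideal.finite_factors (hb0 c)
  refine ⟨hfin.toFinset, fun v hv => ?_⟩
  have hT : ∀ u : HeightOneSpectrum (𝓞 K), u ∉ hfin.toFinset → ∀ c,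
      ¬ u.asIdeal ∣ (b c : Ideal (𝓞 K)) := by
    intro u hu c h
    exact hu (hfin.mem_toFinset.2 (Set.mem_iUnion.2 ⟨c, h⟩))
  obtain ⟨V, hV⟩ : ∃ V : nonZeroDivisors (Ideal (𝓞 K)), (V : Ideal (𝓞 K)) = v.asIdeal :=
    ⟨⟨v.asIdeal, mem_nonZeroDivisors_of_ne_zero v.ne_bot⟩, rfl⟩
  obtain ⟨c, hc⟩ : ∃ c, c = (ClassGroup.mk0 V)⁻¹ := ⟨_, rfl⟩
  have h1 : ClassGroup.mk0 (V * b c) = 1 := by
    rw [map_mul, hb, hc, mul_inv_cancel]
  obtain ⟨a, ha⟩ := (ClassGroup.mk0_eq_one_iff (V * b c).2).1 h1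
  have hspan : Ideal.span {a} = v.asIdeal * (b c : Ideal (𝓞 K)) := by
    rw [← hV]
    exact ha.symm
  have ha0 : a ≠ 0 := by
    intro h0
    rw [h0, Ideal.span_singleton_eq_bot.2 rfl] at hspan
    have h2 : v.asIdeal * (b c : Ideal (𝓞 K)) = 0 := hspan.symm
    rcases mul_eq_zero.1 h2 with h | h
    · exact v.ne_bot h
    · exact hb0 c h
  refine ⟨(a : K), by simpa using ha0, ?_, fun u hu huv => ?_⟩
  · change v.valuation K (algebraMap (𝓞 K) K a) = _
    rw [v.valuation_of_algebraMap]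
    have h2 : v.intValuation a ≤ WithZero.exp (-((1 : ℕ) : ℤ)) := by
      rw [v.intValuation_le_pow_iff_dvd, pow_one, hspan]
      exact dvd_mul_right _ _
    have h3 : ¬ v.intValuation a ≤ WithZero.exp (-((2 : ℕ) : ℤ)) := by
      rw [v.intValuation_le_pow_iff_dvd, hspan, pow_two]
      intro h
      exact hT v hv c ((mul_dvd_mul_iff_left v.ne_bot).1 h)
    rw [v.intValuation_if_neg ha0] at h2 h3 ⊢
    rw [WithZero.exp_le_exp] at h2 h3
    congr 1
    omega
  · rw [av_int_eq_iff]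
    intro h
    have h2 : u.asIdeal ∣ v.asIdeal * (b c : Ideal (𝓞 K)) := by
      rw [← hspan]
      exact Ideal.dvd_span_singleton.2 h
    rcases (Ideal.prime_of_isPrime u.ne_bot u.isPrime).dvd_or_dvd h2 with h3 | h3
    · apply huv
      have h4 : v.asIdeal ≤ u.asIdeal := Ideal.dvd_iff_le.1 h3
      have h5 : v.asIdeal.IsMaximal := v.isMaximal
      exact (HeightOneSpectrum.ext (h5.eq_of_le u.isPrime.ne_top h4)).symm
    · exact hT u hu c h3

/-- elements of `K` with prescribed absolute values outside a fixed finite set -/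
theorem exists_presc : ∃ T : Finset (HeightOneSpectrum (𝓞 K)),
    ∀ l : (v : HeightOneSpectrum (𝓞 K)) → (v.adicCompletion K)ˣ,
      {v | ‖(l v : v.adicCompletion K)‖ ≠ 1}.Finite →
      ∃ m : Kˣ, ∀ v ∉ T, av (Sum.inl v) (m : K) = ‖(l v : v.adicCompletion K)‖ :=
  exists_presc_of exists_unif_elt

end SAF
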