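import Pool.Agent.Lib.MP_dd8365_nt.Basic

/-! MP_dd8365_nt (SAF), torus quotients: elements of `K` with prescribed absolute values outside a
fixed finite set, from uniformizers which are units outside a fixed finite set. -/

open IsDedekindDomain NumberField

namespace SAF

variable {K : Type} [Field K] [NumberField K]

/-- the norm of a nonzero element of the completion is a power of the absolute value of a
uniformizer -/
theorem norm_eq_zpow (v : HeightOneSpectrum (𝓞 K)) {a : K}
    (ha : v.valuation K a = WithZero.exp (-1 : ℤ)) (x : (v.adicCompletion K)ˣ) :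
    ∃ n : ℤ, av (Sum.inl v) a ^ n = ‖(x : v.adicCompletion K)‖ := by
  have hx : Valued.v (x : v.adicCompletion K) ≠ (0 : WithZero (Multiplicative ℤ)) := by
    rw [Valuation.ne_zero_iff]
    exact x.ne_zero
  refine ⟨-WithZero.log (Valued.v (x : v.adicCompletion K)), ?_⟩
  have h1 : (v.valuation K a) ^ (-WithZero.log (Valued.v (x : v.adicCompletion K))) =
      Valued.v (x : v.adicCompletion K) := by
    rw [ha, ← WithZero.exp_zsmul, smul_neg, neg_smul, neg_neg, smul_eq_mul, mul_one,
      WithZero.exp_log hx]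
  rw [FinitePlace.norm_def, av_inl, HeightOneSpectrum.adicAbv_def, ← h1, map_zpow₀,
    NNReal.coe_zpow, h1]

/-- elements of `K` with prescribed absolute values outside a fixed finite set -/
theorem exists_presc_of (H : ∃ T : Finset (HeightOneSpectrum (𝓞 K)), ∀ v ∉ T, ∃ a : K, a ≠ 0 ∧
    v.valuation K a = WithZero.exp (-1 : ℤ) ∧ ∀ u ∉ T, u ≠ v → av (Sum.inl u) a = 1) :
    ∃ T : Finset (HeightOneSpectrum (𝓞 K)),
    ∀ l : (v : HeightOneSpectrum (𝓞 K)) → (v.adicCompletion K)ˣ,
      {v | ‖(l v : v.adicCompletion K)‖ ≠ 1}.Finite →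
      ∃ m : Kˣ, ∀ v ∉ T, av (Sum.inl v) (m : K) = ‖(l v : v.adicCompletion K)‖ := by
  classical
  obtain ⟨T, hT⟩ := H
  choose a ha0 hav hau using hT
  refine ⟨T, fun l hl => ?_⟩
  have hn : ∀ v (hv : v ∉ T), ∃ n : ℤ,
      av (Sum.inl v) (a v hv) ^ n = ‖(l v : v.adicCompletion K)‖ :=
    fun v hv => norm_eq_zpow v (hav v hv) (l v)
  choose n hn using hn
  set b : HeightOneSpectrum (𝓞 K) → Kˣ := fun v =>
    if hv : v ∈ T then 1 else (Units.mk0 (a v hv) (ha0 v hv)) ^ n v hv with hb
  refine ⟨∏ v ∈ hl.toFinset, b v, fun u hu => ?_⟩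
  have h1 : ∀ v, v ≠ u → av (Sum.inl u) ((b v : Kˣ) : K) = 1 := by
    intro v hvu
    by_cases hv : v ∈ T
    · simp only [hb, dif_pos hv, Units.val_one, map_one]
    · simp only [hb, dif_neg hv, Units.val_zpow_eq_zpow_val, Units.val_mk0]
      rw [map_zpow₀, hau v hv u hu (Ne.symm hvu), one_zpow]
  have h2 : av (Sum.inl u) ((b u : Kˣ) : K) = ‖(l u : u.adicCompletion K)‖ := by
    simp only [hb, dif_neg hu, Units.val_zpow_eq_zpow_val, Units.val_mk0]
    rw [map_zpow₀, hn u hu]
  rw [Units.coe_prod, map_prod]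
  by_cases huF : u ∈ hl.toFinset
  · rw [Finset.prod_eq_single_of_mem u huF fun v _ hvu => h1 v hvu, h2]
  · rw [Finset.prod_eq_one fun v hv => h1 v fun h => huF (h ▸ hv)]
    rw [Set.Finite.mem_toFinset, Set.mem_ofPred_eq, not_not] at huF
    exact huF.symm

end SAF
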