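import Pool.Agent.Lib.MP_dd8365_nt.Exp

/-! MP_dd8365_nt (SAF): exponentials, relative to a set of derivations. -/

open MvPolynomial

namespace SAF

variable {K : Type} [Field K] [CharZero K] {A : Type} [CommRing A] [Algebra K A]

/-- the smallest stable ideal containing `J` is generated by words; finitely many of its elements
are combinations of coefficients of one composition of exponentials -/
theorem exists_chain2 (𝒟 : Set (Derivation K A A)) (hnil : ∀ D ∈ 𝒟, ∀ a, ∃ n : ℕ, (⇑D)^[n] a = 0)
    (J : Ideal A) : ∃ J' : Ideal A, J ≤ J' ∧ Stable 𝒟 J' ∧ ∀ E : Finset A, (∀ a ∈ E, a ∈ J') →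
      ∃ L : List (LND K A), (∀ d ∈ L, d.D ∈ 𝒟) ∧
        ∀ a ∈ E, a ∈ Ideal.span {a | ∃ g ∈ J, ∃ n, a = (lam L g).coeff n} := by
  obtain ⟨J', hJ'⟩ : ∃ J' : Ideal A, J' = Ideal.span {a | ∃ (w : List (LND K A)),
      (∀ d ∈ w, d.D ∈ 𝒟) ∧ ∃ g ∈ J, a = w.foldr (fun d a => d.D a) g} := ⟨_, rfl⟩
  have hle : J ≤ J' := by
    intro g hg
    rw [hJ']
    exact Ideal.subset_span ⟨[], by simp, g, hg, rfl⟩
  have hst : Stable 𝒟 J' := by
    intro D hD a ha
    rw [hJ'] at ha
    induction ha using Submodule.span_induction with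
    | mem a ha =>
      obtain ⟨w, hw, g, hg, rfl⟩ := ha
      rw [hJ']
      refine Ideal.subset_span ⟨(⟨D, hnil D hD⟩ : LND K A) :: w, ?_, g, hg, rfl⟩
      intro d hd
      rcases List.mem_cons.1 hd with rfl | hd
      · exact hD
      · exact hw d hd
    | zero =>
      rw [map_zero]
      exact Submodule.zero_mem _
    | add a b _ _ ha hb =>
      rw [map_add]
      exact Submodule.add_mem _ ha hb
    | smul r a hmem ha =>
      rw [smul_eq_mul, Derivation.leibniz]
      refine Submodule.add_mem _ (Submodule.smul_mem _ _ ha) ?_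
      rw [smul_eq_mul, mul_comm, hJ']
      exact Ideal.mul_mem_left _ _ hmem
  have key : ∀ a ∈ J', ∃ L : List (LND K A), (∀ d ∈ L, d.D ∈ 𝒟) ∧
      a ∈ Ideal.span {a | ∃ (w : List (LND K A)),
      w.Sublist L ∧ ∃ g ∈ J, a = w.foldr (fun d a => d.D a) g} := by
    intro a ha
    rw [hJ'] at ha
    induction ha using Submodule.span_induction with
    | mem a ha =>
      obtain ⟨w, hw, g, hg, rfl⟩ := ha
      exact ⟨w, hw, Ideal.subset_span ⟨w, List.Sublist.refl w, g, hg, rfl⟩⟩
    | zero => exact ⟨[], by simp, Submodule.zero_mem _⟩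
    | add a b _ _ ha hb =>
      obtain ⟨L1, h1', h1⟩ := ha
      obtain ⟨L2, h2', h2⟩ := hb
      refine ⟨L1 ++ L2, ?_, Submodule.add_mem _ (Ideal.span_mono ?_ h1) (Ideal.span_mono ?_ h2)⟩
      · intro d hd
        rcases List.mem_append.1 hd with h | h
        · exact h1' d h
        · exact h2' d h
      · rintro x ⟨w, hw, g, hg, rfl⟩
        exact ⟨w, hw.trans (List.sublist_append_left _ _), g, hg, rfl⟩
      · rintro x ⟨w, hw, g, hg, rfl⟩
        exact ⟨w, hw.trans (List.sublist_append_right _ _), g, hg, rfl⟩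
    | smul r a _ ha =>
      obtain ⟨L1, h1', h1⟩ := ha
      exact ⟨L1, h1', Submodule.smul_mem _ _ h1⟩
  refine ⟨J', hle, hst, fun E hE => ?_⟩
  have key2 : ∃ L : List (LND K A), (∀ d ∈ L, d.D ∈ 𝒟) ∧
      ∀ a ∈ E, a ∈ Ideal.span {a | ∃ (w : List (LND K A)),
      w.Sublist L ∧ ∃ g ∈ J, a = w.foldr (fun d a => d.D a) g} := by
    classical
    induction E using Finset.induction_on with
    | empty => exact ⟨[], by simp, by simp⟩
    | insert a E ha ih =>
      obtain ⟨L1, h1', h1⟩ := ih (fun b hb => hE b (Finset.mem_insert_of_mem hb))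
      obtain ⟨L2, h2', h2⟩ := key a (hE a (Finset.mem_insert_self _ _))
      refine ⟨L1 ++ L2, ?_, ?_⟩
      · intro d hd
        rcases List.mem_append.1 hd with h | h
        · exact h1' d h
        · exact h2' d h
      · intro b hb
        rcases Finset.mem_insert.1 hb with rfl | hb
        · refine Ideal.span_mono ?_ h2
          rintro x ⟨w, hw, g, hg, rfl⟩
          exact ⟨w, hw.trans (List.sublist_append_right _ _), g, hg, rfl⟩
        · refine Ideal.span_mono ?_ (h1 b hb)
          rintro x ⟨w, hw, g, hg, rfl⟩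
          exact ⟨w, hw.trans (List.sublist_append_left _ _), g, hg, rfl⟩
  obtain ⟨L, hL, h⟩ := key2
  refine ⟨L, hL, fun a ha => Ideal.span_mono ?_ (h a ha)⟩
  rintro x ⟨w, hw, g, hg, rfl⟩
  obtain ⟨n, hn⟩ := lam_word w L hw g
  exact ⟨g, hg, n, hn.symm⟩

/-- `lam L` maps a stable ideal into the polynomials with coefficients in it -/
theorem lam_stable {𝒟 : Set (Derivation K A A)} {J : Ideal A} (hJ : Stable 𝒟 J)
    (L : List (LND K A)) (hL : ∀ d ∈ L, d.D ∈ 𝒟) (g : A) (hg : g ∈ J) :
    ∀ n, (lam L g).coeff n ∈ J := by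
  induction L with
  | nil =>
    intro n
    change (C g : MvPolynomial (Fin 0) A).coeff n ∈ J
    classical
    rw [coeff_C]
    split_ifs
    · exact hg
    · exact J.zero_mem
  | cons d L ih =>
    have ih' := ih (fun d hd => hL d (List.mem_cons_of_mem _ hd))
    intro n
    have h1 : ∃ k n', n = Finsupp.cons k n' := ⟨n 0, n.tail, (Finsupp.cons_tail n).symm⟩
    obtain ⟨k, n', rfl⟩ := h1
    rw [lam_cons_coeff, expHom_coeff]
    have hd : ∀ (j : ℕ) (f : MvPolynomial (Fin L.length) A), (∀ n, f.coeff n ∈ J) →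
        ∀ n, ((⇑(d.mv L.length).D)^[j] f).coeff n ∈ J := by
      intro j
      induction j with
      | zero => intro f hf; exact hf
      | succ j ihj =>
        intro f hf
        rw [Function.iterate_succ]
        refine ihj _ (fun n => ?_)
        rw [LND.mv_coeff]
        exact hJ d.D (hL d List.mem_cons_self) _ (hf n)
    rw [coeff_smul, Algebra.smul_def]
    exact J.mul_mem_left _ (hd k _ ih' n')

/-- the ideal of `A[t]` generated by a stable ideal `J` is also generated by `lam L J` -/
theorem map_lam [IsNoetherianRing A] {𝒟 : Set (Derivation K A A)} {J : Ideal A}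
    (hJ : Stable 𝒟 J) (L : List (LND K A)) (hL : ∀ d ∈ L, d.D ∈ 𝒟) :
    Ideal.map (C : A →+* MvPolynomial (Fin L.length) A) J = Ideal.map (lam L).toRingHom J := by
  obtain ⟨e, he⟩ := lam_equiv L
  have hle : Ideal.map (lam L).toRingHom J ≤
      Ideal.map (C : A →+* MvPolynomial (Fin L.length) A) J := by
    rw [Ideal.map_le_iff_le_comap]
    intro g hg
    rw [Ideal.mem_comap, MvPolynomial.mem_map_C_iff]
    exact lam_stable hJ L hL g hg
  have hcomp : Ideal.map (lam L).toRingHom J =
      Ideal.map e.toRingHom (Ideal.map (C : A →+* MvPolynomial (Fin L.length) A) J) := by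
    rw [Ideal.map_map]
    congr 1
    ext1 a
    exact (he a).symm
  rw [hcomp] at hle ⊢
  refine le_antisymm ?_ hle
  -- Noetherian argument: `e M ≤ M` implies `M ≤ e M`
  obtain ⟨M, hM⟩ : ∃ M : Ideal (MvPolynomial (Fin L.length) A), M = Ideal.map C J := ⟨_, rfl⟩
  rw [← hM] at hle ⊢
  -- ascending chain
  have hmem : ∀ x, x ∈ M → e x ∈ M := fun x hx => hle (Ideal.mem_map_of_mem _ hx)
  let f : ℕ →o Ideal (MvPolynomial (Fin L.length) A) :=
    { toFun := fun k => Ideal.comap ((e.toRingHom : MvPolynomial (Fin L.length) A →+* _) ^ k) M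
      monotone' := by
        refine monotone_nat_of_le_succ (fun k x hx => ?_)
        rw [Ideal.mem_comap] at hx ⊢
        rw [pow_succ']
        exact hmem _ hx }
  obtain ⟨k, hk⟩ := monotone_stabilizes_iff_noetherian.2 (inferInstanceAs
    (IsNoetherian (MvPolynomial (Fin L.length) A) (MvPolynomial (Fin L.length) A))) f
  intro x hx
  have hsur : Function.Surjective (⇑((e.toRingHom : MvPolynomial (Fin L.length) A →+* _) ^ k)) := by
    rw [RingHom.coe_pow]
    exact e.surjective.iterate k
  obtain ⟨z, hz⟩ := hsur (e.symm x)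
  have h1 : z ∈ f (k + 1) := by
    change ((e.toRingHom : MvPolynomial (Fin L.length) A →+* _) ^ (k + 1)) z ∈ M
    rw [pow_succ']
    change e (((e.toRingHom : MvPolynomial (Fin L.length) A →+* _) ^ k) z) ∈ M
    rw [hz, RingEquiv.apply_symm_apply]
    exact hx
  rw [← hk (k + 1) (Nat.le_succ k)] at h1
  have h2 : e.symm x ∈ M := by
    rw [← hz]
    exact h1
  have h3 := Ideal.mem_map_of_mem e.toRingHom h2
  have h4 : e.toRingHom (e.symm x) = x := e.apply_symm_apply x
  rw [h4] at h3
  exact h3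

end SAF
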