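import Pool.Agent.Lib.MP_dd8365_nt.Height

/-! MP_dd8365_nt (SAF): heights and common divisors, relative version. -/

namespace SAF

/-- Otherwise `q` divides all of them. `Q` = comap of `(q)` in `A[t]` is prime, `Q ∩ A = 0`, and
there is no prime strictly between `⊥` and `Q` (`F[t]` is a UFD and a localization of `A[t]`:
`MvPolynomial.isLocalization`, `IsLocalization.comap_map_of_isPrime_disjoint`). The same holds for
`Q' = comap e Q`, which contains `C g` for `g ∈ I`. `q' = Q' ∩ A ≥ I` has `⊥ < q1 < q'`, and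
`⊥ < map C q1 < Q'` is prime (`Ideal.isPrime_map_C..`), contradiction. -/
theorem height_gcd2 {A F : Type} [CommRing A] [IsDomain A] [Field F] [Algebra A F]
    [IsFractionRing A F] (m : ℕ)
    (e : MvPolynomial (Fin m) A ≃+* MvPolynomial (Fin m) A) (I I0 : Ideal A) (h0 : I0 ≠ ⊥)
    (hI : ∀ q : Ideal A, q.IsPrime → I ≤ q → ¬ I0 ≤ q →
      ∃ q1 : Ideal A, q1.IsPrime ∧ ⊥ < q1 ∧ q1 < q)
    (he : Ideal.map MvPolynomial.C I0 ≤ Ideal.map (e.toRingHom.comp MvPolynomial.C) I0)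
    (q : MvPolynomial (Fin m) F) (hq : Irreducible q) :
    ∃ g ∈ I, ¬ q ∣ MvPolynomial.map (algebraMap A F) (e (MvPolynomial.C g)) := by
  by_contra hcon
  push Not at hcon
  obtain ⟨Q, hQ⟩ : ∃ Q : Ideal (MvPolynomial (Fin m) A),
      Q = Ideal.comap (MvPolynomial.map (algebraMap A F)) (Ideal.span {q}) := ⟨_, rfl⟩
  have hqp : (Ideal.span {q}).IsPrime := (Ideal.span_singleton_prime hq.ne_zero).2 hq.prime
  have hQp : Q.IsPrime := by
    rw [hQ]
    exact Ideal.comap_isPrime _ _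
  have hCI : ∀ g ∈ I, e (MvPolynomial.C g) ∈ Q := by
    intro g hg
    rw [hQ, Ideal.mem_comap, Ideal.mem_span_singleton]
    exact hcon g hg
  obtain ⟨Q', hQ'⟩ : ∃ Q' : Ideal (MvPolynomial (Fin m) A), Q' = Ideal.comap e.toRingHom Q :=
    ⟨_, rfl⟩
  have memQ' : ∀ f, f ∈ Q' ↔ e f ∈ Q := by
    intro f
    rw [hQ', Ideal.mem_comap]
    exact Iff.rfl
  have hQ'p : Q'.IsPrime := by
    rw [hQ']
    exact Ideal.comap_isPrime _ _
  have hnot : ¬ I0 ≤ Ideal.comap MvPolynomial.C Q' := by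
    intro hle
    have h1 : Ideal.map (e.toRingHom.comp MvPolynomial.C) I0 ≤ Q := by
      rw [Ideal.map_le_iff_le_comap]
      intro g hg
      have h2 := hle hg
      rw [Ideal.mem_comap, memQ'] at h2
      exact h2
    obtain ⟨a, ha, ha0⟩ := Submodule.exists_mem_ne_zero_of_ne_bot h0
    have h2 : MvPolynomial.C a ∈ Q := h1 (he (Ideal.mem_map_of_mem _ ha))
    rw [hQ, Ideal.mem_comap, Ideal.mem_span_singleton, MvPolynomial.map_C] at h2
    have hc0 : algebraMap A F a ≠ 0 := by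
      intro h3
      exact ha0 (IsFractionRing.injective A F (by rw [h3, map_zero]))
    exact hq.not_isUnit (isUnit_of_dvd_unit h2 ((isUnit_iff_ne_zero.2 hc0).map MvPolynomial.C))
  obtain ⟨q1, hq1p, hq1b, hq1⟩ := hI (Ideal.comap MvPolynomial.C Q') (Ideal.comap_isPrime _ _)
    (fun g hg => by
      rw [Ideal.mem_comap, memQ']
      exact hCI g hg) hnot
  obtain ⟨P1, hP1⟩ : ∃ P1 : Ideal (MvPolynomial (Fin m) A),
      P1 = RingHom.ker (MvPolynomial.map (σ := Fin m) (Ideal.Quotient.mk q1)) := ⟨_, rfl⟩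
  have hP1p : P1.IsPrime := by
    rw [hP1]
    exact RingHom.ker_isPrime _
  have hP1C : ∀ a, MvPolynomial.C a ∈ P1 ↔ a ∈ q1 := by
    intro a
    rw [hP1, RingHom.mem_ker, MvPolynomial.map_C, MvPolynomial.C_eq_zero,
      Ideal.Quotient.eq_zero_iff_mem]
  have hP1le : P1 ≤ Q' := by
    rw [hP1, MvPolynomial.ker_map, Ideal.mk_ker, Ideal.map_le_iff_le_comap]
    exact hq1.le
  obtain ⟨P, hP⟩ : ∃ P : Ideal (MvPolynomial (Fin m) A), P = Ideal.comap e.symm.toRingHom P1 :=
    ⟨_, rfl⟩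
  have memP : ∀ f, f ∈ P ↔ e.symm f ∈ P1 := by
    intro f
    rw [hP, Ideal.mem_comap]
    exact Iff.rfl
  have hPp : P.IsPrime := by
    rw [hP]
    exact Ideal.comap_isPrime _ _
  have hP0 : P ≠ ⊥ := by
    intro h0
    obtain ⟨a, ha, ha0⟩ := Submodule.exists_mem_ne_zero_of_ne_bot hq1b.ne'
    have h1 : e (MvPolynomial.C a) ∈ P := by
      rw [memP, RingEquiv.symm_apply_apply, hP1C]
      exact ha
    rw [h0, Ideal.mem_bot] at h1
    apply ha0
    have h2 : MvPolynomial.C (σ := Fin m) a = 0 := by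
      apply e.injective
      rw [h1, map_zero]
    exact MvPolynomial.C_eq_zero.1 h2
  have hPQ : P ≤ Q := by
    intro f hf
    rw [memP] at hf
    have h1 := hP1le hf
    rw [memQ', RingEquiv.apply_symm_apply] at h1
    exact h1
  have hQP : Q ≤ P := by
    have h1 := height_aux m q hq P hPp hP0 (by rw [← hQ]; exact hPQ)
    rwa [← hQ] at h1
  obtain ⟨b, hb, hb1⟩ := SetLike.exists_of_lt hq1
  apply hb1
  rw [Ideal.mem_comap, memQ'] at hb
  have h2 := hQP hb
  rw [memP, RingEquiv.symm_apply_apply, hP1C] at h2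
  exact h2

end SAF
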