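import Pool.Agent.Lib.MP_dd8365_nt.Core
import Pool.Agent.Lib.MP_dd8365_nt.Exp2
import Pool.Agent.Lib.MP_dd8365_nt.Height2

/-! MP_dd8365_nt (SAF): the core, general version: `U = V(P) \ V(I0)`, `Z = V(I) ∩ U` in the open
orbit. -/

open IsDedekindDomain NumberField

namespace SAF

variable {K : Type} [Field K] [NumberField K]

/-- the statement proved in `core2`; input of the topological part -/
def CoreStm2 {N : ℕ} (P I0 I : Ideal (MvPolynomial (Fin N) K)) (S : Set (Place K)) : Prop :=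
  ∃ Ω0 : Finset (HeightOneSpectrum (𝓞 K)), ∀ x0 : Fin N → K, x0 ∈ Pts P I K →
    ∀ Ω : Finset (Place K), (∀ p ∈ Ω, p ∉ S) → (∀ v ∈ Ω0, Sum.inl v ∉ S → Sum.inl v ∈ Ω) →
    (∀ v, Sum.inl v ∉ Ω → Sum.inl v ∉ S → (∀ i, av (Sum.inl v) (x0 i) ≤ 1) ∧
      ∃ g : MvPolynomial (Fin N) (𝓞 K), MvPolynomial.map (algebraMap (𝓞 K) K) g ∈ I0 ∧
        av (Sum.inl v) (MvPolynomial.aeval x0 (MvPolynomial.map (algebraMap (𝓞 K) K) g)) = 1) →
    ∀ ε : ℝ, 0 < ε → ∃ y ∈ Pts P I K, (∀ p ∈ Ω, ∀ i, av p (y i - x0 i) < ε) ∧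
      ∀ v, Sum.inl v ∉ Ω → Sum.inl v ∉ S → (∀ i, av (Sum.inl v) (y i) ≤ 1) ∧
        ∃ g : MvPolynomial (Fin N) (𝓞 K), MvPolynomial.map (algebraMap (𝓞 K) K) g ∈ I ∧
          av (Sum.inl v) (MvPolynomial.aeval y (MvPolynomial.map (algebraMap (𝓞 K) K) g)) = 1

section prep

open MvPolynomial

theorem exists_ge_one {ι : Type*} (s : Finset ι) (v : HeightOneSpectrum (𝓞 K)) (c g : ι → K)
    (hc : ∀ i ∈ s, av (Sum.inl v) (c i) ≤ 1)
    (h : 1 ≤ av (Sum.inl v) (∑ i ∈ s, c i * g i)) : ∃ i ∈ s, 1 ≤ av (Sum.inl v) (g i) := by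
  by_contra hcon
  push Not at hcon
  refine absurd h (not_le.2 (av_sum_lt s v _ (fun i hi => ?_)))
  rw [map_mul]
  calc _ ≤ 1 * av (Sum.inl v) (g i) :=
        mul_le_mul_of_nonneg_right (hc i hi) ((av (Sum.inl v)).nonneg _)
    _ < 1 := by rw [one_mul]; exact hcon i hi

theorem exists_finset_union {ι α : Type*} (s : Finset ι) (Q : ι → Finset α → Prop)
    (mono : ∀ i E E', E ⊆ E' → Q i E → Q i E') (h : ∀ i ∈ s, ∃ E, Q i E) :
    ∃ E, ∀ i ∈ s, Q i E := by
  classical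
  induction s using Finset.induction_on with
  | empty => exact ⟨∅, by simp⟩
  | insert a s ha ih =>
    obtain ⟨E1, h1⟩ := ih (fun i hi => h i (Finset.mem_insert_of_mem hi))
    obtain ⟨E2, h2⟩ := h a (Finset.mem_insert_self _ _)
    refine ⟨E1 ∪ E2, fun i hi => ?_⟩
    rcases Finset.mem_insert.1 hi with rfl | hi
    · exact mono _ _ _ Finset.subset_union_right h2
    · exact mono _ _ _ Finset.subset_union_left (h1 i hi)

variable {A : Type} [CommRing A] [Algebra K A]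

/-- if `b` is in the radical of `J + (G)`, at homomorphisms which kill `J` and are integral on a
suitable finite set: `b` not small implies that some element of `G` is not small -/
theorem rel_span (J : Ideal A) (G B : Finset A)
    (hB : ∀ b ∈ B, b ∈ (J ⊔ Ideal.span (G : Set A)).radical) :
    ∃ E : Finset A, ∀ (v : HeightOneSpectrum (𝓞 K)) (χ : A →ₐ[K] K), (∀ a ∈ J, χ a = 0) →
      (∀ a ∈ E, av (Sum.inl v) (χ a) ≤ 1) → (∃ b ∈ B, 1 ≤ av (Sum.inl v) (χ b)) →
      ∃ g ∈ G, 1 ≤ av (Sum.inl v) (χ g) := by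
  classical
  obtain ⟨E, hE⟩ := exists_finset_union B (fun b E => ∀ (v : HeightOneSpectrum (𝓞 K))
      (χ : A →ₐ[K] K), (∀ a ∈ J, χ a = 0) →
      (∀ a ∈ E, av (Sum.inl v) (χ a) ≤ 1) → 1 ≤ av (Sum.inl v) (χ b) →
      ∃ g ∈ G, 1 ≤ av (Sum.inl v) (χ g)) (fun b E E' hEE h v χ hJ hE' hb =>
        h v χ hJ (fun a ha => hE' a (hEE ha)) hb) (fun b hb => by
    obtain ⟨k, hk⟩ := Ideal.mem_radical_iff.1 (hB b hb)
    obtain ⟨u, hu, w, hw, huw⟩ := Submodule.mem_sup.1 hk
    obtain ⟨c, -, hc⟩ := Submodule.mem_span_finset.1 hw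
    refine ⟨G.image c, fun v χ hJ hE hb1 => ?_⟩
    have h1 : χ b ^ k = ∑ g ∈ G, χ (c g) * χ g := by
      rw [← map_pow, ← huw, map_add, hJ u hu, zero_add, ← hc, map_sum]
      refine Finset.sum_congr rfl (fun g _ => ?_)
      rw [smul_eq_mul, map_mul]
    refine exists_ge_one G v (fun g => χ (c g)) (fun g => χ g)
      (fun g hg => hE _ (Finset.mem_image_of_mem _ hg)) ?_
    rw [← h1, map_pow]
    exact one_le_pow₀ hb1)
  exact ⟨E, fun v χ hJ hE' ⟨b, hb, hb1⟩ => hE b hb v χ hJ hE' hb1⟩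

/-- the same for the move of a point -/
theorem rel_lam (L : List (LND K A)) (G B : Finset A)
    (hB : ∀ b ∈ B, (C b : MvPolynomial (Fin L.length) A) ∈
      Ideal.map (lam L).toRingHom (Ideal.span (G : Set A))) :
    ∃ E : Finset A, ∀ (v : HeightOneSpectrum (𝓞 K)) (χ : A →ₐ[K] K) (t : Fin L.length → K),
      (∀ i, av (Sum.inl v) (t i) ≤ 1) →
      (∀ a ∈ E, av (Sum.inl v) (χ a) ≤ 1) → (∃ b ∈ B, 1 ≤ av (Sum.inl v) (χ b)) →
      ∃ g ∈ G, 1 ≤ av (Sum.inl v) (mv L χ t g) := by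
  classical
  obtain ⟨E, hE⟩ := exists_finset_union B (fun b E => ∀ (v : HeightOneSpectrum (𝓞 K))
      (χ : A →ₐ[K] K) (t : Fin L.length → K), (∀ i, av (Sum.inl v) (t i) ≤ 1) →
      (∀ a ∈ E, av (Sum.inl v) (χ a) ≤ 1) → 1 ≤ av (Sum.inl v) (χ b) →
      ∃ g ∈ G, 1 ≤ av (Sum.inl v) (mv L χ t g)) (fun b E E' hEE h v χ t ht hE' hb =>
        h v χ t ht (fun a ha => hE' a (hEE ha)) hb) (fun b hb => by
    have h0 := hB b hb
    rw [Ideal.map_span, ← Finset.coe_image] at h0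
    obtain ⟨c, -, hc⟩ := Submodule.mem_span_finset.1 h0
    refine ⟨(G.image (lam L).toRingHom).biUnion (fun g => (c g).support.image
      (fun n => (c g).coeff n)), fun v χ t ht hE hb1 => ?_⟩
    have h1 : χ b = ∑ g ∈ G.image (lam L).toRingHom, eval t (MvPolynomial.map χ.toRingHom (c g)) *
        eval t (MvPolynomial.map χ.toRingHom g) := by
      have h2 := congrArg (fun f => eval t (MvPolynomial.map χ.toRingHom f)) hc
      simp only [smul_eq_mul, map_sum, map_mul, MvPolynomial.map_C, eval_C] at h2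
      exact h2.symm
    obtain ⟨g, hg, hg1⟩ := exists_ge_one (G.image (lam L).toRingHom) v
      (fun g => eval t (MvPolynomial.map χ.toRingHom (c g)))
      (fun g => eval t (MvPolynomial.map χ.toRingHom g)) (fun g hg => by
      refine av_eval_le v _ (fun n => ?_) _ ht
      rw [MvPolynomial.coeff_map]
      by_cases hn : n ∈ (c g).support
      · exact hE _ (Finset.mem_biUnion.2 ⟨g, hg, Finset.mem_image_of_mem _ hn⟩)
      · rw [MvPolynomial.notMem_support_iff.1 hn, map_zero, map_zero]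
        exact zero_le_one) (by rw [h1] at hb1; exact hb1)
    obtain ⟨a, ha, rfl⟩ := Finset.mem_image.1 hg
    refine ⟨a, ha, ?_⟩
    rw [mv_apply]
    exact hg1)
  exact ⟨E, fun v χ t ht hE' ⟨b, hb, hb1⟩ => hE b hb v χ t ht hE' hb1⟩

/-- coefficients of moved generators -/
theorem cover2 (L : List (LND K A)) (s : Finset A) :
    Ideal.span {a | ∃ g ∈ Ideal.span (s : Set A), ∃ n, a = (lam L g).coeff n} ≤
      Ideal.span {a | ∃ g ∈ s, ∃ n, a = (lam L g).coeff n} := by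
  rw [Ideal.span_le]
  rintro _ ⟨g, hg, n, rfl⟩
  set T := Ideal.span {a | ∃ g ∈ s, ∃ n, a = (lam L g).coeff n}
  have h1 : Ideal.span (s : Set A) ≤ Ideal.comap (lam L) (Ideal.map C T) := by
    rw [Ideal.span_le]
    intro g hg
    simp only [SetLike.mem_coe, Ideal.mem_comap]
    rw [MvPolynomial.mem_map_C_iff]
    intro n
    exact Ideal.subset_span ⟨g, hg, n, rfl⟩
  have h2 := h1 hg
  rw [Ideal.mem_comap, MvPolynomial.mem_map_C_iff] at h2
  exact h2 n

theorem good_G2 [IsDomain A] [IsNoetherianRing A] (𝒟 : Set (Derivation K A A))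
    (L : List (LND K A)) (hL : ∀ d ∈ L, d.D ∈ 𝒟) (I0 : Ideal A) (h0 : I0 ≠ ⊥)
    (hI0 : Stable 𝒟 I0) (s : Finset A)
    (hcod : ∀ q : Ideal A, q.IsPrime → Ideal.span (s : Set A) ≤ q → ¬ I0 ≤ q →
      ∃ q1 : Ideal A, q1.IsPrime ∧ ⊥ < q1 ∧ q1 < q) :
    Good L.length (MvPolynomial.map (algebraMap A (FractionRing A)) ''
      ((lam L) '' (s : Set A))) := by
  have hinj : Function.Injective (MvPolynomial.map (σ := Fin L.length)
      (algebraMap A (FractionRing A))) :=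
    MvPolynomial.map_injective _ (IsFractionRing.injective A (FractionRing A))
  apply good_of_gcd
  · have h0 : ∃ g ∈ s, g ≠ 0 := by
      by_contra hcon
      push Not at hcon
      have hb : Ideal.span (s : Set A) = ⊥ := by
        rw [Ideal.span_eq_bot]
        exact hcon
      obtain ⟨q1, -, h1, h2⟩ := hcod ⊥ Ideal.isPrime_bot hb.le (fun h => h0 (le_bot_iff.1 h))
      exact lt_irrefl _ (h1.trans h2)
    obtain ⟨g, hg, hg0⟩ := h0
    refine ⟨_, ⟨_, ⟨g, hg, rfl⟩, rfl⟩, ?_⟩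
    intro h
    exact lam_ne L hg0 (hinj (by rw [h, map_zero]))
  · intro q hq
    by_contra hcon
    push Not at hcon
    obtain ⟨e, he⟩ := lam_equiv L
    obtain ⟨g, hg, hgq⟩ := height_gcd2 L.length e (Ideal.span (s : Set A)) I0 h0
      hcod
      (by
        rw [map_lam hI0 L hL]
        refine le_of_eq ?_
        congr 1
        ext1 a
        exact (he a).symm) q hq
    rw [he] at hgq
    apply hgq
    have h1 : Ideal.span (s : Set A) ≤ Ideal.comap
        ((MvPolynomial.map (algebraMap A (FractionRing A))).comp (lam L).toRingHom)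
        (Ideal.span {q}) := by
      rw [Ideal.span_le]
      intro g hg
      simp only [SetLike.mem_coe, Ideal.mem_comap]
      rw [Ideal.mem_span_singleton]
      exact hcon _ ⟨_, ⟨g, hg, rfl⟩, rfl⟩
    have h2 := h1 hg
    rw [Ideal.mem_comap, Ideal.mem_span_singleton] at h2
    exact h2

/-- a nonzero function stays nonzero at a `K`-point after the move -/
theorem move_ne2 (L : List (LND K A)) (h : A) (χ : A →ₐ[K] K) (b : A)
    (hb : b ∈ Ideal.span {a | ∃ g ∈ Ideal.span {h}, ∃ n, a = (lam L g).coeff n})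
    (hb0 : χ b ≠ 0) : MvPolynomial.map χ.toRingHom (lam L h) ≠ 0 := by
  intro h0
  have h1 : Ideal.span {a | ∃ g ∈ Ideal.span {h}, ∃ n, a = (lam L g).coeff n} ≤
      RingHom.ker χ.toRingHom := by
    rw [Ideal.span_le]
    rintro _ ⟨g, hg, n, rfl⟩
    obtain ⟨b, rfl⟩ := Ideal.mem_span_singleton'.1 hg
    rw [SetLike.mem_coe, RingHom.mem_ker, ← MvPolynomial.coeff_map, map_mul, map_mul, h0,
      mul_zero, MvPolynomial.coeff_zero]
  exact hb0 (h1 hb)

/-- the integral model of an ideal is finitely generated: finitely many functions suffice -/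
theorem model_fg {N : ℕ} (I0 : Ideal (MvPolynomial (Fin N) K)) :
    ∃ γ : Finset (MvPolynomial (Fin N) (𝓞 K)),
      (∀ g ∈ γ, MvPolynomial.map (algebraMap (𝓞 K) K) g ∈ I0) ∧
      ∀ (v : HeightOneSpectrum (𝓞 K)) (x : Fin N → K), (∀ i, av (Sum.inl v) (x i) ≤ 1) →
        (∃ g : MvPolynomial (Fin N) (𝓞 K), MvPolynomial.map (algebraMap (𝓞 K) K) g ∈ I0 ∧
          av (Sum.inl v) (MvPolynomial.aeval x (MvPolynomial.map (algebraMap (𝓞 K) K) g)) = 1) →
        ∃ g ∈ γ, 1 ≤ av (Sum.inl v)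
          (MvPolynomial.aeval x (MvPolynomial.map (algebraMap (𝓞 K) K) g)) := by
  obtain ⟨γ, hγ⟩ : (Ideal.comap (MvPolynomial.map (σ := Fin N) (algebraMap (𝓞 K) K)) I0).FG :=
    (isNoetherianRing_iff_ideal_fg _).1 inferInstance _
  refine ⟨γ, fun g hg => ?_, ?_⟩
  · have h1 : g ∈ Ideal.span (γ : Set (MvPolynomial (Fin N) (𝓞 K))) := Ideal.subset_span hg
    rw [hγ] at h1
    exact h1
  · rintro v x hx ⟨g, hg, hg1⟩
    have h1 : g ∈ Ideal.span (γ : Set (MvPolynomial (Fin N) (𝓞 K))) := by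
      rw [hγ]
      exact hg
    obtain ⟨c, -, hc⟩ := Submodule.mem_span_finset.1 h1
    refine exists_ge_one γ v
      (fun f => MvPolynomial.aeval x (MvPolynomial.map (algebraMap (𝓞 K) K) (c f))) _
      (fun f _ => ?_) ?_
    · rw [MvPolynomial.aeval_eq_eval]
      refine av_eval_le v _ (fun n => ?_) _ hx
      rw [MvPolynomial.coeff_map]
      exact av_int v _
    · rw [← hc] at hg1
      simp only [smul_eq_mul, map_sum, map_mul] at hg1
      exact hg1.ge

end prep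

end SAF
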