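import Pool.Agent.Lib.MP_dd8365_nt.Conc
import Pool.Agent.Lib.MP_dd8365_nt.Core2

/-! MP_dd8365_nt (SAF): from the core statement to closures in the adelic topology. -/

open IsDedekindDomain NumberField
open scoped RestrictedProduct

namespace SAF

variable {K : Type} [Field K] [NumberField K]

/-- Let `U` be a neighbourhood of `y`; it contains a box: a finite set `T` of finite places `∉ S`
and `δ > 0` such that every `z` with `|z_v - y_v| < δ` for `v ∈ T`, `z_v ∈ IntPts` for `v ∉ T`,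
`|z_w - y_w| < δ` is in it (`IntPts` is open; `RestrictedProduct.nhds_eq_map_inclusion` or
`isOpen_forall_imp_mem`). Enlarge `T` by `Ω0` and by one place `v₁ ∉ S`, decreasing `δ` such that
at the new places the `δ`-ball around `y_v` is in `IntPts`. The image of `y` in `Adelic P I0 S` has
a similar open box; `hSA` gives `x0 : K`-point of `X` in the box for `δ/2` (and so close to `y` at
`v₁` that `x0 ∈ Pts P I K`), `H` gives the point with `ε = δ/2`. -/
theorem closure_of_core {N : ℕ} (P I0 I : Ideal (MvPolynomial (Fin N) K)) (hI : I ≤ I0)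
    (S : Set (Place K)) (hS : S.Finite) (H : CoreStm2 P I0 I S) (y : Adelic P I S)
    (hSA : Adelic.incl hI y ∈ closure (Rat P I0 S)) : y ∈ closure (Rat P I S) := by
  classical
  rw [mem_closure_iff]
  rintro U hU hy
  obtain ⟨Ω0, H⟩ := H
  -- a finite place outside `S`
  obtain ⟨v1, hv1⟩ : ∃ v : HeightOneSpectrum (𝓞 K), Sum.inl v ∉ S := by
    by_contra h
    push Not at h
    refine infinite_places (K := K) ((hS.preimage (f := Sum.inl) Sum.inl_injective.injOn).subset ?_)
    intro v _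
    exact h v
  obtain ⟨T, hT0, hyT, δ, hδ, hbox⟩ := cc_box hU hy
    (insert ⟨v1, hv1⟩ (Ω0.subtype fun v => Sum.inl v ∉ S))
  obtain ⟨g, hgI, hg⟩ := (y.1 ⟨v1, hv1⟩).2.2
  have hint : ∀ v : {v : HeightOneSpectrum (𝓞 K) // Sum.inl v ∉ S}, y.1 v ∈ IntPts P I v.1 →
      Pts.incl hI (y.1 v) ∈ IntPts P I0 v.1 := fun v hv => IntPts.incl hI hv
  -- the open box in `X`
  let O : Set (Adelic P I0 S) := {z | (∀ v ∈ T, dist (z.1 v).1 (y.1 v).1 < δ / 2) ∧
    (∀ v, v ∉ T → z.1 v ∈ IntPts P I0 v.1) ∧ (∀ w, dist (z.2 w).1 (y.2 w).1 < δ / 2) ∧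
    MvPolynomial.aeval (z.1 ⟨v1, hv1⟩).1 g ≠ 0}
  have hcont : ∀ v : {v : HeightOneSpectrum (𝓞 K) // Sum.inl v ∉ S},
      Continuous fun z : Adelic P I0 S => (z.1 v).1 := fun v =>
    continuous_subtype_val.comp ((RestrictedProduct.continuous_eval v).comp continuous_fst)
  have hcont2 : ∀ w : {w : InfinitePlace K // Sum.inr w ∉ S},
      Continuous fun z : Adelic P I0 S => (z.2 w).1 := fun w =>
    continuous_subtype_val.comp ((continuous_apply w).comp continuous_snd)
  have hO : IsOpen O := by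
    have hO1 : IsOpen {z : Adelic P I0 S | ∀ v ∈ T, dist (z.1 v).1 (y.1 v).1 < δ / 2} := by
      have : {z : Adelic P I0 S | ∀ v ∈ T, dist (z.1 v).1 (y.1 v).1 < δ / 2} =
          ⋂ v ∈ T, {z : Adelic P I0 S | dist (z.1 v).1 (y.1 v).1 < δ / 2} := by
        ext z; simp
      rw [this]
      exact isOpen_biInter_finset fun v _ =>
        isOpen_lt ((hcont v).dist continuous_const) continuous_const
    have hO2 : IsOpen {z : Adelic P I0 S | ∀ v, v ∉ T → z.1 v ∈ IntPts P I0 v.1} :=
      (RestrictedProduct.isOpen_forall_imp_mem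
        (A := fun v : {v : HeightOneSpectrum (𝓞 K) // Sum.inl v ∉ S} => IntPts P I0 v.1)
        (fun v => cc_isOpen P I0 v.1) (p := fun v => v ∉ T)).preimage continuous_fst
    have hO3 : IsOpen {z : Adelic P I0 S | ∀ w, dist (z.2 w).1 (y.2 w).1 < δ / 2} := by
      have : {z : Adelic P I0 S | ∀ w, dist (z.2 w).1 (y.2 w).1 < δ / 2} =
          ⋂ w, {z : Adelic P I0 S | dist (z.2 w).1 (y.2 w).1 < δ / 2} := by
        ext z; simp
      rw [this]
      exact isOpen_iInter_of_finite fun w =>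
        isOpen_lt ((hcont2 w).dist continuous_const) continuous_const
    have hO4 : IsOpen {z : Adelic P I0 S | MvPolynomial.aeval (z.1 ⟨v1, hv1⟩).1 g ≠ 0} :=
      isOpen_ne_fun ((cc_cont g).comp (hcont ⟨v1, hv1⟩)) continuous_const
    exact hO1.inter (hO2.inter (hO3.inter hO4))
  have hyO : Adelic.incl hI y ∈ O := by
    refine ⟨fun v _ => ?_, fun v hv => hint v (hyT v hv), fun w => ?_, hg⟩
    · show dist (y.1 v).1 (y.1 v).1 < δ / 2
      rw [dist_self]; exact half_pos hδ
    · show dist (y.2 w).1 (y.2 w).1 < δ / 2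
      rw [dist_self]; exact half_pos hδ
  obtain ⟨z, hzO, x0, hx0, hz1, hz2⟩ := mem_closure_iff.1 hSA O hO hyO
  have hz1' : ∀ v, (z.1 v).1 = fun i => algebraMap K (v.1.adicCompletion K) (x0 i) := fun v =>
    funext (hz1 v)
  have hz2' : ∀ w, (z.2 w).1 = fun i => algebraMap K w.1.Completion (x0 i) := fun w =>
    funext (hz2 w)
  obtain ⟨hO1, hO2, hO3, hO4⟩ := hzO
  have hx0I : x0 ∈ Pts P I K := by
    refine ⟨hx0.1, g, hgI, fun h0 => hO4 ?_⟩
    rw [hz1', cc_aeval, h0, map_zero]
  -- the finite set of places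
  set Ω : Finset (Place K) := T.image (fun v => Sum.inl v.1) ∪
    (Finset.univ.filter fun w : InfinitePlace K => Sum.inr w ∉ S).image Sum.inr
  have hΩl : ∀ v : {v : HeightOneSpectrum (𝓞 K) // Sum.inl v ∉ S}, Sum.inl v.1 ∈ Ω ↔ v ∈ T := by
    intro v
    simp only [Ω, Finset.mem_union, Finset.mem_image, Sum.inl.injEq, reduceCtorEq, and_false,
      exists_false, or_false]
    constructor
    · rintro ⟨v', hv', h⟩
      rwa [← Subtype.ext h]
    · intro hv
      exact ⟨v, hv, rfl⟩
  have hΩr : ∀ w : InfinitePlace K, Sum.inr w ∉ S → Sum.inr w ∈ Ω := by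
    intro w hw
    exact Finset.mem_union_right _ (Finset.mem_image.2 ⟨w, by simp [hw], rfl⟩)
  have hΩS : ∀ p ∈ Ω, p ∉ S := by
    intro p hp
    rcases Finset.mem_union.1 hp with hp | hp
    · obtain ⟨v, -, rfl⟩ := Finset.mem_image.1 hp
      exact v.2
    · obtain ⟨w, hw, rfl⟩ := Finset.mem_image.1 hp
      exact (Finset.mem_filter.1 hw).2
  obtain ⟨x, hx, hx1, hx2⟩ := H x0 hx0I Ω hΩS
    (by
      intro v hv hvS
      refine (hΩl ⟨v, hvS⟩).2 (hT0 (Finset.mem_insert_of_mem ?_))
      exact Finset.mem_subtype.2 hv)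
    (by
      intro v hv hvS
      obtain ⟨h1, f, hf, hf1⟩ := hO2 ⟨v, hvS⟩ fun h => hv ((hΩl ⟨v, hvS⟩).2 h)
      refine ⟨fun i => ?_, f, hf, ?_⟩
      · have h2 := h1 i
        rw [cc_int, hz1', norm_fin] at h2
        exact h2
      · rw [cc_one, hz1', cc_aeval, norm_fin] at hf1
        exact hf1)
    (δ / 2) (half_pos hδ)
  -- the adelic point
  have hxint : ∀ v : {v : HeightOneSpectrum (𝓞 K) // Sum.inl v ∉ S}, v ∉ T →
      (⟨fun i => algebraMap K (v.1.adicCompletion K) (x i), cc_pts hx⟩ :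
        Pts P I (v.1.adicCompletion K)) ∈ IntPts P I v.1 := by
    intro v hv
    obtain ⟨h1, f, hf, hfx⟩ := hx2 v.1 (fun h => hv ((hΩl v).1 h)) v.2
    refine ⟨fun i => ?_, f, hf, ?_⟩
    · rw [cc_int, norm_fin]
      exact h1 i
    · rw [cc_one, cc_aeval, norm_fin]
      exact hfx
  let xt : Adelic P I S :=
    (⟨fun v => ⟨fun i => algebraMap K (v.1.adicCompletion K) (x i), cc_pts hx⟩,
      Filter.mem_of_superset T.finite_toSet.compl_mem_cofinite fun v hv => hxint v fun h =>
        hv (Finset.mem_coe.2 h)⟩,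
      fun w => ⟨fun i => algebraMap K w.1.Completion (x i), cc_pts hx⟩)
  refine ⟨xt, hbox xt (fun v hv => ?_) (fun v hv => hxint v hv) (fun w => ?_), x, hx,
    fun v i => rfl, fun w i => rfl⟩
  · have h1 := hO1 v hv
    rw [hz1'] at h1
    have h2 : dist (fun i => algebraMap K (v.1.adicCompletion K) (x i))
        (fun i => algebraMap K (v.1.adicCompletion K) (x0 i)) < δ / 2 := by
      rw [dist_pi_lt_iff (half_pos hδ)]
      intro i
      rw [dist_eq_norm, ← map_sub, norm_fin]
      exact hx1 _ ((hΩl v).2 hv) i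
    calc _ ≤ _ := dist_triangle _ _ _
      _ < δ / 2 + δ / 2 := add_lt_add h2 h1
      _ = δ := add_halves δ
  · have h1 := hO3 w
    rw [hz2'] at h1
    have h2 : dist (fun i => algebraMap K w.1.Completion (x i))
        (fun i => algebraMap K w.1.Completion (x0 i)) < δ / 2 := by
      rw [dist_pi_lt_iff (half_pos hδ)]
      intro i
      rw [dist_eq_norm, ← map_sub, norm_inf]
      exact hx1 _ (hΩr w.1 w.2) i
    calc _ ≤ _ := dist_triangle _ _ _
      _ < δ / 2 + δ / 2 := add_lt_add h2 h1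
      _ = δ := add_halves δ



theorem incl_continuous {N : ℕ} {P I0 I : Ideal (MvPolynomial (Fin N) K)} (hI : I ≤ I0)
    (S : Set (Place K)) : Continuous (Adelic.incl hI : Adelic P I S → Adelic P I0 S) := by
  have hinc : ∀ (L : Type) [NormedField L] [Algebra K L],
      Continuous (Pts.incl hI : Pts P I L → Pts P I0 L) := fun L _ _ =>
    continuous_subtype_val.subtype_mk _
  refine Continuous.prodMk ?_ ?_
  · have hm : ∀ᶠ v : {v : HeightOneSpectrum (𝓞 K) // Sum.inl v ∉ S} in Filter.cofinite,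
        Set.MapsTo (Pts.incl hI : Pts P I (v.1.adicCompletion K) →
          Pts P I0 (v.1.adicCompletion K)) (IntPts P I v.1) (IntPts P I0 v.1) :=
      Filter.Eventually.of_forall fun v x hx => IntPts.incl hI hx
    have h1 := RestrictedProduct.mapAlong_continuous
        (fun v : {v : HeightOneSpectrum (𝓞 K) // Sum.inl v ∉ S} =>
          Pts P I (v.1.adicCompletion K))
        (fun v : {v : HeightOneSpectrum (𝓞 K) // Sum.inl v ∉ S} =>
          Pts P I0 (v.1.adicCompletion K))
        (A₁ := fun v => IntPts P I v.1) (A₂ := fun v => IntPts P I0 v.1)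
        (𝓕₁ := Filter.cofinite) (𝓕₂ := Filter.cofinite) id Filter.tendsto_id
        (fun v => (Pts.incl hI : Pts P I (v.1.adicCompletion K) →
          Pts P I0 (v.1.adicCompletion K))) hm (fun v => hinc _)
    exact h1.comp continuous_fst
  · exact continuous_pi fun w => (hinc _).comp ((continuous_apply w).comp continuous_snd)

theorem incl_rat {N : ℕ} {P I0 I : Ideal (MvPolynomial (Fin N) K)} (hI : I ≤ I0)
    (S : Set (Place K)) (y : Adelic P I S) (hy : y ∈ Rat P I S) :
    Adelic.incl hI y ∈ Rat P I0 S := by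
  obtain ⟨x, ⟨hx1, g, hg, hg0⟩, h1, h2⟩ := hy
  exact ⟨x, ⟨hx1, g, hI hg, hg0⟩, h1, h2⟩

theorem closure_iff {N : ℕ} (P I0 I : Ideal (MvPolynomial (Fin N) K)) (hI : I ≤ I0)
    (S : Set (Place K)) (hS : S.Finite) (H : CoreStm2 P I0 I S) (y : Adelic P I S) :
    y ∈ closure (Rat P I S) ↔ Adelic.incl hI y ∈ closure (Rat P I0 S) := by
  refine ⟨fun hy => ?_, closure_of_core P I0 I hI S hS H y⟩
  have h1 := image_closure_subset_closure_image (incl_continuous (P := P) hI S)
    (Set.mem_image_of_mem _ hy)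
  refine closure_mono ?_ h1
  rintro _ ⟨z, hz, rfl⟩
  exact incl_rat hI S z hz

end SAF
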