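import Pool.Agent.Lib.MP_dd8365_nt.ActT
import Pool.Agent.Lib.MP_dd8365_nt.ClsT
import Pool.Agent.Lib.MP_dd8365_nt.Conc2

/-! MP_dd8365_nt (SAF), torus quotients: from the core statement to closures. -/

open IsDedekindDomain NumberField
open scoped RestrictedProduct

namespace SAF

variable {K : Type} [Field K] [NumberField K] {N r : ℕ} {W : Fin N → Fin r → ℤ}

/-- a `K`-point of `U` is integral at almost all places -/
theorem int_ae {P I0 : Ideal (MvPolynomial (Fin N) K)} {x : Fin N → K} (hx : x ∈ Pts P I0 K) :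
    {v : HeightOneSpectrum (𝓞 K) | ¬ ((∀ i, av (Sum.inl v) (x i) ≤ 1) ∧
      ∃ g : MvPolynomial (Fin N) (𝓞 K), MvPolynomial.map (algebraMap (𝓞 K) K) g ∈ I0 ∧
        av (Sum.inl v) (MvPolynomial.aeval x (MvPolynomial.map (algebraMap (𝓞 K) K) g)) =
          1)}.Finite := by
  classical
  obtain ⟨-, g, hg, hg0⟩ := hx
  obtain ⟨d, hd⟩ := IsLocalization.exist_integer_multiples_of_finset (nonZeroDivisors (𝓞 K))
      (g.support.image (fun n => g.coeff n) : Finset K)
  obtain ⟨g', hg'⟩ := exists_map_lift (d : 𝓞 K) g (fun n hn => hd _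
    (Finset.mem_image_of_mem _ hn))
  have hne : MvPolynomial.aeval x (MvPolynomial.map (algebraMap (𝓞 K) K) g') ≠ 0 := by
    rw [hg', map_mul, MvPolynomial.aeval_C]
    refine mul_ne_zero ?_ hg0
    have := nonZeroDivisors.coe_ne_zero d
    simpa using this
  refine ((Set.finite_iUnion fun i : Fin N => av_bad' (x i)).union (av_bad hne)).subset ?_
  intro v hv
  by_contra hcon
  apply hv
  rw [Set.mem_union, not_or] at hcon
  obtain ⟨h1, h2⟩ := hcon
  refine ⟨fun i => ?_, g', ?_, ?_⟩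
  · by_contra h
    exact h1 (Set.mem_iUnion.2 ⟨i, h⟩)
  · rw [hg']
    exact I0.mul_mem_left _ hg
  · by_contra h
    exact h2 h

omit [NumberField K] in
theorem act_base {L : Type} [Field L] [Algebra K L] (m : Fin r → Kˣ) (x : Fin N → K) :
    (fun i => algebraMap K L (act W m x i)) =
      act W (fun j => Units.map (algebraMap K L).toMonoidHom (m j))
        (fun i => algebraMap K L (x i)) := by
  funext i
  simp only [act, map_mul]
  congr 1
  simp only [Units.coe_prod, map_prod, Units.val_zpow_eq_zpow_val, map_zpow₀]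
  rfl

theorem qmap_continuous {P I : Ideal (MvPolynomial (Fin N) K)} (S : Set (Place K)) :
    Continuous (fun z : Adelic P I S => ((⟨fun v => Quotient.mk _ (z.1 v),
      z.1.2.mono fun v hv => ⟨_, hv, rfl⟩⟩, fun w => Quotient.mk _ (z.2 w)) :
        QAdelic W P I S)) := by
  refine Continuous.prodMk ?_ ?_
  · have hm : ∀ᶠ v : {v : HeightOneSpectrum (𝓞 K) // Sum.inl v ∉ S} in Filter.cofinite,
        Set.MapsTo (Quotient.mk (orb W P I (v.1.adicCompletion K))) (IntPts P I v.1)
          (QInt W P I v.1) :=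
      Filter.Eventually.of_forall fun v x hx => ⟨x, hx, rfl⟩
    have h1 := RestrictedProduct.mapAlong_continuous
        (fun v : {v : HeightOneSpectrum (𝓞 K) // Sum.inl v ∉ S} =>
          Pts P I (v.1.adicCompletion K))
        (fun v : {v : HeightOneSpectrum (𝓞 K) // Sum.inl v ∉ S} =>
          QPts W P I (v.1.adicCompletion K))
        (A₁ := fun v => IntPts P I v.1) (A₂ := fun v => QInt W P I v.1)
        (𝓕₁ := Filter.cofinite) (𝓕₂ := Filter.cofinite) id Filter.tendsto_id
        (fun v => Quotient.mk (orb W P I (v.1.adicCompletion K))) hm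
        (fun _ => continuous_quotient_mk')
    exact h1.comp continuous_fst
  · exact continuous_pi fun w => continuous_quotient_mk'.comp
      ((continuous_apply w).comp continuous_snd)

theorem qclosure_of_core (P I0 I : Ideal (MvPolynomial (Fin N) K)) (hP : Homog W P)
    (hI0 : Homog W I0) (hIh : Homog W I) (hI : I ≤ I0)
    (S : Set (Place K)) (hS : S.Finite) (H : CoreStm2 P I0 I S) (y : QAdelic W P I S)
    (hy : QAdelic.incl hI y ∈ closure (QRat W P I0 S)) : y ∈ closure (QRat W P I S) := by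
  classical
  rw [mem_closure_iff]
  intro O hO hyO
  obtain ⟨Ω0, H⟩ := H
  obtain ⟨Tcl, hTcl⟩ := exists_presc (K := K)
  -- a finite place outside `S`
  obtain ⟨v1, hv1⟩ : ∃ v : HeightOneSpectrum (𝓞 K), Sum.inl v ∉ S := by
    by_contra h
    push Not at h
    refine infinite_places (K := K) ((hS.preimage (f := Sum.inl) Sum.inl_injective.injOn).subset ?_)
    intro v _
    exact h v
  -- a lift of `y`
  have hlift : ∀ v : {v : HeightOneSpectrum (𝓞 K) // Sum.inl v ∉ S},
      ∃ u : Pts P I (v.1.adicCompletion K), Quotient.mk _ u = y.1 v ∧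
        (y.1 v ∈ QInt W P I v.1 → u ∈ IntPts P I v.1) := by
    intro v
    by_cases h : y.1 v ∈ QInt W P I v.1
    · obtain ⟨u, hu, hu'⟩ := h
      exact ⟨u, hu', fun _ => hu⟩
    · obtain ⟨u, hu⟩ := Quotient.exists_rep (y.1 v)
      exact ⟨u, hu, fun h' => absurd h' h⟩
  choose yf hyf hyfint using hlift
  have hlift2 : ∀ w : {w : InfinitePlace K // Sum.inr w ∉ S},
      ∃ u : Pts P I w.1.Completion, Quotient.mk _ u = y.2 w := fun w => Quotient.exists_rep (y.2 w)
  choose yi hyi using hlift2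
  let yh : Adelic P I S := (⟨yf, y.1.2.mono fun v hv => hyfint v hv⟩, yi)
  obtain ⟨qA, hqA⟩ : ∃ qA : Adelic P I S → QAdelic W P I S,
      qA = fun z : Adelic P I S => (⟨fun v => Quotient.mk _ (z.1 v),
      z.1.2.mono fun v hv => ⟨_, hv, rfl⟩⟩, fun w => Quotient.mk _ (z.2 w)) := ⟨_, rfl⟩
  have hqAc : Continuous qA := by
    rw [hqA]
    exact qmap_continuous S
  have hqy : qA yh = y := by
    rw [hqA]
    refine Prod.ext ?_ ?_
    · refine RestrictedProduct.ext _ _ fun v => ?_
      exact hyf v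
    · funext w
      exact hyi w
  obtain ⟨T, hT0, hyT, δ, hδ, hbox⟩ := cc_box (hO.preimage hqAc) (y := yh)
    (by rw [Set.mem_preimage, hqy]; exact hyO)
    (insert ⟨v1, hv1⟩ ((Ω0 ∪ Tcl).subtype fun v => Sum.inl v ∉ S))
  obtain ⟨g, hgI, hg⟩ := (yf ⟨v1, hv1⟩).2.2
  -- the open box in `X`
  let O' : Set (QAdelic W P I0 S) := {z |
    (∀ v ∈ T, z.1 v ∈ Quotient.mk (orb W P I0 (v.1.adicCompletion K)) ''
      {u : Pts P I0 (v.1.adicCompletion K) | dist u.1 (yf v).1 < δ / 2}) ∧
    (∀ v, v ∉ T → z.1 v ∈ QInt W P I0 v.1) ∧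
    (∀ w, z.2 w ∈ Quotient.mk (orb W P I0 w.1.Completion) ''
      {u : Pts P I0 w.1.Completion | dist u.1 (yi w).1 < δ / 2}) ∧
    z.1 ⟨v1, hv1⟩ ∈ Quotient.mk (orb W P I0 (v1.adicCompletion K)) ''
      {u : Pts P I0 (v1.adicCompletion K) | MvPolynomial.aeval u.1 g ≠ 0}}
  have hcont : ∀ v : {v : HeightOneSpectrum (𝓞 K) // Sum.inl v ∉ S},
      Continuous fun z : QAdelic W P I0 S => z.1 v := fun v =>
    (RestrictedProduct.continuous_eval v).comp continuous_fst
  have hcont2 : ∀ w : {w : InfinitePlace K // Sum.inr w ∉ S},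
      Continuous fun z : QAdelic W P I0 S => z.2 w := fun w =>
    (continuous_apply w).comp continuous_snd
  have hO' : IsOpen O' := by
    have hO1 : IsOpen {z : QAdelic W P I0 S | ∀ v ∈ T,
        z.1 v ∈ Quotient.mk (orb W P I0 (v.1.adicCompletion K)) ''
          {u : Pts P I0 (v.1.adicCompletion K) | dist u.1 (yf v).1 < δ / 2}} := by
      have : {z : QAdelic W P I0 S | ∀ v ∈ T,
        z.1 v ∈ Quotient.mk (orb W P I0 (v.1.adicCompletion K)) ''
          {u : Pts P I0 (v.1.adicCompletion K) | dist u.1 (yf v).1 < δ / 2}} =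
          ⋂ v ∈ T, {z : QAdelic W P I0 S |
        z.1 v ∈ Quotient.mk (orb W P I0 (v.1.adicCompletion K)) ''
          {u : Pts P I0 (v.1.adicCompletion K) | dist u.1 (yf v).1 < δ / 2}} := by
        ext z; simp only [Set.mem_ofPred_eq, Set.mem_iInter]
      rw [this]
      refine isOpen_biInter_finset fun v _ => IsOpen.preimage (hcont v) (isOpenMap_mk hP hI0 _ ?_)
      exact isOpen_lt (continuous_subtype_val.dist continuous_const) continuous_const
    have hO2 : IsOpen {z : QAdelic W P I0 S | ∀ v, v ∉ T → z.1 v ∈ QInt W P I0 v.1} :=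
      (RestrictedProduct.isOpen_forall_imp_mem
        (A := fun v : {v : HeightOneSpectrum (𝓞 K) // Sum.inl v ∉ S} => QInt W P I0 v.1)
        (fun v => isOpen_QInt hP hI0 v.1) (p := fun v => v ∉ T)).preimage continuous_fst
    have hO3 : IsOpen {z : QAdelic W P I0 S | ∀ w,
        z.2 w ∈ Quotient.mk (orb W P I0 w.1.Completion) ''
          {u : Pts P I0 w.1.Completion | dist u.1 (yi w).1 < δ / 2}} := by
      have : {z : QAdelic W P I0 S | ∀ w,
        z.2 w ∈ Quotient.mk (orb W P I0 w.1.Completion) ''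
          {u : Pts P I0 w.1.Completion | dist u.1 (yi w).1 < δ / 2}} =
          ⋂ w, {z : QAdelic W P I0 S |
        z.2 w ∈ Quotient.mk (orb W P I0 w.1.Completion) ''
          {u : Pts P I0 w.1.Completion | dist u.1 (yi w).1 < δ / 2}} := by
        ext z; simp only [Set.mem_ofPred_eq, Set.mem_iInter]
      rw [this]
      refine isOpen_iInter_of_finite fun w =>
        IsOpen.preimage (hcont2 w) (isOpenMap_mk hP hI0 _ ?_)
      exact isOpen_lt (continuous_subtype_val.dist continuous_const) continuous_const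
    have hO4 : IsOpen {z : QAdelic W P I0 S | z.1 ⟨v1, hv1⟩ ∈
        Quotient.mk (orb W P I0 (v1.adicCompletion K)) ''
        {u : Pts P I0 (v1.adicCompletion K) | MvPolynomial.aeval u.1 g ≠ 0}} := by
      refine IsOpen.preimage (hcont ⟨v1, hv1⟩) (isOpenMap_mk hP hI0 _ ?_)
      exact isOpen_ne_fun ((cc_cont g).comp continuous_subtype_val) continuous_const
    exact hO1.inter (hO2.inter (hO3.inter hO4))
  have hyO' : QAdelic.incl hI y ∈ O' := by
    refine ⟨fun v _ => ⟨Pts.incl hI (yf v), ?_, ?_⟩, fun v hv => ?_,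
      fun w => ⟨Pts.incl hI (yi w), ?_, ?_⟩, ⟨Pts.incl hI (yf ⟨v1, hv1⟩), hg, ?_⟩⟩
    · show dist (yf v).1 (yf v).1 < δ / 2
      rw [dist_self]; exact half_pos hδ
    · show _ = QPts.incl hI (y.1 v)
      rw [← hyf v]; rfl
    · show QPts.incl hI (y.1 v) ∈ QInt W P I0 v.1
      rw [← hyf v]
      exact ⟨Pts.incl hI (yf v), IntPts.incl hI (hyT v hv), rfl⟩
    · show dist (yi w).1 (yi w).1 < δ / 2
      rw [dist_self]; exact half_pos hδ
    · show _ = QPts.incl hI (y.2 w)
      rw [← hyi w]; rfl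
    · show _ = QPts.incl hI (y.1 ⟨v1, hv1⟩)
      rw [← hyf ⟨v1, hv1⟩]; rfl
  obtain ⟨z, ⟨hO1, hO2, hO3, hO4⟩, x0, hx0, hz1, hz2⟩ := mem_closure_iff.1 hy O' hO' hyO'
  -- base change of `x0`
  obtain ⟨xb, hxb⟩ : ∃ xb : (v : {v : HeightOneSpectrum (𝓞 K) // Sum.inl v ∉ S}) →
      Fin N → v.1.adicCompletion K, xb = fun v i => algebraMap K _ (x0 i) := ⟨_, rfl⟩
  have hxb0 : ∀ v, xb v ∈ Pts P I0 (v.1.adicCompletion K) := by
    intro v
    rw [hxb]
    exact cc_pts hx0
  have intx : ∀ v, xb v = (fun i => algebraMap K _ (x0 i)) := fun v => by rw [hxb]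
  -- the torus elements at the finite places
  have hl : ∀ v : {v : HeightOneSpectrum (𝓞 K) // Sum.inl v ∉ S},
      ∃ l : Fin r → (v.1.adicCompletion K)ˣ,
        (v ∈ T → dist (act W l (xb v)) (yf v).1 < δ / 2) ∧
        (v ∉ T → ∃ u : Pts P I0 (v.1.adicCompletion K), u.1 = act W l (xb v) ∧
          u ∈ IntPts P I0 v.1) ∧
        ((∀ i, av (Sum.inl v.1) (x0 i) ≤ 1) → (∃ g : MvPolynomial (Fin N) (𝓞 K),
          MvPolynomial.map (algebraMap (𝓞 K) K) g ∈ I0 ∧
          av (Sum.inl v.1) (MvPolynomial.aeval x0 (MvPolynomial.map (algebraMap (𝓞 K) K) g)) =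
          1) → v ∉ T → l = fun _ => 1) := by
    intro v
    obtain ⟨u, hu1, hu2⟩ := hz1 v
    have hux : u.1 = xb v := by
      rw [intx]
      exact funext hu1
    by_cases hvT : v ∈ T
    · obtain ⟨u', hu'1, hu'2⟩ := hO1 v hvT
      rw [hu2] at hu'2
      obtain ⟨l, hl⟩ := Quotient.exact hu'2.symm
      refine ⟨l, fun _ => ?_, fun h => absurd hvT h, fun _ _ h => absurd hvT h⟩
      rw [← hux, ← hl]
      exact hu'1
    · by_cases hint : (∀ i, av (Sum.inl v.1) (x0 i) ≤ 1) ∧ (∃ g : MvPolynomial (Fin N) (𝓞 K),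
          MvPolynomial.map (algebraMap (𝓞 K) K) g ∈ I0 ∧
          av (Sum.inl v.1) (MvPolynomial.aeval x0 (MvPolynomial.map (algebraMap (𝓞 K) K) g)) =
          1)
      · refine ⟨fun _ => 1, fun h => absurd h hvT, fun _ => ⟨u, ?_, ?_⟩, fun _ _ _ => rfl⟩
        · rw [act_one, hux]
        · obtain ⟨h1, f, hf, hf1⟩ := hint
          refine ⟨fun i => ?_, f, hf, ?_⟩
          · rw [cc_int, hux, intx, norm_fin]
            exact h1 i
          · rw [cc_one, hux, intx, cc_aeval, norm_fin]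
            exact hf1
      · obtain ⟨u', hu'1, hu'2⟩ := hO2 v hvT
        rw [hu2] at hu'2
        obtain ⟨l, hl⟩ := Quotient.exact hu'2.symm
        refine ⟨l, fun h => absurd h hvT, fun _ => ⟨u', ?_, hu'1⟩, fun h1 h2 => absurd ⟨h1, h2⟩ hint⟩
        rw [← hux, ← hl]
  choose lf hlf1 hlf2 hlf3 using hl
  -- the infinite places
  obtain ⟨xi, hxi⟩ : ∃ xi : (w : {w : InfinitePlace K // Sum.inr w ∉ S}) →
      Fin N → w.1.Completion, xi = fun w i => algebraMap K _ (x0 i) := ⟨_, rfl⟩
  have intxi : ∀ w, xi w = (fun i => algebraMap K _ (x0 i)) := fun w => by rw [hxi]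
  have hl' : ∀ w : {w : InfinitePlace K // Sum.inr w ∉ S}, ∃ l : Fin r → (w.1.Completion)ˣ,
      dist (act W l (xi w)) (yi w).1 < δ / 2 := by
    intro w
    obtain ⟨u, hu1, hu2⟩ := hz2 w
    have hux : u.1 = xi w := by
      rw [intxi]
      exact funext hu1
    obtain ⟨u', hu'1, hu'2⟩ := hO3 w
    rw [hu2] at hu'2
    obtain ⟨l, hl⟩ := Quotient.exact hu'2.symm
    refine ⟨l, ?_⟩
    rw [← hux, ← hl]
    exact hu'1
  choose li hli using hl'
  -- `x0` is not on `Z`
  have hx0I : x0 ∈ Pts P I K := by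
    obtain ⟨u', hu'1, hu'2⟩ := hO4
    obtain ⟨u, hu1, hu2⟩ := hz1 ⟨v1, hv1⟩
    rw [hu2] at hu'2
    obtain ⟨l, hl⟩ := Quotient.exact hu'2
    have h1 : u'.1 ∈ Pts P I (v1.adicCompletion K) := ⟨u'.2.1, g, hgI, hu'1⟩
    have h2 : u.1 ∈ Pts P I (v1.adicCompletion K) := by
      rw [hl]
      exact act_mem hP hIh l h1
    obtain ⟨-, f, hf, hf0⟩ := h2
    refine ⟨hx0.1, f, hf, fun h0 => hf0 ?_⟩
    rw [funext hu1, cc_aeval, h0, map_zero]
  -- the correction by an element of `K`
  have hm : ∀ j : Fin r, ∃ m : Kˣ, ∀ v : {v : HeightOneSpectrum (𝓞 K) // Sum.inl v ∉ S},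
      v ∉ T → av (Sum.inl v.1) (m : K) = ‖(lf v j : v.1.adicCompletion K)‖ := by
    intro j
    obtain ⟨m, hm⟩ := hTcl (fun v => if h : Sum.inl v ∉ S then
      (if (⟨v, h⟩ : {v : HeightOneSpectrum (𝓞 K) // Sum.inl v ∉ S}) ∈ T then 1 else lf ⟨v, h⟩ j)
      else 1) (by
        refine (int_ae hx0).subset (fun v hv => ?_)
        intro hcon
        apply hv
        by_cases h : Sum.inl v ∉ S
        · simp only [h, not_false_eq_true, dif_pos]
          by_cases hT : (⟨v, h⟩ : {v : HeightOneSpectrum (𝓞 K) // Sum.inl v ∉ S}) ∈ T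
          · simp [hT]
          · rw [if_neg hT, hlf3 ⟨v, h⟩ hcon.1 hcon.2 hT]
            simp
        · simp only [h, dif_neg, not_false_eq_true]
          simp)
    refine ⟨m, fun v hvT => ?_⟩
    have hvcl : v.1 ∉ Tcl := by
      intro h
      apply hvT
      apply hT0
      refine Finset.mem_insert_of_mem ?_
      rw [Finset.mem_subtype]
      exact Finset.mem_union_right _ h
    have h1 := hm v.1 hvcl
    rw [dif_pos v.2, if_neg hvT] at h1
    exact h1
  choose m hm using hm
  obtain ⟨x1, hx1⟩ : ∃ x1 : Fin N → K, x1 = act W m x0 := ⟨_, rfl⟩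
  have hx1I : x1 ∈ Pts P I K := by
    rw [hx1]
    exact act_mem hP hIh m hx0I
  -- base change of `x1`
  have hx1b : ∀ v : {v : HeightOneSpectrum (𝓞 K) // Sum.inl v ∉ S},
      (fun i => algebraMap K (v.1.adicCompletion K) (x1 i)) =
        act W (fun j => Units.map (algebraMap K (v.1.adicCompletion K)).toMonoidHom (m j))
          (xb v) := by
    intro v
    rw [hx1, act_base, intx]
  have hx1i : ∀ w : {w : InfinitePlace K // Sum.inr w ∉ S},
      (fun i => algebraMap K w.1.Completion (x1 i)) =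
        act W (fun j => Units.map (algebraMap K w.1.Completion).toMonoidHom (m j))
          (xi w) := by
    intro w
    rw [hx1, act_base, intxi]
  -- the quotients
  obtain ⟨kf, hkf⟩ : ∃ kf : (v : {v : HeightOneSpectrum (𝓞 K) // Sum.inl v ∉ S}) →
      Fin r → (v.1.adicCompletion K)ˣ, kf = fun v j => lf v j *
        (Units.map (algebraMap K (v.1.adicCompletion K)).toMonoidHom (m j))⁻¹ := ⟨_, rfl⟩
  obtain ⟨ki, hki⟩ : ∃ ki : (w : {w : InfinitePlace K // Sum.inr w ∉ S}) →
      Fin r → (w.1.Completion)ˣ, ki = fun w j => li w j *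
        (Units.map (algebraMap K w.1.Completion).toMonoidHom (m j))⁻¹ := ⟨_, rfl⟩
  have hkf1 : ∀ v, act W (kf v) (fun i => algebraMap K (v.1.adicCompletion K) (x1 i)) =
      act W (lf v) (xb v) := by
    intro v
    rw [hx1b, act_act, hkf]
    simp only [inv_mul_cancel_right]
  have hki1 : ∀ w, act W (ki w) (fun i => algebraMap K w.1.Completion (x1 i)) =
      act W (li w) (xi w) := by
    intro w
    rw [hx1i, act_act, hki]
    simp only [inv_mul_cancel_right]
  -- integrality of `x1`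
  have hx1int : ∀ v : {v : HeightOneSpectrum (𝓞 K) // Sum.inl v ∉ S}, v ∉ T →
      (∀ i, av (Sum.inl v.1) (x1 i) ≤ 1) ∧ ∃ g : MvPolynomial (Fin N) (𝓞 K),
        MvPolynomial.map (algebraMap (𝓞 K) K) g ∈ I0 ∧
        av (Sum.inl v.1) (MvPolynomial.aeval x1 (MvPolynomial.map (algebraMap (𝓞 K) K) g)) =
          1 := by
    intro v hvT
    obtain ⟨u, hu1, hu2⟩ := hlf2 v hvT
    have hx1p : (fun i => algebraMap K (v.1.adicCompletion K) (x1 i)) ∈
        Pts P I0 (v.1.adicCompletion K) := by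
      rw [hx1b]
      exact act_mem hP hI0 _ (hxb0 v)
    have h1 : (⟨_, hx1p⟩ : Pts P I0 (v.1.adicCompletion K)) ∈ IntPts P I0 v.1 := by
      refine int_act v.1 hI0 (fun j => (kf v j)⁻¹) (fun j => ?_) u ⟨_, hx1p⟩ ?_ hu2
      · have h2 := hm j v hvT
        have h3 : ‖(lf v j : v.1.adicCompletion K)‖ ≠ 0 := norm_ne_zero_iff.2 (lf v j).ne_zero
        rw [hkf]
        simp only [mul_inv_rev, inv_inv, Units.val_mul, Units.val_inv_eq_inv_val, norm_mul,
          norm_inv]
        have h4 : ‖((Units.map (algebraMap K (v.1.adicCompletion K)).toMonoidHom (m j) :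
            (v.1.adicCompletion K)ˣ) : v.1.adicCompletion K)‖ = av (Sum.inl v.1) (m j : K) :=
          norm_fin v.1 _
        rw [h4, h2]
        exact mul_inv_cancel₀ h3
      · show (fun i => algebraMap K (v.1.adicCompletion K) (x1 i)) = _
        rw [hu1, ← hkf1, act_act]
        simp only [inv_mul_cancel]
        exact (act_one W _).symm
    obtain ⟨h2, f, hf, hf1⟩ := h1
    refine ⟨fun i => ?_, f, hf, ?_⟩
    · have h3 := h2 i
      rw [cc_int, norm_fin] at h3
      exact h3
    · rw [cc_one, cc_aeval, norm_fin] at hf1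
      exact hf1
  -- the finite set of places
  set Ω : Finset (Place K) := T.image (fun v => Sum.inl v.1) ∪
    (Finset.univ.filter fun w : InfinitePlace K => Sum.inr w ∉ S).image Sum.inr
  have hΩl : ∀ v : {v : HeightOneSpectrum (𝓞 K) // Sum.inl v ∉ S}, Sum.inl v.1 ∈ Ω ↔ v ∈ T := by
    intro v
    simp only [Ω, Finset.mem_union, Finset.mem_image, Sum.inl.injEq, reduceCtorEq, and_false,
      exists_false, or_false]
    constructor
    · rintro ⟨v', hv', h⟩
      rwa [← Subtype.ext h]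
    · intro hv
      exact ⟨v, hv, rfl⟩
  have hΩr : ∀ w : InfinitePlace K, Sum.inr w ∉ S → Sum.inr w ∈ Ω := by
    intro w hw
    exact Finset.mem_union_right _ (Finset.mem_image.2 ⟨w, by simp [hw], rfl⟩)
  have hΩS : ∀ p ∈ Ω, p ∉ S := by
    intro p hp
    rcases Finset.mem_union.1 hp with hp | hp
    · obtain ⟨v, -, rfl⟩ := Finset.mem_image.1 hp
      exact v.2
    · obtain ⟨w, hw, rfl⟩ := Finset.mem_image.1 hp
      exact (Finset.mem_filter.1 hw).2
  -- the radius
  have he1 : ∀ v : {v : HeightOneSpectrum (𝓞 K) // Sum.inl v ∉ S}, ∃ ε > 0,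
      ∀ y' : Fin N → v.1.adicCompletion K,
        (∀ i, ‖y' i - algebraMap K (v.1.adicCompletion K) (x1 i)‖ < ε) →
        dist (act W (kf v) y') (act W (lf v) (xb v)) < δ / 2 := by
    intro v
    obtain ⟨ε, h1, h2⟩ := act_close (W := W) (kf v)
      (fun i => algebraMap K (v.1.adicCompletion K) (x1 i)) (half_pos hδ)
    refine ⟨ε, h1, fun y' hy' => ?_⟩
    rw [← hkf1]
    exact h2 y' hy'
  have he2 : ∀ w : {w : InfinitePlace K // Sum.inr w ∉ S}, ∃ ε > 0,
      ∀ y' : Fin N → w.1.Completion,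
        (∀ i, ‖y' i - algebraMap K w.1.Completion (x1 i)‖ < ε) →
        dist (act W (ki w) y') (act W (li w) (xi w)) < δ / 2 := by
    intro w
    obtain ⟨ε, h1, h2⟩ := act_close (W := W) (ki w)
      (fun i => algebraMap K w.1.Completion (x1 i)) (half_pos hδ)
    refine ⟨ε, h1, fun y' hy' => ?_⟩
    rw [← hki1]
    exact h2 y' hy'
  choose ef hef1 hef2 using he1
  choose ei hei1 hei2 using he2
  obtain ⟨ε1, hε1, hε1'⟩ := cc_min T ef hef1
  obtain ⟨ε2, hε2, hε2'⟩ := cc_min Finset.univ ei hei1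
  obtain ⟨x, hx, hxn, hxint⟩ := H x1 hx1I Ω hΩS
    (by
      intro v hv hvS
      refine (hΩl ⟨v, hvS⟩).2 (hT0 (Finset.mem_insert_of_mem ?_))
      exact Finset.mem_subtype.2 (Finset.mem_union_left _ hv))
    (by
      intro v hv hvS
      exact hx1int ⟨v, hvS⟩ fun h => hv ((hΩl ⟨v, hvS⟩).2 h))
    (min ε1 ε2) (lt_min hε1 hε2)
  -- the adelic point
  obtain ⟨k', hk'⟩ : ∃ k' : (v : {v : HeightOneSpectrum (𝓞 K) // Sum.inl v ∉ S}) →
      Fin r → (v.1.adicCompletion K)ˣ, k' = fun v => if v ∈ T then kf v else fun _ => 1 :=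
    ⟨_, rfl⟩
  have hxtint : ∀ v : {v : HeightOneSpectrum (𝓞 K) // Sum.inl v ∉ S}, v ∉ T →
      (⟨act W (k' v) (fun i => algebraMap K (v.1.adicCompletion K) (x i)),
        act_mem hP hIh _ (cc_pts hx)⟩ : Pts P I (v.1.adicCompletion K)) ∈ IntPts P I v.1 := by
    intro v hv
    obtain ⟨h1, f, hf, hfx⟩ := hxint v.1 (fun h => hv ((hΩl v).1 h)) v.2
    have h2 : act W (k' v) (fun i => algebraMap K (v.1.adicCompletion K) (x i)) =
        (fun i => algebraMap K (v.1.adicCompletion K) (x i)) := by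
      rw [hk']
      simp only [hv, if_false]
      exact act_one W _
    refine ⟨fun i => ?_, f, hf, ?_⟩
    · show act W (k' v) (fun i => algebraMap K (v.1.adicCompletion K) (x i)) i ∈ _
      rw [cc_int, h2, norm_fin]
      exact h1 i
    · show Valued.v (MvPolynomial.aeval (act W (k' v)
        (fun i => algebraMap K (v.1.adicCompletion K) (x i))) _) = 1
      rw [cc_one, h2, cc_aeval, norm_fin]
      exact hfx
  let xt : Adelic P I S :=
    (⟨fun v => ⟨act W (k' v) (fun i => algebraMap K (v.1.adicCompletion K) (x i)),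
        act_mem hP hIh _ (cc_pts hx)⟩,
      Filter.mem_of_superset T.finite_toSet.compl_mem_cofinite fun v hv => hxtint v fun h =>
        hv (Finset.mem_coe.2 h)⟩,
      fun w => ⟨act W (ki w) (fun i => algebraMap K w.1.Completion (x i)),
        act_mem hP hIh _ (cc_pts hx)⟩)
  have hxtO : xt ∈ qA ⁻¹' O := by
    refine hbox xt (fun v hv => ?_) (fun v hv => hxtint v hv) (fun w => ?_)
    · show dist (act W (k' v) (fun i => algebraMap K (v.1.adicCompletion K) (x i))) (yf v).1 < δ
      have h1 := hlf1 v hv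
      have h2 : dist (act W (k' v) (fun i => algebraMap K (v.1.adicCompletion K) (x i)))
          (act W (lf v) (xb v)) < δ / 2 := by
        rw [hk']
        simp only [hv, if_true]
        refine hef2 v _ (fun i => ?_)
        rw [← map_sub, norm_fin]
        exact (hxn _ ((hΩl v).2 hv) i).trans_le ((min_le_left _ _).trans (hε1' v hv))
      calc _ ≤ _ := dist_triangle _ _ _
        _ < δ / 2 + δ / 2 := add_lt_add h2 h1
        _ = δ := add_halves δ
    · show dist (act W (ki w) (fun i => algebraMap K w.1.Completion (x i))) (yi w).1 < δ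
      have h1 := hli w
      have h2 : dist (act W (ki w) (fun i => algebraMap K w.1.Completion (x i)))
          (act W (li w) (xi w)) < δ / 2 := by
        refine hei2 w _ (fun i => ?_)
        rw [← map_sub, norm_inf]
        exact (hxn _ (hΩr w.1 w.2) i).trans_le
          ((min_le_right _ _).trans (hε2' w (Finset.mem_univ _)))
      calc _ ≤ _ := dist_triangle _ _ _
        _ < δ / 2 + δ / 2 := add_lt_add h2 h1
        _ = δ := add_halves δ
  refine ⟨qA xt, hxtO, x, hx, fun v => ⟨⟨_, cc_pts hx⟩, fun i => rfl, ?_⟩,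
    fun w => ⟨⟨_, cc_pts hx⟩, fun i => rfl, ?_⟩⟩
  · rw [hqA]
    exact (Quotient.sound (s := orb W P I (v.1.adicCompletion K)) ⟨k' v, rfl⟩).symm
  · rw [hqA]
    exact (Quotient.sound (s := orb W P I w.1.Completion) ⟨ki w, rfl⟩).symm

theorem qincl_continuous {P I0 I : Ideal (MvPolynomial (Fin N) K)} (hI : I ≤ I0)
    (S : Set (Place K)) : Continuous (QAdelic.incl hI : QAdelic W P I S → QAdelic W P I0 S) := by
  have hinc : ∀ (L : Type) [NormedField L] [Algebra K L],
      Continuous (Pts.incl hI : Pts P I L → Pts P I0 L) := fun L _ _ =>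
    continuous_subtype_val.subtype_mk _
  have hincq : ∀ (L : Type) [NormedField L] [Algebra K L],
      Continuous (QPts.incl hI : QPts W P I L → QPts W P I0 L) := fun L _ _ =>
    (hinc L).quotient_map' _
  refine Continuous.prodMk ?_ ?_
  · have hm : ∀ᶠ v : {v : HeightOneSpectrum (𝓞 K) // Sum.inl v ∉ S} in Filter.cofinite,
        Set.MapsTo (QPts.incl hI : QPts W P I (v.1.adicCompletion K) →
          QPts W P I0 (v.1.adicCompletion K)) (QInt W P I v.1) (QInt W P I0 v.1) :=
      Filter.Eventually.of_forall fun v x hx => QInt.incl hI hx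
    have h1 := RestrictedProduct.mapAlong_continuous
        (fun v : {v : HeightOneSpectrum (𝓞 K) // Sum.inl v ∉ S} =>
          QPts W P I (v.1.adicCompletion K))
        (fun v : {v : HeightOneSpectrum (𝓞 K) // Sum.inl v ∉ S} =>
          QPts W P I0 (v.1.adicCompletion K))
        (A₁ := fun v => QInt W P I v.1) (A₂ := fun v => QInt W P I0 v.1)
        (𝓕₁ := Filter.cofinite) (𝓕₂ := Filter.cofinite) id Filter.tendsto_id
        (fun v => (QPts.incl hI : QPts W P I (v.1.adicCompletion K) →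
          QPts W P I0 (v.1.adicCompletion K))) hm (fun v => hincq _)
    exact h1.comp continuous_fst
  · exact continuous_pi fun w => (hincq _).comp ((continuous_apply w).comp continuous_snd)

theorem qincl_rat {P I0 I : Ideal (MvPolynomial (Fin N) K)} (hI : I ≤ I0)
    (S : Set (Place K)) (y : QAdelic W P I S) (hy : y ∈ QRat W P I S) :
    QAdelic.incl hI y ∈ QRat W P I0 S := by
  obtain ⟨x, ⟨hx1, g, hg, hg0⟩, h1, h2⟩ := hy
  refine ⟨x, ⟨hx1, g, hI hg, hg0⟩, fun v => ?_, fun w => ?_⟩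
  · obtain ⟨u, hu, hu'⟩ := h1 v
    refine ⟨Pts.incl hI u, hu, ?_⟩
    show QPts.incl hI (y.1 v) = _
    rw [hu']; rfl
  · obtain ⟨u, hu, hu'⟩ := h2 w
    refine ⟨Pts.incl hI u, hu, ?_⟩
    show QPts.incl hI (y.2 w) = _
    rw [hu']; rfl

theorem qclosure_iff (P I0 I : Ideal (MvPolynomial (Fin N) K)) (hP : Homog W P)
    (hI0 : Homog W I0) (hIh : Homog W I) (hI : I ≤ I0)
    (S : Set (Place K)) (hS : S.Finite) (H : CoreStm2 P I0 I S) (y : QAdelic W P I S) :
    y ∈ closure (QRat W P I S) ↔ QAdelic.incl hI y ∈ closure (QRat W P I0 S) := by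
  refine ⟨fun hy => ?_, qclosure_of_core P I0 I hP hI0 hIh hI S hS H y⟩
  have h1 := image_closure_subset_closure_image (qincl_continuous (W := W) (P := P) hI S)
    (Set.mem_image_of_mem _ hy)
  refine closure_mono ?_ h1
  rintro _ ⟨z, hz, rfl⟩
  exact qincl_rat hI S z hz

end SAF
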