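import Pool.Agent.Lib.MP_dd8365_nt.St
import Pool.Agent.Lib.MP_dd8365_nt.ConcT

/-! MP_dd8365_nt (SAF): the closure theorem for the definitions of `St.lean`. -/

open IsDedekindDomain NumberField
open scoped RestrictedProduct

namespace SAFS

/-- boxes in restricted products -/
theorem rp_box {ι : Type} {R : ι → Type} [∀ i, TopologicalSpace (R i)] {A : (i : ι) → Set (R i)}
    (hA : ∀ i, IsOpen (A i)) {O : Set (Πʳ i, [R i, A i])} (hO : IsOpen O)
    {y : Πʳ i, [R i, A i]} (hy : y ∈ O) (T0 : Finset ι) :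
    ∃ T : Finset ι, T0 ⊆ T ∧ (∀ i ∉ T, y i ∈ A i) ∧ ∃ B : (i : ι) → Set (R i),
      (∀ i, IsOpen (B i)) ∧ (∀ i, y i ∈ B i) ∧ ∀ z : Πʳ i, [R i, A i],
        (∀ i ∈ T, z i ∈ B i) → (∀ i ∉ T, z i ∈ A i) → z ∈ O := by
  classical
  have hu1 : O ∈ nhds y := hO.mem_nhds hy
  set S' : Set ι := {i | y i ∈ A i}
  have hS' : Filter.cofinite ≤ Filter.principal S' := Filter.le_principal_iff.2 y.2
  obtain ⟨y', hy'⟩ := RestrictedProduct.exists_inclusion_eq_of_eventually R A hS' (x := y)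
    (fun i hi => hi)
  rw [← hy', RestrictedProduct.nhds_eq_map_inclusion hA hS', Filter.mem_map,
    RestrictedProduct.isEmbedding_coe_of_principal.nhds_eq_comap, Filter.mem_comap] at hu1
  obtain ⟨t, ht, htsub⟩ := hu1
  rw [nhds_pi, Filter.mem_pi] at ht
  obtain ⟨I1, hI1, t1, ht1, hsub1⟩ := ht
  have hyy : ∀ i, y' i = y i := fun i => by rw [← hy']; rfl
  have hfin : S'ᶜ.Finite := y.2
  have hB : ∀ i, ∃ B : Set (R i), IsOpen B ∧ y i ∈ B ∧ ∀ z ∈ B, z ∈ t1 i ∧
      (y i ∈ A i → z ∈ A i) := by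
    intro i
    have h1 := ht1 i
    rw [hyy i] at h1
    obtain ⟨B1, hB1, hB1o, hB1y⟩ := mem_nhds_iff.1 h1
    by_cases h : y i ∈ A i
    · exact ⟨B1 ∩ A i, hB1o.inter (hA i), ⟨hB1y, h⟩, fun z hz => ⟨hB1 hz.1, fun _ => hz.2⟩⟩
    · exact ⟨B1, hB1o, hB1y, fun z hz => ⟨hB1 hz, fun h' => absurd h' h⟩⟩
  choose B hBo hBy hB using hB
  refine ⟨hfin.toFinset ∪ hI1.toFinset ∪ T0, Finset.subset_union_right, fun i hi => ?_, B, hBo,
    hBy, fun z hz1 hz2 => ?_⟩
  · by_contra h
    exact hi (Finset.mem_union_left _ (Finset.mem_union_left _ (hfin.mem_toFinset.2 h)))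
  · have hzS : ∀ i ∈ S', z i ∈ A i := by
      intro i hi
      by_cases hiT : i ∈ hfin.toFinset ∪ hI1.toFinset ∪ T0
      · exact (hB i _ (hz1 i hiT)).2 hi
      · exact hz2 i hiT
    obtain ⟨z', hz'⟩ := RestrictedProduct.exists_inclusion_eq_of_eventually R A hS' (x := z) hzS
    have hzz : ∀ i, z' i = z i := fun i => by rw [← hz']; rfl
    rw [← hz']
    refine htsub (hsub1 fun i hi => ?_)
    have hiT : i ∈ hfin.toFinset ∪ hI1.toFinset ∪ T0 :=
      Finset.mem_union_left _ (Finset.mem_union_right _ (hI1.mem_toFinset.2 hi))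
    have := (hB i _ (hz1 i hiT)).1
    rw [← hzz i] at this
    exact this

variable {K : Type} [Field K] [NumberField K]

theorem norm_loc (p : Place K) (x : K) : ‖algebraMap K (Loc K p) x‖ = SAF.av p x := by
  rcases p with v | w
  · exact SAF.norm_fin v x
  · exact SAF.norm_inf w x

variable {N r : ℕ} {W : Fin N → Fin r → ℤ} {P I : Ideal (MvPolynomial (Fin N) K)}

theorem int_iff (v : HeightOneSpectrum (𝓞 K)) (x : Pts P I (Loc K (Sum.inl v))) :
    x ∈ IntPts P I (Sum.inl v : Place K) ↔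
      (show SAF.Pts P I (v.adicCompletion K) from x) ∈ SAF.IntPts P I v := by
  constructor
  · intro h
    obtain ⟨h1, g, hg, hg1⟩ := h v rfl
    exact ⟨fun i => (SAF.cc_int v _).2 (h1 i), g, hg, (SAF.cc_one v _).2 hg1⟩
  · rintro ⟨h1, g, hg, hg1⟩ v' hv'
    exact ⟨fun i => (SAF.cc_int v _).1 (h1 i), g, hg, (SAF.cc_one v _).1 hg1⟩

theorem int_inf (w : InfinitePlace K) (x : Pts P I (Loc K (Sum.inr w))) :
    x ∈ IntPts P I (Sum.inr w : Place K) := by
  intro v hv
  cases hv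

theorem int_open (p : Place K) : IsOpen (IntPts P I p) := by
  rcases p with v | w
  · have h1 : IntPts P I (Sum.inl v : Place K) = (show Set (Pts P I (Loc K (Sum.inl v))) from
        SAF.IntPts P I v) := by
      ext x
      exact int_iff v x
    rw [h1]
    exact SAF.cc_isOpen P I v
  · have h1 : IntPts P I (Sum.inr w : Place K) = Set.univ := by
      ext x
      simp only [Set.mem_univ, iff_true]
      exact int_inf w x
    rw [h1]
    exact isOpen_univ

theorem act_mem {L : Type} [Field L] [Algebra K L] (hP : Homog W P) (hI : Homog W I)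
    (l : Fin r → Lˣ) {x : Fin N → L} (hx : x ∈ Pts P I L) : act W l x ∈ Pts P I L :=
  SAF.act_mem hP hI l hx

theorem mk_open {L : Type} [NormedField L] [Algebra K L] (hP : Homog W P) (hI : Homog W I) :
    IsOpenMap (QPts.mk W : Pts P I L → QPts W P I L) :=
  SAF.isOpenMap_mk hP hI

theorem mk_cont {L : Type} [NormedField L] [Algebra K L] :
    Continuous (QPts.mk W : Pts P I L → QPts W P I L) :=
  continuous_quotient_mk'

theorem mk_surj {L : Type} [Field L] [Algebra K L] (q : QPts W P I L) :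
    ∃ u, QPts.mk W u = q :=
  Quotient.exists_rep q

theorem mk_eq {L : Type} [Field L] [Algebra K L] {u u' : Pts P I L}
    (h : QPts.mk W u = QPts.mk W u') : ∃ l : Fin r → Lˣ, u'.1 = act W l u.1 :=
  Quotient.exact h

theorem mk_sound {L : Type} [Field L] [Algebra K L] {u u' : Pts P I L} (l : Fin r → Lˣ)
    (h : u'.1 = act W l u.1) : QPts.mk W u = QPts.mk W u' :=
  Quotient.sound (s := orb W P I L) ⟨l, h⟩

theorem qint_open (hP : Homog W P) (hI : Homog W I) (p : Place K) : IsOpen (QInt W P I p) :=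
  mk_open hP hI _ (int_open p)

theorem base_mem {L : Type} [Field L] [Algebra K L] {x : Fin N → K} (hx : x ∈ Pts P I K) :
    (fun i => algebraMap K L (x i)) ∈ Pts P I L :=
  SAF.cc_pts hx

theorem int_base (v : HeightOneSpectrum (𝓞 K)) (x : Fin N → K)
    (u : Pts P I (Loc K (Sum.inl v))) (hu : u.1 = fun i => algebraMap K (Loc K (Sum.inl v)) (x i)) :
    u ∈ IntPts P I (Sum.inl v : Place K) ↔ (∀ i, SAF.av (Sum.inl v) (x i) ≤ 1) ∧
      ∃ g : MvPolynomial (Fin N) (𝓞 K), MvPolynomial.map (algebraMap (𝓞 K) K) g ∈ I ∧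
        SAF.av (Sum.inl v) (MvPolynomial.aeval x (MvPolynomial.map (algebraMap (𝓞 K) K) g)) =
          1 := by
  have h2 : ∀ g : MvPolynomial (Fin N) (𝓞 K), ‖val u.1 (toK g)‖ = SAF.av (Sum.inl v)
      (MvPolynomial.aeval x (MvPolynomial.map (algebraMap (𝓞 K) K) g)) := by
    intro g
    rw [hu]
    have h3 : val (fun i => algebraMap K (Loc K (Sum.inl v)) (x i)) (toK g) =
        algebraMap K (Loc K (Sum.inl v)) (MvPolynomial.aeval x (toK g)) :=
      SAF.cc_aeval x (toK g)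
    rw [h3]
    exact norm_loc _ _
  have h1 : ∀ i, ‖u.1 i‖ = SAF.av (Sum.inl v) (x i) := by
    intro i
    rw [hu]
    exact norm_loc _ _
  constructor
  · intro h
    obtain ⟨h3, g, hg, hg1⟩ := h v rfl
    exact ⟨fun i => by rw [← h1]; exact h3 i, g, hg, by rw [← h2]; exact hg1⟩
  · rintro ⟨h3, g, hg, hg1⟩ v' hv'
    exact ⟨fun i => by rw [h1]; exact h3 i, g, hg, by rw [h2]; exact hg1⟩

/-- units preserve the integral points -/
theorem int_act (v : HeightOneSpectrum (𝓞 K)) (hI : Homog W I)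
    (l : Fin r → (Loc K (Sum.inl v))ˣ)
    (hl : ∀ j, ‖(l j : Loc K (Sum.inl v))‖ = 1) (x y : Pts P I (Loc K (Sum.inl v)))
    (hy : y.1 = act W l x.1) (hx : x ∈ IntPts P I (Sum.inl v : Place K)) :
    y ∈ IntPts P I (Sum.inl v : Place K) :=
  (int_iff v y).2 (SAF.int_act v hI l hl x y hy ((int_iff v x).1 hx))

theorem presc_loc (K : Type) [Field K] [NumberField K] :
    ∃ T : Finset (HeightOneSpectrum (𝓞 K)),
    ∀ l : (v : HeightOneSpectrum (𝓞 K)) → (Loc K (Sum.inl v))ˣ,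
      {v | ‖(l v : Loc K (Sum.inl v))‖ ≠ 1}.Finite →
      ∃ m : Kˣ, ∀ v ∉ T, SAF.av (Sum.inl v) (m : K) = ‖(l v : Loc K (Sum.inl v))‖ :=
  SAF.exists_presc

theorem comp_cont (W : Fin N → Fin r → ℤ) (P I : Ideal (MvPolynomial (Fin N) K))
    (S : Set (Place K)) (p : {p : Place K // p ∉ S}) :
    Continuous fun z : Adelic W P I S => z.comp p :=
  RestrictedProduct.continuous_eval (R := fun p : {p : Place K // p ∉ S} =>
    QPts W P I (Loc K p.1)) (A := fun p => QInt W P I p.1) p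

theorem forall_open (hP : Homog W P) (hI : Homog W I) (S : Set (Place K))
    (T : Finset {p : Place K // p ∉ S}) :
    IsOpen {z : Adelic W P I S | ∀ p, p ∉ T → z.comp p ∈ QInt W P I p.1} :=
  RestrictedProduct.isOpen_forall_imp_mem
    (A := fun p : {p : Place K // p ∉ S} => QInt W P I p.1)
    (fun p => qint_open hP hI p.1) (p := fun p => p ∉ T)

theorem closure_of_core (P I0 I : Ideal (MvPolynomial (Fin N) K)) (hP : Homog W P)
    (hI0 : Homog W I0) (hIh : Homog W I) (hI : I ≤ I0)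
    (S : Set (Place K)) (hS : S.Finite) (H : SAF.CoreStm2 P I0 I S) (y : Adelic W P I S)
    (hy : Adelic.incl hI y ∈ closure (Rat W P I0 S)) : y ∈ closure (Rat W P I S) := by
  classical
  rw [mem_closure_iff]
  intro O hO hyO
  obtain ⟨Ω0, H⟩ := H
  obtain ⟨Tcl, hTcl⟩ := presc_loc K
  -- a finite place outside `S`
  obtain ⟨v1, hv1⟩ : ∃ v : HeightOneSpectrum (𝓞 K), Sum.inl v ∉ S := by
    by_contra h
    push Not at h
    refine SAF.infinite_places (K := K)
      ((hS.preimage (f := Sum.inl) Sum.inl_injective.injOn).subset ?_)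
    intro v _
    exact h v
  -- a box
  obtain ⟨T, hT0, hyT, B, hBo, hBy, hB⟩ := rp_box
    (R := fun p : {p : Place K // p ∉ S} => QPts W P I (Loc K p.1))
    (A := fun p => QInt W P I p.1) (fun p => qint_open hP hIh p.1) hO hyO
    (insert ⟨Sum.inl v1, hv1⟩ (((Ω0 ∪ Tcl).image Sum.inl).subtype fun p : Place K => p ∉ S))
  -- lifts of `y`
  have hlift : ∀ p : {p : Place K // p ∉ S}, ∃ u : Pts P I (Loc K p.1), QPts.mk W u = y.comp p ∧
        (y.comp p ∈ QInt W P I p.1 → u ∈ IntPts P I p.1) := by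
    intro p
    by_cases h : y.comp p ∈ QInt W P I p.1
    · obtain ⟨u, hu, hu'⟩ := h
      exact ⟨u, hu', fun _ => hu⟩
    · obtain ⟨u, hu⟩ := mk_surj (y.comp p)
      exact ⟨u, hu, fun h' => absurd h' h⟩
  choose yf hyf hyfint using hlift
  -- radii
  have hrad : ∀ p : {p : Place K // p ∉ S}, ∃ δ > (0 : ℝ), ∀ u : Pts P I (Loc K p.1),
      dist u.1 (yf p).1 < δ → QPts.mk W u ∈ B p := by
    intro p
    have h1 : (QPts.mk W : Pts P I (Loc K p.1) → _) ⁻¹' (B p) ∈ nhds (yf p) := by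
      refine (IsOpen.preimage mk_cont (hBo p)).mem_nhds ?_
      rw [Set.mem_preimage, hyf p]
      exact hBy p
    obtain ⟨d, hd, hball⟩ := Metric.mem_nhds_iff.1 h1
    exact ⟨d, hd, fun u hu => hball hu⟩
  choose df hdf hdf' using hrad
  obtain ⟨δ, hδ, hδT⟩ := SAF.cc_min T df hdf
  obtain ⟨g, hgI, hg⟩ := (yf ⟨Sum.inl v1, hv1⟩).2.2
  -- the open box in `X`
  let O' : Set (Adelic W P I0 S) := {z |
    (∀ p ∈ T, z.comp p ∈ (QPts.mk W : Pts P I0 (Loc K p.1) → _) ''
      {u : Pts P I0 (Loc K p.1) | dist u.1 (yf p).1 < δ / 2}) ∧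
    (∀ p, p ∉ T → z.comp p ∈ QInt W P I0 p.1) ∧
    z.comp ⟨Sum.inl v1, hv1⟩ ∈ (QPts.mk W : Pts P I0 (Loc K (Sum.inl v1)) → _) ''
      {u : Pts P I0 (Loc K (Sum.inl v1)) | val u.1 g ≠ 0}}
  have hO' : IsOpen O' := by
    have hO1 : IsOpen {z : Adelic W P I0 S | ∀ p ∈ T,
        z.comp p ∈ (QPts.mk W : Pts P I0 (Loc K p.1) → _) ''
          {u : Pts P I0 (Loc K p.1) | dist u.1 (yf p).1 < δ / 2}} := by
      have : {z : Adelic W P I0 S | ∀ p ∈ T,
          z.comp p ∈ (QPts.mk W : Pts P I0 (Loc K p.1) → _) ''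
          {u : Pts P I0 (Loc K p.1) | dist u.1 (yf p).1 < δ / 2}} =
          ⋂ p ∈ T, {z : Adelic W P I0 S | z.comp p ∈ (QPts.mk W : Pts P I0 (Loc K p.1) → _) ''
          {u : Pts P I0 (Loc K p.1) | dist u.1 (yf p).1 < δ / 2}} := by
        ext z; simp only [Set.mem_ofPred_eq, Set.mem_iInter]
      rw [this]
      refine isOpen_biInter_finset fun p _ => IsOpen.preimage (comp_cont W P I0 S p)
        (mk_open hP hI0 _ ?_)
      exact isOpen_lt (continuous_subtype_val.dist continuous_const) continuous_const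
    have hO4 : IsOpen {z : Adelic W P I0 S | z.comp ⟨Sum.inl v1, hv1⟩ ∈
        (QPts.mk W : Pts P I0 (Loc K (Sum.inl v1)) → _) ''
        {u : Pts P I0 (Loc K (Sum.inl v1)) | val u.1 g ≠ 0}} := by
      refine IsOpen.preimage (comp_cont W P I0 S ⟨Sum.inl v1, hv1⟩) (mk_open hP hI0 _ ?_)
      exact isOpen_ne_fun ((SAF.cc_cont (L := Loc K (Sum.inl v1)) g).comp
        continuous_subtype_val) continuous_const
    exact hO1.inter ((forall_open hP hI0 S T).inter hO4)
  have hyO' : Adelic.incl hI y ∈ O' := by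
    refine ⟨fun p _ => ⟨Pts.incl hI (yf p), ?_, ?_⟩, fun p hp => ?_,
      ⟨Pts.incl hI (yf ⟨Sum.inl v1, hv1⟩), hg, ?_⟩⟩
    · show dist (yf p).1 (yf p).1 < δ / 2
      rw [dist_self]; exact half_pos hδ
    · show _ = QPts.incl hI (y.comp p)
      rw [← hyf p]; rfl
    · show QPts.incl hI (y.comp p) ∈ QInt W P I0 p.1
      exact QInt.incl hI (hyT p hp)
    · show _ = QPts.incl hI (y.comp ⟨Sum.inl v1, hv1⟩)
      rw [← hyf ⟨Sum.inl v1, hv1⟩]; rfl
  obtain ⟨z, ⟨hO1, hO2, hO4⟩, x0, hx0, hz1⟩ := mem_closure_iff.1 hy O' hO' hyO'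
  -- base change of `x0`
  obtain ⟨xb, hxb⟩ : ∃ xb : (p : {p : Place K // p ∉ S}) → Fin N → Loc K p.1,
      xb = fun p i => algebraMap K _ (x0 i) := ⟨_, rfl⟩
  have intx : ∀ p, xb p = (fun i => algebraMap K _ (x0 i)) := fun p => by rw [hxb]
  have hxb0 : ∀ p, xb p ∈ Pts P I0 (Loc K p.1) := by
    intro p
    rw [intx]
    exact base_mem hx0
  -- integrality of `x0` at a place
  let IP : (Fin N → K) → Ideal (MvPolynomial (Fin N) K) → Place K → Prop := fun x J p =>
    ∀ v, p = Sum.inl v → (∀ i, SAF.av (Sum.inl v) (x i) ≤ 1) ∧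
      ∃ g : MvPolynomial (Fin N) (𝓞 K), MvPolynomial.map (algebraMap (𝓞 K) K) g ∈ J ∧
        SAF.av (Sum.inl v) (MvPolynomial.aeval x (MvPolynomial.map (algebraMap (𝓞 K) K) g)) = 1
  have hIP : ∀ (x : Fin N → K) (J : Ideal (MvPolynomial (Fin N) K)) (p : Place K)
      (u : Pts P J (Loc K p)), (u.1 = fun i => algebraMap K _ (x i)) →
        (u ∈ IntPts P J p ↔ IP x J p) := by
    intro x J p u hu
    rcases p with v | w
    · rw [int_base v x u hu]
      constructor
      · intro h v' hv'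
        cases hv'
        exact h
      · intro h
        exact h v rfl
    · refine ⟨fun _ v hv => (by cases hv), fun _ => int_inf w u⟩
  -- the torus elements
  have hl : ∀ p : {p : Place K // p ∉ S}, ∃ l : Fin r → (Loc K p.1)ˣ,
        (p ∈ T → dist (act W l (xb p)) (yf p).1 < δ / 2) ∧
        (p ∉ T → ∃ u : Pts P I0 (Loc K p.1), u.1 = act W l (xb p) ∧ u ∈ IntPts P I0 p.1) ∧
        (IP x0 I0 p.1 → p ∉ T → l = fun _ => 1) := by
    intro p
    obtain ⟨u, hu1, hu2⟩ := hz1 p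
    have hux : u.1 = xb p := by
      rw [intx]
      exact funext hu1
    by_cases hpT : p ∈ T
    · obtain ⟨u', hu'1, hu'2⟩ := hO1 p hpT
      rw [hu2] at hu'2
      obtain ⟨l, hl⟩ := mk_eq hu'2.symm
      refine ⟨l, fun _ => ?_, fun h => absurd hpT h, fun _ h => absurd hpT h⟩
      rw [← hux, ← hl]
      exact hu'1
    · by_cases hint : IP x0 I0 p.1
      · refine ⟨fun _ => 1, fun h => absurd h hpT, fun _ => ⟨u, ?_, ?_⟩, fun _ _ => rfl⟩
        · rw [act_one, hux]
        · exact (hIP x0 I0 p.1 u (funext hu1)).2 hint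
      · obtain ⟨u', hu'1, hu'2⟩ := hO2 p hpT
        rw [hu2] at hu'2
        obtain ⟨l, hl⟩ := mk_eq hu'2.symm
        refine ⟨l, fun h => absurd h hpT, fun _ => ⟨u', ?_, hu'1⟩, fun h1 => absurd h1 hint⟩
        rw [← hux, ← hl]
  choose lf hlf1 hlf2 hlf3 using hl
  -- `x0` is not on `Z`
  have hx0I : x0 ∈ Pts P I K := by
    obtain ⟨u', hu'1, hu'2⟩ := hO4
    obtain ⟨u, hu1, hu2⟩ := hz1 ⟨Sum.inl v1, hv1⟩
    rw [hu2] at hu'2
    obtain ⟨l, hl⟩ := mk_eq hu'2
    have h1 : u'.1 ∈ Pts P I (Loc K (Sum.inl v1)) := ⟨u'.2.1, g, hgI, hu'1⟩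
    have h2 : u.1 ∈ Pts P I (Loc K (Sum.inl v1)) := by
      rw [hl]
      exact act_mem hP hIh l h1
    obtain ⟨-, f, hf, hf0⟩ := h2
    refine ⟨hx0.1, f, hf, fun h0 => hf0 ?_⟩
    have h3 : val u.1 f = algebraMap K (Loc K (Sum.inl v1)) (val x0 f) := by
      have h4 : u.1 = fun i => algebraMap K (Loc K (Sum.inl v1)) (x0 i) := funext hu1
      rw [h4]
      exact SAF.cc_aeval x0 f
    rw [h3, h0, map_zero]
  -- the correction by an element of `K`
  have hm : ∀ j : Fin r, ∃ m : Kˣ, ∀ p : {p : Place K // p ∉ S}, p ∉ T → (∃ v, p.1 = Sum.inl v) →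
      SAF.av p.1 (m : K) = ‖(lf p j : Loc K p.1)‖ := by
    intro j
    obtain ⟨m, hm⟩ := hTcl (fun v => if h : (Sum.inl v : Place K) ∉ S then
      (if (⟨Sum.inl v, h⟩ : {p : Place K // p ∉ S}) ∈ T then 1 else lf ⟨Sum.inl v, h⟩ j)
      else 1) (by
        refine (SAF.int_ae hx0).subset (fun v hv => ?_)
        intro hcon
        apply hv
        by_cases h : (Sum.inl v : Place K) ∉ S
        · simp only [h, not_false_eq_true, dif_pos]
          by_cases hT : (⟨Sum.inl v, h⟩ : {p : Place K // p ∉ S}) ∈ T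
          · simp [hT]
          · rw [if_neg hT, hlf3 ⟨Sum.inl v, h⟩ (fun v' hv' => by cases hv'; exact hcon) hT]
            exact norm_one
        · simp only [h, dif_neg, not_false_eq_true]
          simp)
    refine ⟨m, ?_⟩
    rintro ⟨p, hp⟩ hpT ⟨v, hv⟩
    subst hv
    have hvcl : v ∉ Tcl := by
      intro h
      apply hpT
      apply hT0
      refine Finset.mem_insert_of_mem ?_
      rw [Finset.mem_subtype]
      exact Finset.mem_image_of_mem _ (Finset.mem_union_right _ h)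
    have h1 := hm v hvcl
    rw [dif_pos hp, if_neg hpT] at h1
    exact h1
  choose m hm using hm
  obtain ⟨x1, hx1⟩ : ∃ x1 : Fin N → K, x1 = act W m x0 := ⟨_, rfl⟩
  have hx1I : x1 ∈ Pts P I K := by
    rw [hx1]
    exact act_mem hP hIh m hx0I
  -- base change of `x1`
  have hx1b : ∀ p : {p : Place K // p ∉ S}, (fun i => algebraMap K (Loc K p.1) (x1 i)) =
        act W (fun j => Units.map (algebraMap K (Loc K p.1)).toMonoidHom (m j)) (xb p) := by
    intro p
    rw [hx1, intx]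
    exact SAF.act_base m x0
  -- the quotients
  obtain ⟨kf, hkf⟩ : ∃ kf : (p : {p : Place K // p ∉ S}) → Fin r → (Loc K p.1)ˣ,
      kf = fun p j => lf p j *
        (Units.map (algebraMap K (Loc K p.1)).toMonoidHom (m j))⁻¹ := ⟨_, rfl⟩
  have hkf1 : ∀ p, act W (kf p) (fun i => algebraMap K (Loc K p.1) (x1 i)) =
      act W (lf p) (xb p) := by
    intro p
    rw [hx1b, act_act, hkf]
    simp only [inv_mul_cancel_right]
  -- integrality of `x1`
  have hx1int : ∀ p : {p : Place K // p ∉ S}, p ∉ T → IP x1 I0 p.1 := by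
    intro p hpT
    obtain ⟨u, hu1, hu2⟩ := hlf2 p hpT
    have hx1p : (fun i => algebraMap K (Loc K p.1) (x1 i)) ∈ Pts P I0 (Loc K p.1) := by
      rw [hx1b]
      exact act_mem hP hI0 _ (hxb0 p)
    rw [← hIP x1 I0 p.1 ⟨_, hx1p⟩ rfl]
    have hval : ∀ j, (∃ v, p.1 = Sum.inl v) → ‖(((kf p j)⁻¹ : (Loc K p.1)ˣ) : Loc K p.1)‖ = 1 := by
      intro j hv
      have h2 := hm j p hpT hv
      have h3 : ‖(lf p j : Loc K p.1)‖ ≠ 0 := norm_ne_zero_iff.2 (lf p j).ne_zero
      rw [hkf]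
      simp only [mul_inv_rev, inv_inv, Units.val_mul, Units.val_inv_eq_inv_val, norm_mul,
        norm_inv]
      have h4 : ‖((Units.map (algebraMap K (Loc K p.1)).toMonoidHom (m j) :
          (Loc K p.1)ˣ) : Loc K p.1)‖ = SAF.av p.1 (m j : K) := norm_loc p.1 _
      rw [h4, h2]
      exact mul_inv_cancel₀ h3
    have hact : (fun i => algebraMap K (Loc K p.1) (x1 i)) =
        act W (fun j => (kf p j)⁻¹) u.1 := by
      rw [hu1, ← hkf1, act_act]
      simp only [inv_mul_cancel]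
      exact (act_one W _).symm
    obtain ⟨p, hp⟩ := p
    rcases p with v | w
    · exact int_act v hI0 (fun j => (kf ⟨Sum.inl v, hp⟩ j)⁻¹) (fun j => hval j ⟨v, rfl⟩) u
        ⟨_, hx1p⟩ hact hu2
    · exact int_inf w _
  -- the finite set of places
  set Ω : Finset (Place K) := T.image Subtype.val
  have hΩl : ∀ p : {p : Place K // p ∉ S}, p.1 ∈ Ω ↔ p ∈ T := by
    intro p
    simp only [Ω, Finset.mem_image]
    constructor
    · rintro ⟨p', hp', h⟩
      rwa [← Subtype.ext h]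
    · intro hp
      exact ⟨p, hp, rfl⟩
  have hΩS : ∀ p ∈ Ω, p ∉ S := by
    intro p hp
    obtain ⟨p', -, rfl⟩ := Finset.mem_image.1 hp
    exact p'.2
  -- the radius
  have he1 : ∀ p : {p : Place K // p ∉ S}, ∃ ε > 0, ∀ y' : Fin N → Loc K p.1,
        (∀ i, ‖y' i - algebraMap K (Loc K p.1) (x1 i)‖ < ε) →
        dist (act W (kf p) y') (act W (lf p) (xb p)) < δ / 2 := by
    intro p
    obtain ⟨ε, h1, h2⟩ := SAF.act_close (W := W) (kf p)
      (fun i => algebraMap K (Loc K p.1) (x1 i)) (half_pos hδ)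
    refine ⟨ε, h1, fun y' hy' => ?_⟩
    rw [← hkf1]
    exact h2 y' hy'
  choose ef hef1 hef2 using he1
  obtain ⟨ε1, hε1, hε1'⟩ := SAF.cc_min T ef hef1
  obtain ⟨x, hx, hxn, hxint⟩ := H x1 hx1I Ω hΩS
    (by
      intro v hv hvS
      refine (hΩl ⟨Sum.inl v, hvS⟩).2 (hT0 (Finset.mem_insert_of_mem ?_))
      exact Finset.mem_subtype.2 (Finset.mem_image_of_mem _ (Finset.mem_union_left _ hv)))
    (by
      intro v hv hvS
      exact hx1int ⟨Sum.inl v, hvS⟩ (fun h => hv ((hΩl ⟨Sum.inl v, hvS⟩).2 h)) v rfl)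
    ε1 hε1
  -- the adelic point
  obtain ⟨k', hk'⟩ : ∃ k' : (p : {p : Place K // p ∉ S}) →
      Fin r → (Loc K p.1)ˣ, k' = fun p => if p ∈ T then kf p else fun _ => 1 :=
    ⟨_, rfl⟩
  have hxtm : ∀ p : {p : Place K // p ∉ S}, act W (k' p)
      (fun i => algebraMap K (Loc K p.1) (x i)) ∈ Pts P I (Loc K p.1) := fun p =>
    act_mem hP hIh _ (base_mem hx)
  have hxtint : ∀ p : {p : Place K // p ∉ S}, p ∉ T →
      (⟨_, hxtm p⟩ : Pts P I (Loc K p.1)) ∈ IntPts P I p.1 := by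
    intro p hp
    have h2 : act W (k' p) (fun i => algebraMap K (Loc K p.1) (x i)) =
        (fun i => algebraMap K (Loc K p.1) (x i)) := by
      rw [hk']
      simp only [hp, if_false]
      exact act_one W _
    rw [hIP x I p.1 _ h2]
    intro v hv
    obtain ⟨p, hp'⟩ := p
    simp only at hv
    subst hv
    exact hxint v (fun h => hp ((hΩl ⟨Sum.inl v, hp'⟩).1 h)) hp'
  have hxtq : ∀ p : {p : Place K // p ∉ S}, p ∉ T →
      QPts.mk W (⟨_, hxtm p⟩ : Pts P I (Loc K p.1)) ∈ QInt W P I p.1 := fun p hp =>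
    ⟨_, hxtint p hp, rfl⟩
  let xt : Adelic W P I S := ⟨fun p => QPts.mk W (⟨_, hxtm p⟩ : Pts P I (Loc K p.1)),
      Filter.mem_of_superset T.finite_toSet.compl_mem_cofinite fun p hp => hxtq p fun h =>
        hp (Finset.mem_coe.2 h)⟩
  have hxtO : xt ∈ O := by
    refine hB xt (fun p hp => ?_) (fun p hp => hxtq p hp)
    refine hdf' p _ ?_
    show dist (act W (k' p) (fun i => algebraMap K (Loc K p.1) (x i))) (yf p).1 < df p
    refine lt_of_lt_of_le ?_ (hδT p hp)
    have h1 := hlf1 p hp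
    have h2 : dist (act W (k' p) (fun i => algebraMap K (Loc K p.1) (x i)))
        (act W (lf p) (xb p)) < δ / 2 := by
      rw [hk']
      simp only [hp, if_true]
      refine hef2 p _ (fun i => ?_)
      rw [← map_sub, norm_loc]
      exact (hxn _ ((hΩl p).2 hp) i).trans_le (hε1' p hp)
    calc _ ≤ _ := dist_triangle _ _ _
      _ < δ / 2 + δ / 2 := add_lt_add h2 h1
      _ = δ := add_halves δ
  refine ⟨xt, hxtO, x, hx, fun p => ⟨⟨_, base_mem hx⟩, fun i => rfl, ?_⟩⟩
  exact (mk_sound (k' p) rfl).symm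

theorem incl_cont {P I0 I : Ideal (MvPolynomial (Fin N) K)} (hI : I ≤ I0)
    (S : Set (Place K)) : Continuous (Adelic.incl hI : Adelic W P I S → Adelic W P I0 S) := by
  have hinc : ∀ (L : Type) [NormedField L] [Algebra K L],
      Continuous (Pts.incl hI : Pts P I L → Pts P I0 L) := fun L _ _ =>
    continuous_subtype_val.subtype_mk _
  have hincq : ∀ (L : Type) [NormedField L] [Algebra K L],
      Continuous (QPts.incl hI : QPts W P I L → QPts W P I0 L) := fun L _ _ =>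
    (mk_cont.comp (hinc L)).quotient_lift _
  have hm : ∀ᶠ p : {p : Place K // p ∉ S} in Filter.cofinite,
      Set.MapsTo (QPts.incl hI : QPts W P I (Loc K p.1) →
        QPts W P I0 (Loc K p.1)) (QInt W P I p.1) (QInt W P I0 p.1) :=
    Filter.Eventually.of_forall fun v x hx => QInt.incl hI hx
  exact RestrictedProduct.mapAlong_continuous
      (fun p : {p : Place K // p ∉ S} => QPts W P I (Loc K p.1))
      (fun p : {p : Place K // p ∉ S} => QPts W P I0 (Loc K p.1))
      (A₁ := fun p => QInt W P I p.1) (A₂ := fun p => QInt W P I0 p.1)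
      (𝓕₁ := Filter.cofinite) (𝓕₂ := Filter.cofinite) id Filter.tendsto_id
      (fun p => (QPts.incl hI : QPts W P I (Loc K p.1) → QPts W P I0 (Loc K p.1))) hm
      (fun p => hincq _)

theorem incl_rat {P I0 I : Ideal (MvPolynomial (Fin N) K)} (hI : I ≤ I0)
    (S : Set (Place K)) (y : Adelic W P I S) (hy : y ∈ Rat W P I S) :
    Adelic.incl hI y ∈ Rat W P I0 S := by
  obtain ⟨x, ⟨hx1, g, hg, hg0⟩, h1⟩ := hy
  refine ⟨x, ⟨hx1, g, hI hg, hg0⟩, fun p => ?_⟩
  obtain ⟨u, hu, hu'⟩ := h1 p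
  refine ⟨Pts.incl hI u, hu, ?_⟩
  show QPts.incl hI (y.comp p) = _
  rw [hu']; rfl

theorem closure_eq (P I0 I : Ideal (MvPolynomial (Fin N) K)) (hP : Homog W P)
    (hI0 : Homog W I0) (hIh : Homog W I) (hI : I ≤ I0)
    (S : Set (Place K)) (hS : S.Finite) (H : SAF.CoreStm2 P I0 I S) :
    closure (Rat W P I S) = Adelic.incl hI ⁻¹' closure (Rat W P I0 S) := by
  ext y
  refine ⟨fun hy => ?_, closure_of_core P I0 I hP hI0 hIh hI S hS H y⟩
  have h1 := image_closure_subset_closure_image (incl_cont (W := W) (P := P) hI S)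
    (Set.mem_image_of_mem _ hy)
  refine closure_mono ?_ h1
  rintro _ ⟨z, hz, rfl⟩
  exact incl_rat hI S z hz

end SAFS
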