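import Pool.Agent.Lib.MP_dd8365_nt.ExpA

/-! MP_dd8365_nt (SAF): exponentials of locally nilpotent derivations and their compositions. -/

open MvPolynomial

namespace SAF

variable {K : Type} [Field K] [CharZero K]

variable {A : Type} [CommRing A] [Algebra K A]

/-- `exp(t_0 D_0) exp(t_1 D_1) ⋯` for a list of locally nilpotent derivations -/
noncomputable def lam : (L : List (LND K A)) → A →ₐ[K] MvPolynomial (Fin L.length) A
  | [] => (IsScalarTower.toAlgHom K A (MvPolynomial (Fin 0) A))
  | d :: L => (((finSuccEquiv A L.length).symm.restrictScalars K).toAlgHom.comp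
      ((expHom (d.mv L.length)).comp (lam L)))

/-- induction: `Polynomial.mapEquiv` of the `e` for `L`, then `exp_equiv (d.mv _)`, conjugated by
`finSuccEquiv` -/
theorem lam_equiv (L : List (LND K A)) : ∃ e : MvPolynomial (Fin L.length) A ≃+*
    MvPolynomial (Fin L.length) A, ∀ a, e (C a) = lam L a := by
  induction L with
  | nil => exact ⟨RingEquiv.refl _, fun a => rfl⟩
  | cons d L ih =>
    obtain ⟨e1, he1⟩ := ih
    obtain ⟨e2, he2⟩ := exp_equiv (d.mv L.length)
    refine ⟨((finSuccEquiv A L.length).toRingEquiv.trans ((Polynomial.mapEquiv e1).trans e2)).trans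
      (finSuccEquiv A L.length).symm.toRingEquiv, fun a => ?_⟩
    have h1 : finSuccEquiv A L.length (C a) = Polynomial.C (C a) := by
      rw [finSuccEquiv_apply, eval₂Hom_C]
      rfl
    change (finSuccEquiv A L.length).symm (e2 ((Polynomial.mapEquiv e1)
      (finSuccEquiv A L.length (C a)))) =
      (finSuccEquiv A L.length).symm (expHom (d.mv L.length) (lam L a))
    rw [h1, ← he1, ← he2]
    congr 2
    rw [Polynomial.mapEquiv_apply, Polynomial.map_C]
    rfl

theorem lam_cons (d : LND K A) (L : List (LND K A)) (a : A) : lam (d :: L) a =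
    (finSuccEquiv A L.length).symm (expHom (d.mv L.length) (lam L a)) := rfl

theorem lam_cons_coeff (d : LND K A) (L : List (LND K A)) (a : A) (k : ℕ)
    (n : Fin L.length →₀ ℕ) : (lam (d :: L) a).coeff (n.cons k) =
    ((expHom (d.mv L.length) (lam L a)).coeff k).coeff n := by
  rw [← finSuccEquiv_coeff_coeff, lam_cons, AlgEquiv.apply_symm_apply]

theorem lam_zero (L : List (LND K A)) (a : A) : MvPolynomial.eval 0 (lam L a) = a := by
  induction L with
  | nil => exact eval_C (f := (0 : Fin 0 → A)) a
  | cons d L ih =>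
    have h1 : (0 : Fin (L.length + 1) → A) = Fin.cons 0 0 := by
      funext i
      refine Fin.cases ?_ (fun j => ?_) i <;> rfl
    change MvPolynomial.eval (0 : Fin (L.length + 1) → A) (lam (d :: L) a) = a
    rw [h1, eval_eq_eval_mv_eval', lam_cons, AlgEquiv.apply_symm_apply,
      ← Polynomial.coeff_zero_eq_eval_zero, Polynomial.coeff_map, expHom_coeff, Nat.factorial_zero,
      Nat.cast_one, inv_one, one_smul]
    exact ih

/-- coefficient with exponent `1` at the used and `0` at the skipped places; the coefficient of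
`lam (d :: L) g` at `(k, n)` is `(k!)⁻¹ d^k` of the coefficient of `lam L g` at `n` -/
theorem lam_word (w L : List (LND K A)) (h : w.Sublist L) (g : A) :
    ∃ n, (lam L g).coeff n = w.foldr (fun d a => d.D a) g := by
  induction h with
  | slnil => exact ⟨0, by exact coeff_zero_C g⟩
  | cons d _ ih =>
    obtain ⟨n, hn⟩ := ih
    refine ⟨n.cons 0, ?_⟩
    rw [lam_cons_coeff, expHom_coeff, Nat.factorial_zero, Nat.cast_one, inv_one, one_smul]
    exact hn
  | cons_cons d _ ih =>
    obtain ⟨n, hn⟩ := ih
    refine ⟨n.cons 1, ?_⟩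
    rw [lam_cons_coeff, expHom_coeff, Nat.factorial_one, Nat.cast_one, inv_one, one_smul,
      Function.iterate_one, LND.mv_coeff, hn]
    rfl

end SAF
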