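import Pool.Agent.Lib.MP_dd8365_nt.Defs

/-! MP_dd8365_nt (SAF): heights and common divisors. -/

namespace SAF

/-- there is no prime strictly between `⊥` and the trace of a principal prime of `F[t]` -/
theorem height_aux {A F : Type} [CommRing A] [IsDomain A] [Field F] [Algebra A F]
    [IsFractionRing A F] (m : ℕ) (q : MvPolynomial (Fin m) F) (hq : Irreducible q)
    (P : Ideal (MvPolynomial (Fin m) A)) (hP : P.IsPrime) (hP0 : P ≠ ⊥)
    (hle : P ≤ Ideal.comap (MvPolynomial.map (algebraMap A F)) (Ideal.span {q})) :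
    Ideal.comap (MvPolynomial.map (algebraMap A F)) (Ideal.span {q}) ≤ P := by
  let _ : Algebra (MvPolynomial (Fin m) A) (MvPolynomial (Fin m) F) :=
    MvPolynomial.algebraMvPolynomial
  have hloc : IsLocalization (Submonoid.map (MvPolynomial.C (σ := Fin m)) (nonZeroDivisors A))
      (MvPolynomial (Fin m) F) := MvPolynomial.isLocalization _ _
  have hal : ∀ f : MvPolynomial (Fin m) A,
      algebraMap (MvPolynomial (Fin m) A) (MvPolynomial (Fin m) F) f =
        MvPolynomial.map (algebraMap A F) f := fun _ => rfl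
  have hdisj : Disjoint
      ((Submonoid.map (MvPolynomial.C (σ := Fin m)) (nonZeroDivisors A) :
        Submonoid (MvPolynomial (Fin m) A)) : Set (MvPolynomial (Fin m) A)) (P : Set _) := by
    rw [Set.disjoint_left]
    rintro _ ⟨c, hc, rfl⟩ hcP
    have h1 := hle hcP
    rw [Ideal.mem_comap, Ideal.mem_span_singleton, MvPolynomial.map_C] at h1
    have hc0 : algebraMap A F c ≠ 0 := by
      intro h2
      exact nonZeroDivisors.ne_zero hc (IsFractionRing.injective A F (by rw [h2, map_zero]))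
    exact hq.not_isUnit (isUnit_of_dvd_unit h1 ((isUnit_iff_ne_zero.2 hc0).map MvPolynomial.C))
  have hpr : (Ideal.map (algebraMap (MvPolynomial (Fin m) A) (MvPolynomial (Fin m) F)) P).IsPrime :=
    IsLocalization.isPrime_of_isPrime_disjoint
      (Submonoid.map (MvPolynomial.C (σ := Fin m)) (nonZeroDivisors A)) _ P hP hdisj
  have hund := IsLocalization.under_map_of_isPrime_disjoint
      (Submonoid.map (MvPolynomial.C (σ := Fin m)) (nonZeroDivisors A))
      (MvPolynomial (Fin m) F) hP hdisj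
  have hne : Ideal.map (algebraMap (MvPolynomial (Fin m) A) (MvPolynomial (Fin m) F)) P ≠ ⊥ := by
    intro h0
    obtain ⟨f, hf, hf0⟩ := Submodule.exists_mem_ne_zero_of_ne_bot hP0
    have h1 : algebraMap (MvPolynomial (Fin m) A) (MvPolynomial (Fin m) F) f ∈
        (⊥ : Ideal (MvPolynomial (Fin m) F)) := by
      rw [← h0]
      exact Ideal.mem_map_of_mem _ hf
    rw [Ideal.mem_bot, hal] at h1
    apply hf0
    apply MvPolynomial.map_injective _ (IsFractionRing.injective A F)
    rw [h1, map_zero]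
  obtain ⟨x, hx, hxp⟩ := Ideal.IsPrime.exists_mem_prime_of_ne_bot hpr hne
  have hxq : x ∈ Ideal.span {q} := (Ideal.map_le_iff_le_comap.2 hle) hx
  rw [Ideal.mem_span_singleton] at hxq
  have hass : Associated q x := hq.associated_of_dvd hxp.irreducible hxq
  have hqm : q ∈ Ideal.map (algebraMap (MvPolynomial (Fin m) A) (MvPolynomial (Fin m) F)) P :=
    Ideal.mem_of_dvd _ hass.symm.dvd hx
  intro f hf
  rw [Ideal.mem_comap, Ideal.mem_span_singleton] at hf
  rw [← hund]
  have h2 : algebraMap (MvPolynomial (Fin m) A) (MvPolynomial (Fin m) F) f ∈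
      Ideal.map (algebraMap (MvPolynomial (Fin m) A) (MvPolynomial (Fin m) F)) P :=
    Ideal.mem_of_dvd _ hf hqm
  exact h2

theorem chain_of_height {A : Type} [CommRing A] [IsDomain A] (I : Ideal A)
    (h : 2 ≤ I.height) (q : Ideal A) (hq : q.IsPrime) (hIq : I ≤ q) :
    ∃ q1 : Ideal A, q1.IsPrime ∧ ⊥ < q1 ∧ q1 < q := by
  have h2 : 2 ≤ q.height := h.trans (Ideal.height_mono hIq)
  have h3 : ((2 : ℕ) : ℕ∞) ≤ Order.height (⟨q, hq⟩ : PrimeSpectrum A) := by
    rw [← PrimeSpectrum.height_eq_orderHeight]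
    exact h2
  obtain ⟨s, hs, hl⟩ := Order.exists_series_of_le_height _ h3
  have h01 : s ⟨0, by omega⟩ < s ⟨1, by omega⟩ := s.strictMono (by
    rw [Fin.lt_def]
    exact Nat.zero_lt_one)
  have h12 : s ⟨1, by omega⟩ < s.last := s.strictMono (by
    rw [Fin.lt_def, Fin.val_last]
    change 1 < s.length
    omega)
  rw [hs] at h12
  refine ⟨(s ⟨1, by omega⟩).asIdeal, (s ⟨1, by omega⟩).isPrime, ?_, ?_⟩
  · exact lt_of_le_of_lt bot_le h01
  · exact h12

end SAF
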