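import Pool.Agent.Lib.MP_dd8365_nt.Gauss
import Pool.Agent.Lib.MP_dd8365_nt.Exp
import Pool.Agent.Lib.MP_dd8365_nt.Height

/-! MP_dd8365_nt (SAF): preparations for the core: moving a rational point. -/

open IsDedekindDomain NumberField

namespace SAF

variable {K : Type} [Field K] [NumberField K]

section prep

open MvPolynomial

/-- a common `ε` for finitely many conditions -/
theorem exists_unif {ι : Type*} (s : Finset ι) (Q : ι → ℝ → Prop)
    (mono : ∀ i a b, 0 < a → a ≤ b → Q i b → Q i a) (h : ∀ i ∈ s, ∃ ε > 0, Q i ε) :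
    ∃ ε > 0, ∀ i ∈ s, Q i ε := by
  classical
  induction s using Finset.induction_on with
  | empty => exact ⟨1, one_pos, by simp⟩
  | insert a s ha ih =>
    obtain ⟨ε1, h1, h1'⟩ := ih (fun i hi => h i (Finset.mem_insert_of_mem hi))
    obtain ⟨ε2, h2, h2'⟩ := h a (Finset.mem_insert_self _ _)
    refine ⟨min ε1 ε2, lt_min h1 h2, fun i hi => ?_⟩
    rcases Finset.mem_insert.1 hi with rfl | hi
    · exact mono _ _ _ (lt_min h1 h2) (min_le_right _ _) h2'
    · exact mono _ _ _ (lt_min h1 h2) (min_le_left _ _) (h1' i hi)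

theorem place_exists (S : Set (Place K)) (hS : S.Finite) (Ω : Finset (Place K)) :
    ∃ v : HeightOneSpectrum (𝓞 K), Sum.inl v ∉ Ω ∧ Sum.inl v ∉ S := by
  by_contra hcon
  push Not at hcon
  have hfin : ((Sum.inl : HeightOneSpectrum (𝓞 K) → Place K) ⁻¹' ((Ω : Set (Place K)) ∪ S)).Finite :=
    Set.Finite.preimage Sum.inl_injective.injOn (Ω.finite_toSet.union hS)
  apply infinite_places (K := K)
  refine hfin.subset (fun v _ => ?_)
  by_cases hv : (Sum.inl v : Place K) ∈ Ω
  · exact Or.inl hv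
  · exact Or.inr (hcon v hv)

theorem SAaff (S : Set (Place K)) (hne : S.Nonempty) (m : ℕ) (Ω : Finset (Place K))
    (hΩ : ∀ p ∈ Ω, p ∉ S) (c : Place K → Fin m → K) {ε : ℝ} (hε : 0 < ε) :
    ∃ t : Fin m → K, (∀ p ∈ Ω, ∀ i, av p (t i - c p i) < ε) ∧
      ∀ v, Sum.inl v ∉ Ω → Sum.inl v ∉ S → ∀ i, av (Sum.inl v) (t i) ≤ 1 := by
  choose t h1 h2 using fun i : Fin m => SA1 S hne Ω hΩ (fun p => c p i) hε
  exact ⟨t, fun p hp i => h1 i p hp, fun v h h' i => h2 i v h h'⟩

/-- continuity, uniformly for finitely many places and polynomials -/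
theorem unif_cont {m N : ℕ} (Ω : Finset (Place K)) (H : Fin N → MvPolynomial (Fin m) K)
    {δ : ℝ} (hδ : 0 < δ) : ∃ ε > 0, ∀ p ∈ Ω, ∀ i, ∀ t : Fin m → K, (∀ j, av p (t j) < ε) →
      av p (eval t (H i) - eval 0 (H i)) < δ := by
  obtain ⟨ε, h0, h⟩ := exists_unif (Ω ×ˢ (Finset.univ : Finset (Fin N)))
    (fun q ε => ∀ t : Fin m → K, (∀ j, av q.1 (t j) < ε) →
      av q.1 (eval t (H q.2) - eval 0 (H q.2)) < δ)
    (fun q a b _ hab hb t ht => hb t (fun j => (ht j).trans_le hab))
    (fun q _ => by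
      obtain ⟨ε, h0, h⟩ := av_cont q.1 (H q.2) 0 hδ
      exact ⟨ε, h0, fun t ht => h t (by simpa using ht)⟩)
  exact ⟨ε, h0, fun p hp i t ht => h (p, i) (by simp [hp]) t ht⟩

theorem core_step1 {N : ℕ} (S : Set (Place K)) (hS : S.Finite) (hne : S.Nonempty) (m : ℕ)
    (F : MvPolynomial (Fin m) K) (hF : F ≠ 0) (Ω : Finset (Place K)) (hΩ : ∀ p ∈ Ω, p ∉ S)
    (H : Fin N → MvPolynomial (Fin m) K) {ε : ℝ} (hε : 0 < ε) :
    ∃ t : Fin m → K, eval t F ≠ 0 ∧
      (∀ p ∈ Ω, ∀ i, av p (eval t (H i) - eval 0 (H i)) < ε) ∧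
      ∀ v, Sum.inl v ∉ Ω → Sum.inl v ∉ S → ∀ i, av (Sum.inl v) (t i) ≤ 1 := by
  classical
  obtain ⟨v1, h1, h1'⟩ := place_exists S hS Ω
  obtain ⟨c, hc, hc'⟩ := av_ne (Sum.inl v1) F hF 0 (one_pos)
  have hpos : 0 < av (Sum.inl v1) (eval c F) := (av (Sum.inl v1)).pos hc'
  obtain ⟨ε1, e1, e1'⟩ := av_cont (Sum.inl v1) F c hpos
  obtain ⟨ε2, e2, e2'⟩ := unif_cont Ω H hε
  obtain ⟨t, ht, ht'⟩ := SAaff S hne m (insert (Sum.inl v1) Ω)
    (fun p hp => by
      rcases Finset.mem_insert.1 hp with rfl | hp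
      · exact h1'
      · exact hΩ p hp)
    (fun p => if p = Sum.inl v1 then c else 0) (lt_min e1 (lt_min e2 one_pos))
  have hv1 : ∀ i, av (Sum.inl v1) (t i - c i) < min ε1 (min ε2 1) := fun i => by
    simpa using ht _ (Finset.mem_insert_self _ _) i
  refine ⟨t, ?_, ?_, ?_⟩
  · intro h
    have := e1' t (fun i => (hv1 i).trans_le (min_le_left _ _))
    rw [h, zero_sub, (av (Sum.inl v1)).map_neg] at this
    exact lt_irrefl _ this
  · intro p hp i
    apply e2' p hp
    intro j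
    have hpv : p ≠ Sum.inl v1 := fun h => h1 (h ▸ hp)
    have := ht p (Finset.mem_insert_of_mem hp) j
    simp only [hpv, if_false, Pi.zero_apply, sub_zero] at this
    exact this.trans_le ((min_le_right _ _).trans (min_le_left _ _))
  · intro v hv hvS i
    by_cases hvv : v = v1
    · subst hvv
      have h2 := (hv1 i).trans_le ((min_le_right _ _).trans (min_le_right _ _))
      have h3 := hc i
      simp only [Pi.zero_apply, sub_zero] at h3
      calc av (Sum.inl v) (t i) = av (Sum.inl v) ((t i - c i) + c i) := by ring_nf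
        _ ≤ max (av (Sum.inl v) (t i - c i)) (av (Sum.inl v) (c i)) := av_add _ _ _
        _ ≤ 1 := max_le h2.le h3.le
    · exact ht' v (by simp [hvv, hv]) hvS i

/-- integrality of finitely many functions at integral points, almost everywhere -/
theorem intg {N : ℕ} (P : Ideal (MvPolynomial (Fin N) K))
    (E : Set (MvPolynomial (Fin N) K ⧸ P)) (hE : E.Finite) :
    {v : HeightOneSpectrum (𝓞 K) | ¬ ∀ χ : (MvPolynomial (Fin N) K ⧸ P) →ₐ[K] K,
      (∀ i, av (Sum.inl v) (χ (Ideal.Quotient.mk P (X i))) ≤ 1) →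
      ∀ a ∈ E, av (Sum.inl v) (χ a) ≤ 1}.Finite := by
  choose f hf using fun a : MvPolynomial (Fin N) K ⧸ P => Ideal.Quotient.mk_surjective a
  have hfin : (⋃ a ∈ E, ⋃ n ∈ (f a).support,
      {v : HeightOneSpectrum (𝓞 K) | ¬ av (Sum.inl v) ((f a).coeff n) ≤ 1}).Finite :=
    hE.biUnion (fun a _ => (Finset.finite_toSet _).biUnion (fun n _ => av_bad' _))
  refine hfin.subset (fun v hv => ?_)
  by_contra hcon
  apply hv
  intro χ hχ a ha
  have key : χ a = eval (fun i => χ (Ideal.Quotient.mk P (X i))) (f a) := by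
    conv_lhs => rw [← hf a]
    have : (χ.comp (Ideal.Quotient.mkₐ K P)) =
        aeval (fun i => χ (Ideal.Quotient.mk P (X i))) := by
      ext i
      simp
    have h2 := congrArg (fun ψ => ψ (f a)) this
    simpa [MvPolynomial.aeval_eq_eval] using h2
  rw [key]
  refine av_eval_le v (f a) (fun n => ?_) _ hχ
  by_cases hn : n ∈ (f a).support
  · by_contra h
    exact hcon (Set.mem_biUnion ha (Set.mem_biUnion (by exact hn) h))
  · rw [MvPolynomial.notMem_support_iff.1 hn, map_zero]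
    exact zero_le_one

theorem exists_map_lift {N : ℕ} (d : 𝓞 K) (g : MvPolynomial (Fin N) K)
    (h : ∀ n ∈ g.support, IsLocalization.IsInteger (𝓞 K) (d • g.coeff n)) :
    ∃ g' : MvPolynomial (Fin N) (𝓞 K),
      MvPolynomial.map (algebraMap (𝓞 K) K) g' = MvPolynomial.C (d : K) * g := by
  have h' : ∀ n, ∃ a : 𝓞 K, (a : K) = d * g.coeff n := by
    intro n
    by_cases hn : n ∈ g.support
    · obtain ⟨a, ha⟩ := h n hn
      exact ⟨a, by rw [Algebra.smul_def] at ha; exact ha⟩
    · exact ⟨0, by rw [MvPolynomial.notMem_support_iff.1 hn]; simp⟩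
  choose a ha using h'
  refine ⟨∑ n ∈ g.support, MvPolynomial.monomial n (a n), ?_⟩
  rw [map_sum]
  conv_rhs => rw [MvPolynomial.as_sum g, Finset.mul_sum]
  refine Finset.sum_congr rfl (fun n _ => ?_)
  rw [MvPolynomial.map_monomial, MvPolynomial.C_mul_monomial, ← ha]

theorem av_sum_lt {ι : Type*} (s : Finset ι) (v : HeightOneSpectrum (𝓞 K)) (f : ι → K)
    (hf : ∀ i ∈ s, av (Sum.inl v) (f i) < 1) : av (Sum.inl v) (∑ i ∈ s, f i) < 1 := by
  classical
  induction s using Finset.induction_on with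
  | empty => simp
  | insert a s ha ih =>
    rw [Finset.sum_insert ha]
    refine (av_add _ _ _).trans_lt (max_lt (hf a (Finset.mem_insert_self _ _))
      (ih (fun i hi => hf i (Finset.mem_insert_of_mem hi))))

theorem totalDegree_map_le' {m : ℕ} {R R' : Type} [CommRing R] [CommRing R'] (f : R →+* R')
    (p : MvPolynomial (Fin m) R) : (MvPolynomial.map f p).totalDegree ≤ p.totalDegree := by
  rw [MvPolynomial.totalDegree, MvPolynomial.totalDegree]
  exact Finset.sup_mono (MvPolynomial.support_map_subset _ _)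

theorem lam_ne {A : Type} [CommRing A] [Algebra K A] (L : List (LND K A)) {g : A} (hg : g ≠ 0) :
    lam L g ≠ 0 := by
  intro h
  apply hg
  rw [← lam_zero L g, h, map_zero]

/-- the move of a `K`-point -/
noncomputable def mv {A : Type} [CommRing A] [Algebra K A] (L : List (LND K A)) (χ : A →ₐ[K] K)
    (t : Fin L.length → K) : A →ₐ[K] K :=
  (aeval t).comp ((mapAlgHom χ).comp (lam L))

theorem mv_apply {A : Type} [CommRing A] [Algebra K A] (L : List (LND K A)) (χ : A →ₐ[K] K)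
    (t : Fin L.length → K) (a : A) : mv L χ t a = eval t (MvPolynomial.map χ.toRingHom (lam L a)) := by
  simp [mv, MvPolynomial.aeval_eq_eval]

theorem mv_zero {A : Type} [CommRing A] [Algebra K A] (L : List (LND K A)) (χ : A →ₐ[K] K)
    (a : A) : eval 0 (MvPolynomial.map χ.toRingHom (lam L a)) = χ a := by
  have h := lam_zero L a
  conv_rhs => rw [← h]
  rw [MvPolynomial.eval_zero, MvPolynomial.eval_zero, MvPolynomial.constantCoeff_map]
  rfl

end prep

end SAF
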