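import Pool.Agent.Lib.MP_dd8365_nt.Core2

/-! MP_dd8365_nt (SAF): the core for an arbitrary set of locally nilpotent derivations:
Noetherian induction over the stable closed subsets. -/

open IsDedekindDomain NumberField

namespace SAF

variable {K : Type} [Field K]

section stable

variable {A : Type} [CommRing A] [Algebra K A]

/-- every point of `V(I) \ V(I0)` which lies on a stable irreducible closed subset has codimension
at least two in it -/
def Cod (𝒟 : Set (Derivation K A A)) (IA I0A : Ideal A) : Prop :=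
  ∀ w q : Ideal A, w.IsPrime → q.IsPrime → Stable 𝒟 w → w ≤ q → IA ≤ q → ¬ I0A ≤ q →
    ∃ w1 : Ideal A, w1.IsPrime ∧ w < w1 ∧ w1 < q

/-- minimal primes of stable ideals are stable (characteristic zero) -/
theorem minimal_stable [CharZero K] (𝒟 : Set (Derivation K A A)) (J : Ideal A) (hJ : Stable 𝒟 J)
    (w : Ideal A) (hw : w ∈ J.minimalPrimes) : Stable 𝒟 w := by
  intro D hD
  have hwp : w.IsPrime := hw.1.1
  have hJw : J ≤ w := hw.1.2
  have hleib : ∀ (n : ℕ) (a b : A), (⇑D)^[n] (a * b) =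
      ∑ i ∈ Finset.range (n + 1), (n.choose i : A) * ((⇑D)^[i] a * (⇑D)^[n - i] b) := by
    intro n a b
    rw [iterate_mul', Finset.Nat.sum_antidiagonal_eq_sum_range_succ_mk]
    refine Finset.sum_congr rfl (fun i _ => ?_)
    rw [nsmul_eq_mul]
  let c : Ideal A :=
    { carrier := {a | ∀ n : ℕ, (⇑D)^[n] a ∈ w}
      add_mem' := by
        intro a b ha hb n
        rw [iterate_map_add]
        exact w.add_mem (ha n) (hb n)
      zero_mem' := by
        intro n
        rw [iterate_map_zero]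
        exact w.zero_mem
      smul_mem' := by
        intro r a ha n
        rw [smul_eq_mul, hleib]
        exact w.sum_mem fun i _ => w.mul_mem_left _ (w.mul_mem_left _ (ha _)) }
  have hcw : c ≤ w := fun a ha => ha 0
  have hJc : J ≤ c := by
    intro a ha n
    apply hJw
    induction n with
    | zero => exact ha
    | succ n ih =>
      rw [Function.iterate_succ_apply']
      exact hJ D hD _ ih
  have hcp : c.IsPrime := by
    refine ⟨fun h => hwp.ne_top (top_le_iff.1 (h ▸ hcw)), ?_⟩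
    intro a b hab
    by_contra hcon
    push Not at hcon
    obtain ⟨ha, hb⟩ := hcon
    have ha' : ∃ n, (⇑D)^[n] a ∉ w := by
      by_contra h
      push Not at h
      exact ha h
    have hb' : ∃ n, (⇑D)^[n] b ∉ w := by
      by_contra h
      push Not at h
      exact hb h
    classical
    obtain ⟨n, hn, hn'⟩ : ∃ n, (⇑D)^[n] a ∉ w ∧ ∀ k < n, (⇑D)^[k] a ∈ w :=
      ⟨Nat.find ha', Nat.find_spec ha', fun k hk => by
        have := Nat.find_min ha' hk
        simpa using this⟩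
    obtain ⟨m, hm, hm'⟩ : ∃ n, (⇑D)^[n] b ∉ w ∧ ∀ k < n, (⇑D)^[k] b ∈ w :=
      ⟨Nat.find hb', Nat.find_spec hb', fun k hk => by
        have := Nat.find_min hb' hk
        simpa using this⟩
    have h1 := hab (n + m)
    rw [hleib] at h1
    have h2 : ∀ i ∈ Finset.range (n + m + 1), i ≠ n →
        ((n + m).choose i : A) * ((⇑D)^[i] a * (⇑D)^[n + m - i] b) ∈ w := by
      intro i hi hin
      rcases lt_or_gt_of_ne hin with h | h
      · exact w.mul_mem_left _ (w.mul_mem_right _ (hn' i h))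
      · have hi' : i < n + m + 1 := Finset.mem_range.1 hi
        exact w.mul_mem_left _ (w.mul_mem_left _ (hm' _ (by omega)))
    rw [← Finset.add_sum_erase _ _ (Finset.mem_range.2 (by omega : n < n + m + 1))] at h1
    have h3 : ∑ i ∈ (Finset.range (n + m + 1)).erase n,
        ((n + m).choose i : A) * ((⇑D)^[i] a * (⇑D)^[n + m - i] b) ∈ w :=
      w.sum_mem fun i hi => h2 i (Finset.mem_of_mem_erase hi) (Finset.ne_of_mem_erase hi)
    have h4 := (w.add_mem_iff_left h3).1 h1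
    rw [Nat.add_sub_cancel_left] at h4
    rcases hwp.mem_or_mem h4 with h5 | h5
    · have hne : ((n + m).choose n : K) ≠ 0 := by
        rw [Nat.cast_ne_zero]
        exact (Nat.choose_pos (by omega)).ne'
      have hunit : IsUnit (((n + m).choose n : ℕ) : A) := by
        have := (isUnit_iff_ne_zero.2 hne).map (algebraMap K A)
        rwa [map_natCast] at this
      exact hwp.ne_top (Ideal.eq_top_of_isUnit_mem _ h5 hunit)
    · rcases hwp.mem_or_mem h5 with h6 | h6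
      · exact hn h6
      · exact hm h6
  have hcc : w ≤ c := hw.2 ⟨hcp, hJc⟩ hcw
  intro a ha
  exact hcc ha 1

/-- induced derivation on the quotient by a stable ideal -/
theorem exists_quot (D : Derivation K A A) (w : Ideal A) (hw : ∀ a ∈ w, D a ∈ w) :
    ∃ D' : Derivation K (A ⧸ w) (A ⧸ w), ∀ a, D' (Ideal.Quotient.mk w a) =
      Ideal.Quotient.mk w (D a) := by
  have hle : w.restrictScalars K ≤ (w.restrictScalars K).comap (D : A →ₗ[K] A) := fun a ha => hw a ha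
  let f0 : (A ⧸ w.restrictScalars K) →ₗ[K] (A ⧸ w.restrictScalars K) :=
    Submodule.mapQ _ _ (D : A →ₗ[K] A) hle
  let e := Submodule.Quotient.restrictScalarsEquiv K w
  let f : (A ⧸ w) →ₗ[K] (A ⧸ w) := (e.toLinearMap.comp f0).comp e.symm.toLinearMap
  have hf : ∀ a, f (Ideal.Quotient.mk w a) = Ideal.Quotient.mk w (D a) := fun a => rfl
  refine ⟨Derivation.mk' f ?_, hf⟩
  intro a b
  obtain ⟨a, rfl⟩ := Ideal.Quotient.mk_surjective a
  obtain ⟨b, rfl⟩ := Ideal.Quotient.mk_surjective b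
  rw [← map_mul, hf, hf, hf, Derivation.leibniz, map_add, smul_eq_mul, smul_eq_mul, map_mul,
    map_mul, smul_eq_mul, smul_eq_mul]

/-- the induced derivations on a quotient -/
def quotD (𝒟 : Set (Derivation K A A)) (w : Ideal A) : Set (Derivation K (A ⧸ w) (A ⧸ w)) :=
  {D' | ∃ D ∈ 𝒟, ∀ a, D' (Ideal.Quotient.mk w a) = Ideal.Quotient.mk w (D a)}

theorem quotD_nil {𝒟 : Set (Derivation K A A)} (hnil : ∀ D ∈ 𝒟, ∀ a, ∃ n : ℕ, (⇑D)^[n] a = 0)
    (w : Ideal A) : ∀ D ∈ quotD 𝒟 w, ∀ a, ∃ n : ℕ, (⇑D)^[n] a = 0 := by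
  rintro D' ⟨D, hD, h⟩ b
  obtain ⟨a, rfl⟩ := Ideal.Quotient.mk_surjective b
  obtain ⟨n, hn⟩ := hnil D hD a
  refine ⟨n, ?_⟩
  have h1 : ∀ n, (⇑D')^[n] (Ideal.Quotient.mk w a) = Ideal.Quotient.mk w ((⇑D)^[n] a) := by
    intro n
    induction n with
    | zero => rfl
    | succ n ih => rw [Function.iterate_succ_apply', Function.iterate_succ_apply', ih, h]
  rw [h1, hn, map_zero]

theorem quotD_stable {𝒟 : Set (Derivation K A A)} {J : Ideal A} (hJ : Stable 𝒟 J)
    (w : Ideal A) : Stable (quotD 𝒟 w) (J.map (Ideal.Quotient.mk w)) := by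
  rintro D' ⟨D, hD, h⟩ b hb
  obtain ⟨a, ha, rfl⟩ := (Ideal.mem_map_iff_of_surjective _ Ideal.Quotient.mk_surjective).1 hb
  rw [h]
  exact Ideal.mem_map_of_mem _ (hJ D hD a ha)

theorem quotD_comap {𝒟 : Set (Derivation K A A)} {w : Ideal A} (hw : Stable 𝒟 w)
    {w' : Ideal (A ⧸ w)} (hw' : Stable (quotD 𝒟 w) w') :
    Stable 𝒟 (w'.comap (Ideal.Quotient.mk w)) := by
  intro D hD a ha
  obtain ⟨D', hD'⟩ := exists_quot D w (hw D hD)
  rw [Ideal.mem_comap, ← hD']
  exact hw' D' ⟨D, hD, hD'⟩ _ ha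

theorem quot_cod {𝒟 : Set (Derivation K A A)} {IA I0A : Ideal A} (h : Cod 𝒟 IA I0A) {w : Ideal A}
    (hw : Stable 𝒟 w) : Cod (quotD 𝒟 w) (IA.map (Ideal.Quotient.mk w))
      (I0A.map (Ideal.Quotient.mk w)) := by
  intro w' q' hw'p hq'p hw's hle hI hI0
  have hsurj := Ideal.Quotient.mk_surjective (I := w)
  obtain ⟨w1, hw1p, h1, h2⟩ := h (w'.comap (Ideal.Quotient.mk w)) (q'.comap (Ideal.Quotient.mk w))
    (Ideal.comap_isPrime _ _) (Ideal.comap_isPrime _ _) (quotD_comap hw hw's)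
    (Ideal.comap_mono hle) (Ideal.map_le_iff_le_comap.1 hI)
    (fun h => hI0 (Ideal.map_le_iff_le_comap.2 h))
  have hker : RingHom.ker (Ideal.Quotient.mk w) ≤ w1 := by
    refine le_trans ?_ h1.le
    intro a ha
    rw [Ideal.mem_comap, (RingHom.mem_ker).1 ha]
    exact w'.zero_mem
  have hcm : (w1.map (Ideal.Quotient.mk w)).comap (Ideal.Quotient.mk w) = w1 := by
    rw [Ideal.comap_map_of_surjective _ hsurj]
    exact sup_eq_left.2 hker
  refine ⟨w1.map (Ideal.Quotient.mk w), Ideal.map_isPrime_of_surjective hsurj hker, ?_, ?_⟩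
  · refine lt_of_le_of_ne ?_ ?_
    · rw [← Ideal.map_comap_of_surjective _ hsurj w']
      exact Ideal.map_mono h1.le
    · intro heq
      rw [heq, hcm] at h1
      exact lt_irrefl _ h1
  · refine lt_of_le_of_ne ?_ ?_
    · rw [← Ideal.map_comap_of_surjective _ hsurj q']
      exact Ideal.map_mono h2.le
    · intro heq
      rw [← heq, hcm] at h2
      exact lt_irrefl _ h2

end stable

/-- integrality of finitely many functions at integral points, almost everywhere -/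
theorem intg' {K : Type} [Field K] [NumberField K] {N : ℕ} {A : Type} [CommRing A] [Algebra K A]
    (π : MvPolynomial (Fin N) K →ₐ[K] A) (hπ : Function.Surjective π)
    (E : Set A) (hE : E.Finite) :
    {v : HeightOneSpectrum (𝓞 K) | ¬ ∀ χ : A →ₐ[K] K,
      (∀ i, av (Sum.inl v) (χ (π (MvPolynomial.X i))) ≤ 1) →
      ∀ a ∈ E, av (Sum.inl v) (χ a) ≤ 1}.Finite := by
  choose f hf using hπ
  have hfin : (⋃ a ∈ E, ⋃ n ∈ (f a).support,
      {v : HeightOneSpectrum (𝓞 K) | ¬ av (Sum.inl v) ((f a).coeff n) ≤ 1}).Finite :=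
    hE.biUnion (fun a _ => (Finset.finite_toSet _).biUnion (fun n _ => av_bad' _))
  refine hfin.subset (fun v hv => ?_)
  by_contra hcon
  apply hv
  intro χ hχ a ha
  have key : χ a = MvPolynomial.eval (fun i => χ (π (MvPolynomial.X i))) (f a) := by
    conv_lhs => rw [← hf a]
    have : (χ.comp π) =
        MvPolynomial.aeval (fun i => χ (π (MvPolynomial.X i))) := by
      ext i
      simp
    have h2 := congrArg (fun ψ => ψ (f a)) this
    simpa [MvPolynomial.aeval_eq_eval] using h2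
  rw [key]
  refine av_eval_le v (f a) (fun n => ?_) _ hχ
  by_cases hn : n ∈ (f a).support
  · by_contra h
    exact hcon (Set.mem_biUnion ha (Set.mem_biUnion (by exact hn) h))
  · rw [MvPolynomial.notMem_support_iff.1 hn, map_zero]
    exact zero_le_one

/-- the body of `CoreStm2`, with `Ω0` fixed -/
def CoreBody {K : Type} [Field K] [NumberField K] {N : ℕ}
    (P I0 I : Ideal (MvPolynomial (Fin N) K)) (S : Set (Place K))
    (Ω0 : Finset (HeightOneSpectrum (𝓞 K))) : Prop :=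
  ∀ x0 : Fin N → K, x0 ∈ Pts P I K →
    ∀ Ω : Finset (Place K), (∀ p ∈ Ω, p ∉ S) → (∀ v ∈ Ω0, Sum.inl v ∉ S → Sum.inl v ∈ Ω) →
    (∀ v, Sum.inl v ∉ Ω → Sum.inl v ∉ S → (∀ i, av (Sum.inl v) (x0 i) ≤ 1) ∧
      ∃ g : MvPolynomial (Fin N) (𝓞 K), MvPolynomial.map (algebraMap (𝓞 K) K) g ∈ I0 ∧
        av (Sum.inl v) (MvPolynomial.aeval x0 (MvPolynomial.map (algebraMap (𝓞 K) K) g)) = 1) →
    ∀ ε : ℝ, 0 < ε → ∃ y ∈ Pts P I K, (∀ p ∈ Ω, ∀ i, av p (y i - x0 i) < ε) ∧
      ∀ v, Sum.inl v ∉ Ω → Sum.inl v ∉ S → (∀ i, av (Sum.inl v) (y i) ≤ 1) ∧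
        ∃ g : MvPolynomial (Fin N) (𝓞 K), MvPolynomial.map (algebraMap (𝓞 K) K) g ∈ I ∧
          av (Sum.inl v) (MvPolynomial.aeval y (MvPolynomial.map (algebraMap (𝓞 K) K) g)) = 1

theorem core3 {K : Type} [Field K] [NumberField K] {N : ℕ}
    (I0 I : Ideal (MvPolynomial (Fin N) K)) (hI0 : I ≤ I0)
    (S : Set (Place K)) (hS : S.Finite) (hne : S.Nonempty) (P : Ideal (MvPolynomial (Fin N) K)) :
    ∀ (A : Type) [CommRing A] [IsDomain A] [Algebra K A]
    (π : MvPolynomial (Fin N) K →ₐ[K] A), Function.Surjective π → RingHom.ker π = P →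
    ∀ (𝒟 : Set (Derivation K A A)), (∀ D ∈ 𝒟, ∀ a, ∃ n : ℕ, (⇑D)^[n] a = 0) →
    Stable 𝒟 (I0.map π) → Cod 𝒟 (I.map π) (I0.map π) → CoreStm2 P I0 I S := by
  induction P using WellFoundedGT.induction with
  | ind P IH =>
  intro A _ _ _ π hπ hker 𝒟 hnil hst hcod
  classical
  have hAN : IsNoetherianRing A := isNoetherianRing_of_surjective _ _ π.toRingHom hπ
  have hmemP : ∀ p, p ∈ P ↔ π p = 0 := fun p => by rw [← hker, RingHom.mem_ker]
  have hP : P.IsPrime := by
    rw [← hker]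
    exact RingHom.ker_isPrime _
  by_cases hbot0 : I0.map π = ⊥
  · -- no points at all
    refine ⟨∅, fun x0 hx0 => ?_⟩
    exfalso
    obtain ⟨hxP, g, hg, hg0⟩ := hx0
    apply hg0
    apply hxP
    have h1 := Ideal.mem_map_of_mem π (hI0 hg)
    rw [hbot0, Ideal.mem_bot] at h1
    exact (hmemP g).2 h1
  obtain ⟨s, hs⟩ : I.FG := (isNoetherianRing_iff_ideal_fg _).1 inferInstance I
  set sA : Finset A := s.image π with hsA
  have hspan : Ideal.span (sA : Set A) = I.map π := by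
    rw [← hs, Ideal.map_span, hsA, Finset.coe_image]
  obtain ⟨s0A, hs0⟩ : (I0.map π).FG := (isNoetherianRing_iff_ideal_fg _).1 inferInstance _
  have hle0 : Ideal.span (sA : Set A) ≤ I0.map π := by
    rw [hspan]
    exact Ideal.map_mono hI0
  have hs0mem : ∀ a ∈ s0A, a ∈ I0.map π := fun a ha => hs0 ▸ Ideal.subset_span ha
  -- integral generators of the model of the complement of `U`
  obtain ⟨γ, hγ1, hγ2⟩ := model_fg I0
  set γA : Finset A := γ.image (fun g => π (MvPolynomial.map (algebraMap (𝓞 K) K) g)) with hγA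
  have hγAmem : ∀ a ∈ γA, a ∈ I0.map π := by
    intro a ha
    obtain ⟨g, hg, rfl⟩ := Finset.mem_image.1 ha
    exact Ideal.mem_map_of_mem π (hγ1 g hg)
  -- the second composition
  have hbs : Stable 𝒟 (⊥ : Ideal A) := by
    intro D _ a ha
    rw [(Ideal.mem_bot).1 ha, map_zero]
    exact Ideal.zero_mem _
  have hcod0 : ∀ q : Ideal A, q.IsPrime → I.map π ≤ q → ¬ I0.map π ≤ q →
      ∃ q1 : Ideal A, q1.IsPrime ∧ ⊥ < q1 ∧ q1 < q := fun q hq h1 h2 =>
    hcod ⊥ q Ideal.isPrime_bot hq hbs bot_le h1 h2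
  have hIbot : Ideal.span (sA : Set A) ≠ ⊥ := by
    intro hb
    obtain ⟨q1, -, h1, h2⟩ := hcod0 ⊥ Ideal.isPrime_bot (by rw [← hspan, hb])
      (fun h => hbot0 (le_bot_iff.1 h))
    exact lt_irrefl _ (h1.trans h2)
  obtain ⟨JI, hJI1, hJI2, hJI3⟩ := exists_chain2 𝒟 hnil (Ideal.span (sA : Set A))
  have hrad : I0.map π ≤ JI.radical := by
    rw [← Ideal.sInf_minimalPrimes]
    refine le_sInf (fun w hw => ?_)
    by_contra hcon
    obtain ⟨w1, -, h1, h2⟩ := hcod w w hw.1.1 hw.1.1 (minimal_stable 𝒟 JI hJI2 w hw) le_rfl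
      ((hspan ▸ hJI1).trans hw.1.2) hcon
    exact lt_irrefl _ (h1.trans h2)
  have hpow : ∀ a : A, ∃ k : ℕ, a ∈ I0.map π → a ^ k ∈ JI := by
    intro a
    by_cases ha : a ∈ I0.map π
    · obtain ⟨k, hk⟩ := Ideal.mem_radical_iff.1 (hrad ha)
      exact ⟨k, fun _ => hk⟩
    · exact ⟨0, fun h => absurd h ha⟩
  choose kk hkk using hpow
  obtain ⟨L2, hL2𝒟, hL2⟩ := hJI3 (s0A.image fun a => a ^ kk a) (by
    intro a ha
    obtain ⟨b, hb, rfl⟩ := Finset.mem_image.1 ha
    exact hkk b (hs0mem b hb))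
  obtain ⟨h, hh0, hgood⟩ := good_spec L2.length ((lam L2) '' (sA : Set A))
    (sA.finite_toSet.image _) (good_G2 𝒟 L2 hL2𝒟 (I0.map π) hbot0 hst sA
      (fun q hq h1 h2 => hcod0 q hq (by rw [← hspan]; exact h1) h2))
  -- the first composition
  obtain ⟨Jh, hJh1, hJh2, hJh3⟩ := exists_chain2 𝒟 hnil (Ideal.span {h})
  have hhJ : h ∈ Jh := hJh1 (Ideal.mem_span_singleton_self h)
  obtain ⟨fh, hfh⟩ : Jh.FG := (isNoetherianRing_iff_ideal_fg _).1 inferInstance _
  obtain ⟨L1, hL1𝒟, hL1⟩ := hJh3 fh (fun a ha => hfh ▸ Ideal.subset_span ha)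
  -- coefficient sets
  set E2 : Set A := {a | ∃ g ∈ sA, ∃ n, a = (lam L2 g).coeff n} with hE2
  have coefffin : ∀ (m : ℕ) (f : MvPolynomial (Fin m) A), (Set.range fun n => f.coeff n).Finite := by
    intro m f
    refine ((f.support.finite_toSet.image (fun n => f.coeff n)).union
      (Set.finite_singleton (0 : A))).subset ?_
    rintro _ ⟨n, rfl⟩
    by_cases hn : n ∈ f.support
    · exact Or.inl ⟨n, hn, rfl⟩
    · exact Or.inr (MvPolynomial.notMem_support_iff.1 hn)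
  have hE2fin : E2.Finite := by
    refine (sA.finite_toSet.biUnion (fun g _ => coefffin _ (lam L2 g))).subset ?_
    rintro _ ⟨g, hg, n, rfl⟩
    exact Set.mem_biUnion hg ⟨n, rfl⟩
  obtain ⟨E2f, hE2f⟩ : ∃ E2f : Finset A, (E2f : Set A) = E2 := ⟨hE2fin.toFinset, by simp⟩
  -- the relations
  obtain ⟨R0, hR0⟩ := rel_span (K := K) ⊥ s0A γA (by
    intro b hb
    rw [bot_sup_eq, hs0]
    exact Ideal.le_radical (hγAmem b hb))
  obtain ⟨R1, hR1⟩ := rel_lam L1 s0A s0A (by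
    intro b hb
    rw [hs0, ← map_lam hst L1 hL1𝒟]
    exact Ideal.mem_map_of_mem _ (hs0mem b hb))
  obtain ⟨R2, hR2⟩ := rel_span (K := K) ⊥ E2f s0A (by
    intro b hb
    rw [bot_sup_eq, hE2f, Ideal.mem_radical_iff]
    exact ⟨kk b, cover2 L2 sA (hL2 _ (Finset.mem_image_of_mem _ hb))⟩)
  -- the induction hypothesis for the components of the set where all of `Jh` vanishes
  obtain ⟨R3, hR3⟩ : ∃ R3 : Finset (HeightOneSpectrum (𝓞 K)), ∀ w ∈ Jh.minimalPrimes,
      CoreBody (w.comap π) I0 I S R3 := by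
    have hfinm : (Jh.minimalPrimes).Finite := Ideal.finite_minimalPrimes_of_isNoetherianRing A Jh
    obtain ⟨R3, hR3⟩ := exists_finset_union hfinm.toFinset
      (fun w R => CoreBody (w.comap π) I0 I S R)
      (fun w E E' hEE hE x0 hx0 Ω h1 h2 => hE x0 hx0 Ω h1 (fun v hv => h2 v (hEE hv)))
      (fun w hw => by
        have hw' : w ∈ Jh.minimalPrimes := hfinm.mem_toFinset.1 hw
        have hwp : w.IsPrime := hw'.1.1
        have hws := minimal_stable 𝒟 Jh hJh2 w hw'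
        have hwh : h ∈ w := hw'.1.2 hhJ
        have hlt : P < w.comap π := by
          refine lt_of_le_of_ne (fun p hp => ?_) (fun heq => ?_)
          · rw [Ideal.mem_comap, (hmemP p).1 hp]
            exact w.zero_mem
          · obtain ⟨f, hf⟩ := hπ h
            have h1 : f ∈ w.comap π := by
              rw [Ideal.mem_comap, hf]
              exact hwh
            rw [← heq, hmemP, hf] at h1
            exact hh0 h1
        have hmap : ∀ J : Ideal (MvPolynomial (Fin N) K),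
            J.map ((Ideal.Quotient.mkₐ K w).comp π) = (J.map π).map (Ideal.Quotient.mk w) := by
          intro J
          exact (Ideal.map_mapₐ π (Ideal.Quotient.mkₐ K w)).symm
        refine IH _ hlt (A ⧸ w) ((Ideal.Quotient.mkₐ K w).comp π)
          ((Ideal.Quotient.mkₐ_surjective K w).comp hπ) ?_ (quotD 𝒟 w) (quotD_nil hnil w) ?_ ?_
        · ext p
          rw [RingHom.mem_ker, Ideal.mem_comap]
          exact Ideal.Quotient.eq_zero_iff_mem
        · rw [hmap]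
          exact quotD_stable hst w
        · rw [hmap, hmap]
          exact quot_cod hcod hws)
    exact ⟨R3, fun w hw => hR3 w (hfinm.mem_toFinset.2 hw)⟩
  -- all functions which should be integral
  set E : Set A := ((⋃ i : Fin N, Set.range fun n => (lam L1 (π (MvPolynomial.X i))).coeff n) ∪
    (⋃ i : Fin N, Set.range fun n => (lam L2 (π (MvPolynomial.X i))).coeff n)) ∪
    (E2 ∪ (((R0 : Set A) ∪ R1) ∪ (R2 : Set A))) with hE
  have hEfin : E.Finite :=
    ((Set.finite_iUnion (fun i => coefffin _ _)).union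
      (Set.finite_iUnion (fun i => coefffin _ _))).union
      (hE2fin.union ((R0.finite_toSet.union R1.finite_toSet).union R2.finite_toSet))
  -- denominators of the generators
  obtain ⟨d, hd0, hd⟩ : ∃ d : 𝓞 K, d ≠ 0 ∧ ∀ g ∈ s, ∃ g' : MvPolynomial (Fin N) (𝓞 K),
      MvPolynomial.map (algebraMap (𝓞 K) K) g' = MvPolynomial.C (d : K) * g := by
    obtain ⟨d, hd⟩ := IsLocalization.exist_integer_multiples_of_finset (nonZeroDivisors (𝓞 K))
      (s.biUnion (fun g => g.support.image (fun n => g.coeff n)) : Finset K)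
    refine ⟨d, nonZeroDivisors.coe_ne_zero d, fun g hg => ?_⟩
    exact exists_map_lift (d : 𝓞 K) g (fun n hn => hd _ (by
      rw [Finset.mem_biUnion]
      exact ⟨g, hg, Finset.mem_image_of_mem _ hn⟩))
  -- bad places
  set D : ℕ := ∑ g ∈ sA, (lam L2 g).totalDegree with hD
  set bad : Set (HeightOneSpectrum (𝓞 K)) := {v | ¬ ∀ χ : A →ₐ[K] K,
      (∀ i, av (Sum.inl v) (χ (π (MvPolynomial.X i))) ≤ 1) →
      ∀ a ∈ E, av (Sum.inl v) (χ a) ≤ 1} ∪ ({v | Ideal.absNorm v.asIdeal ≤ D} ∪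
      {v | av (Sum.inl v) (d : K) ≠ 1}) with hbad
  have hbadfin : bad.Finite := (intg' π hπ E hEfin).union ((small_norm D).union (av_bad (by
    simpa using hd0)))
  refine ⟨hbadfin.toFinset ∪ R3, ?_⟩
  intro x0 hx0 Ω hΩ hΩ0 hU0 ε hε
  have hbad' : ∀ v, Sum.inl v ∉ Ω → Sum.inl v ∉ S → v ∉ bad := by
    intro v hv hvS hvb
    exact hv (hΩ0 v (Finset.mem_union_left _ (hbadfin.mem_toFinset.2 hvb)) hvS)
  have badE : ∀ v, Sum.inl v ∉ Ω → Sum.inl v ∉ S → ∀ χ : A →ₐ[K] K,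
      (∀ i, av (Sum.inl v) (χ (π (MvPolynomial.X i))) ≤ 1) →
      ∀ a ∈ E, av (Sum.inl v) (χ a) ≤ 1 := by
    intro v hv hvS
    by_contra hcon
    exact hbad' v hv hvS (Or.inl hcon)
  have badD : ∀ v, Sum.inl v ∉ Ω → Sum.inl v ∉ S → D < Ideal.absNorm v.asIdeal := by
    intro v hv hvS
    by_contra hcon
    exact hbad' v hv hvS (Or.inr (Or.inl (not_lt.1 hcon)))
  have badd : ∀ v, Sum.inl v ∉ Ω → Sum.inl v ∉ S → av (Sum.inl v) (d : K) = 1 := by
    intro v hv hvS
    by_contra hcon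
    exact hbad' v hv hvS (Or.inr (Or.inr hcon))
  -- the point as a homomorphism
  obtain ⟨hxP, gI, hgI, hgI0⟩ := hx0
  obtain ⟨χ0, hχ0mk⟩ : ∃ χ0 : A →ₐ[K] K, ∀ f, χ0 (π f) = MvPolynomial.aeval x0 f := by
    let e := Ideal.quotientKerAlgEquivOfSurjective hπ
    have hk : ∀ a ∈ RingHom.ker π, MvPolynomial.aeval x0 a = 0 := fun a ha =>
      hxP a (hker ▸ ha)
    refine ⟨(Ideal.Quotient.liftₐ (RingHom.ker π) (MvPolynomial.aeval x0) hk).comp
      e.symm.toAlgHom, fun f => ?_⟩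
    have h1 : e.symm (π f) = Ideal.Quotient.mk _ f := by
      rw [AlgEquiv.symm_apply_eq]
      rfl
    change (Ideal.Quotient.liftₐ (RingHom.ker π) (MvPolynomial.aeval x0) hk) (e.symm (π f)) = _
    rw [h1]
    rfl
  have int0 : ∀ v, Sum.inl v ∉ Ω → Sum.inl v ∉ S → ∀ i,
      av (Sum.inl v) (χ0 (π (MvPolynomial.X i))) ≤ 1 := by
    intro v hv hvS i
    rw [hχ0mk, MvPolynomial.aeval_X]
    exact (hU0 v hv hvS).1 i
  have unit0 : ∀ v, Sum.inl v ∉ Ω → Sum.inl v ∉ S → ∃ g ∈ s0A, 1 ≤ av (Sum.inl v) (χ0 g) := by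
    intro v hv hvS
    refine hR0 v χ0 (fun a ha => by rw [(Ideal.mem_bot.1 ha), map_zero])
      (fun a ha => badE v hv hvS χ0 (int0 v hv hvS) a
        (Or.inr (Or.inr (Or.inl (Or.inl ha))))) ?_
    obtain ⟨g, hg, hg1⟩ := hγ2 v x0 (hU0 v hv hvS).1 (hU0 v hv hvS).2
    exact ⟨_, Finset.mem_image_of_mem _ hg, by rw [hχ0mk]; exact hg1⟩
  -- an integral function in `I`
  have finish : ∀ v, Sum.inl v ∉ Ω → Sum.inl v ∉ S → ∀ (χ : A →ₐ[K] K) (y : Fin N → K),
      (∀ f : MvPolynomial (Fin N) K, MvPolynomial.aeval y f = χ (π f)) → (∃ g ∈ sA, av (Sum.inl v) (χ g) = 1) →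
      ∃ g : MvPolynomial (Fin N) (𝓞 K), MvPolynomial.map (algebraMap (𝓞 K) K) g ∈ I ∧
          av (Sum.inl v) (MvPolynomial.aeval y (MvPolynomial.map (algebraMap (𝓞 K) K) g)) = 1 := by
    rintro v hv hvS χ y hya ⟨gA, hgA, h2⟩
    obtain ⟨g, hg, rfl⟩ := Finset.mem_image.1 hgA
    obtain ⟨g', hg'⟩ := hd g hg
    refine ⟨g', ?_, ?_⟩
    · rw [hg']
      exact I.mul_mem_left _ (hs ▸ Ideal.subset_span hg)
    · rw [hg', map_mul, MvPolynomial.aeval_C, map_mul, hya, h2, mul_one]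
      exact badd v hv hvS
  by_cases hcase : ∀ a ∈ Jh, χ0 a = 0
  · -- induction hypothesis
    have hkp : (RingHom.ker χ0).IsPrime := RingHom.ker_isPrime _
    obtain ⟨w, hw, hwle⟩ := Ideal.exists_minimalPrimes_le (J := RingHom.ker χ0)
      (fun a ha => (RingHom.mem_ker).2 (hcase a ha) : Jh ≤ RingHom.ker χ0)
    obtain ⟨y, hy, hy1, hy2⟩ := hR3 w hw x0 ⟨fun p hp => by
      rw [← hχ0mk]
      exact (RingHom.mem_ker).1 (hwle hp), gI, hgI, hgI0⟩ Ω hΩ
      (fun v hv => hΩ0 v (Finset.mem_union_right _ hv)) hU0 ε hε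
    refine ⟨y, ⟨fun p hp => hy.1 p ?_, hy.2⟩, hy1, hy2⟩
    rw [Ideal.mem_comap, (hmemP p).1 hp]
    exact w.zero_mem
  obtain ⟨g0, hg0, hg00⟩ : ∃ g ∈ s, MvPolynomial.aeval x0 g ≠ 0 := by
    by_contra hcon
    push Not at hcon
    apply hgI0
    have : Ideal.span (s : Set (MvPolynomial (Fin N) K)) ≤
        RingHom.ker (MvPolynomial.aeval x0 : MvPolynomial (Fin N) K →ₐ[K] K) := by
      rw [Ideal.span_le]
      intro g hg
      exact hcon g hg
    rw [hs] at this
    exact this hgI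
  -- step 1
  obtain ⟨b1, hb1, hb1'⟩ : ∃ b ∈ fh, χ0 b ≠ 0 := by
    by_contra hcon
    push Not at hcon
    apply hcase
    have : Ideal.span (fh : Set A) ≤ RingHom.ker χ0 := by
      rw [Ideal.span_le]
      intro g hg
      exact hcon g hg
    rw [hfh] at this
    exact fun a ha => this ha
  set F : MvPolynomial (Fin L1.length) K := MvPolynomial.map χ0.toRingHom (lam L1 h) *
    MvPolynomial.map χ0.toRingHom (lam L1 (π g0)) with hF
  have hFne : F ≠ 0 := by
    refine mul_ne_zero (move_ne2 L1 h χ0 b1 (hL1 b1 hb1) hb1') ?_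
    intro h0
    have := mv_zero L1 χ0 (π g0)
    rw [h0, map_zero, hχ0mk] at this
    exact hg00 this.symm
  obtain ⟨t1, ht1, ht1', ht1''⟩ := core_step1 S hS hne L1.length F hFne Ω hΩ
    (fun i : Fin N => MvPolynomial.map χ0.toRingHom (lam L1 (π (MvPolynomial.X i)))) (half_pos hε)
  set χ1 : A →ₐ[K] K := mv L1 χ0 t1 with hχ1
  have hχ1h : χ1 h ≠ 0 := by
    rw [hχ1, mv_apply]
    intro h0
    apply ht1
    rw [hF, map_mul, h0, zero_mul]
  have hχ1g : χ1 (π g0) ≠ 0 := by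
    rw [hχ1, mv_apply]
    intro h0
    apply ht1
    rw [hF, map_mul, h0, mul_zero]
  have near1 : ∀ p ∈ Ω, ∀ i, av p (χ1 (π (MvPolynomial.X i)) - x0 i) < ε / 2 := by
    intro p hp i
    have := ht1' p hp i
    rw [mv_zero, ← mv_apply] at this
    simpa [hχ0mk] using this
  have int1 : ∀ v, Sum.inl v ∉ Ω → Sum.inl v ∉ S → ∀ i,
      av (Sum.inl v) (χ1 (π (MvPolynomial.X i))) ≤ 1 := by
    intro v hv hvS i
    rw [hχ1, mv_apply]
    refine av_eval_le v _ (fun n => ?_) _ (ht1'' v hv hvS)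
    rw [MvPolynomial.coeff_map]
    exact badE v hv hvS χ0 (int0 v hv hvS) _ (Or.inl (Or.inl (Set.mem_iUnion.2 ⟨i, n, rfl⟩)))
  have unit1 : ∀ v, Sum.inl v ∉ Ω → Sum.inl v ∉ S → ∃ g ∈ s0A, 1 ≤ av (Sum.inl v) (χ1 g) := by
    intro v hv hvS
    exact hR1 v χ0 t1 (ht1'' v hv hvS) (fun a ha => badE v hv hvS χ0 (int0 v hv hvS) a
        (Or.inr (Or.inr (Or.inl (Or.inr ha))))) (unit0 v hv hvS)
  -- step 2
  set G : Set (MvPolynomial (Fin L2.length) K) :=
    MvPolynomial.map χ1.toRingHom '' ((lam L2) '' (sA : Set A)) with hG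
  have hGfin : G.Finite := (sA.finite_toSet.image _).image _
  have hGgood : Good L2.length G := hgood K χ1.toRingHom hχ1h
  obtain ⟨ε2, hε2, hε2'⟩ := unif_cont Ω
    (fun i : Fin N => MvPolynomial.map χ1.toRingHom (lam L2 (π (MvPolynomial.X i)))) (half_pos hε)
  have hint2 : ∀ v, Sum.inl v ∉ Ω → Sum.inl v ∉ S → (∀ g ∈ G, ∀ n, av (Sum.inl v) (g.coeff n) ≤ 1) ∧
      ∃ t : Fin L2.length → K, (∀ i, av (Sum.inl v) (t i) ≤ 1) ∧
        ∃ g ∈ G, av (Sum.inl v) (MvPolynomial.eval t g) = 1 := by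
    intro v hv hvS
    have hco : ∀ g ∈ sA, ∀ n, av (Sum.inl v) (χ1 ((lam L2 g).coeff n)) ≤ 1 := by
      intro g hg n
      exact badE v hv hvS χ1 (int1 v hv hvS) _ (Or.inr (Or.inl ⟨g, hg, n, rfl⟩))
    refine ⟨?_, ?_⟩
    · rintro _ ⟨_, ⟨g, hg, rfl⟩, rfl⟩ n
      rw [MvPolynomial.coeff_map]
      exact hco g hg n
    · -- some coefficient is a unit
      obtain ⟨g, hg, n, hn⟩ : ∃ g ∈ sA, ∃ n, av (Sum.inl v) (χ1 ((lam L2 g).coeff n)) = 1 := by
        obtain ⟨a, ha, ha1⟩ := hR2 v χ1 (fun a ha => by rw [(Ideal.mem_bot.1 ha), map_zero])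
          (fun a ha => badE v hv hvS χ1 (int1 v hv hvS) a
            (Or.inr (Or.inr (Or.inr ha)))) (unit1 v hv hvS)
        have ha' : a ∈ E2 := by rw [← hE2f]; exact ha
        obtain ⟨g, hg, n, rfl⟩ := ha'
        exact ⟨g, hg, n, le_antisymm (hco g hg n) ha1⟩
      obtain ⟨t, ht⟩ := exists_unit_value v (MvPolynomial.map χ1.toRingHom (lam L2 g))
        (fun n => by rw [MvPolynomial.coeff_map]; exact hco g hg n)
        ⟨n, by rw [MvPolynomial.coeff_map]; exact hn⟩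
        (lt_of_le_of_lt ((totalDegree_map_le' _ _).trans
          (Finset.single_le_sum (f := fun g => (lam L2 g).totalDegree)
            (fun _ _ => Nat.zero_le _) hg)) (badD v hv hvS))
      exact ⟨fun i => (t i : K), fun i => av_int v _, _, ⟨_, ⟨g, hg, rfl⟩, rfl⟩, ht⟩
  obtain ⟨t2, ht2, ht2'⟩ := SAm S hS hne L2.length G hGfin hGgood Ω hΩ (fun _ => 0)
    (fun p _ => ⟨_, ⟨_, ⟨π g0, by simpa [hsA] using ⟨g0, hg0, rfl⟩, rfl⟩, rfl⟩, by
      rw [mv_zero]; exact hχ1g⟩) hint2 hε2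
  set χ2 : A →ₐ[K] K := mv L2 χ1 t2 with hχ2
  set y : Fin N → K := fun i => χ2 (π (MvPolynomial.X i)) with hy
  have hya : ∀ f, MvPolynomial.aeval y f = χ2 (π f) := by
    intro f
    have : (χ2.comp π) = MvPolynomial.aeval y := by
      ext i
      rw [MvPolynomial.aeval_X]
      rfl
    exact (congrArg (fun ψ => ψ f) this).symm
  have key : ∀ v, Sum.inl v ∉ Ω → Sum.inl v ∉ S → (∀ i, av (Sum.inl v) (y i) ≤ 1) ∧
        ∃ g : MvPolynomial (Fin N) (𝓞 K), MvPolynomial.map (algebraMap (𝓞 K) K) g ∈ I ∧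
          av (Sum.inl v) (MvPolynomial.aeval y (MvPolynomial.map (algebraMap (𝓞 K) K) g)) = 1 := by
    intro v hv hvS
    obtain ⟨h1, _, ⟨_, ⟨gA, hgA, rfl⟩, rfl⟩, h2⟩ := ht2' v hv hvS
    refine ⟨fun i => ?_, finish v hv hvS χ2 y hya ⟨gA, hgA, ?_⟩⟩
    · rw [hy]
      simp only
      rw [hχ2, mv_apply]
      refine av_eval_le v _ (fun n => ?_) _ h1
      rw [MvPolynomial.coeff_map]
      exact badE v hv hvS χ1 (int1 v hv hvS) _
        (Or.inl (Or.inr (Set.mem_iUnion.2 ⟨i, n, rfl⟩)))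
    · rw [hχ2, mv_apply]
      exact h2
  refine ⟨y, ⟨?_, ?_⟩, ?_, key⟩
  · intro p hp
    rw [hya, (hmemP p).1 hp, map_zero]
  · obtain ⟨v, hv, hvS⟩ := place_exists S hS Ω
    obtain ⟨-, g, hg, hg1⟩ := key v hv hvS
    refine ⟨_, hg, fun h0 => ?_⟩
    rw [h0, map_zero] at hg1
    exact zero_ne_one hg1
  · intro p hp i
    have h1 := near1 p hp i
    have h2 := hε2' p hp i t2 (fun j => by simpa using ht2 p hp j)
    rw [mv_zero, ← mv_apply] at h2
    calc av p (y i - x0 i) = av p ((y i - χ1 (π (MvPolynomial.X i))) +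
          (χ1 (π (MvPolynomial.X i)) - x0 i)) := by ring_nf
      _ ≤ av p (y i - χ1 (π (MvPolynomial.X i))) + av p (χ1 (π (MvPolynomial.X i)) - x0 i) :=
          (av p).add_le _ _
      _ < ε / 2 + ε / 2 := add_lt_add h2 h1
      _ = ε := by ring

end SAF
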