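import Mathlib

/-!
MP_dd8365_nt : strong approximation on complements of codimension two subsets.
Basic definitions: places, points of `X \ Z`, adelic space, strong approximation, flexible rings.
-/

open IsDedekindDomain NumberField
open scoped RestrictedProduct

namespace SAF

/-- The places of `K`: finite (nonzero primes of `𝓞 K`) and infinite ones. -/
abbrev Place (K : Type) [Field K] [NumberField K] : Type :=
  HeightOneSpectrum (𝓞 K) ⊕ InfinitePlace K

/-- For ideals `P ≤ I` of `K[x_1..x_N]`, `X = V(P)` and `Z = V(I)`: the points of `X \ Z`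
with coordinates in an extension field `L` of `K`. -/
def Pts {K : Type} [Field K] {N : ℕ} (P I : Ideal (MvPolynomial (Fin N) K))
    (L : Type) [Field L] [Algebra K L] : Set (Fin N → L) :=
  {x | (∀ p ∈ P, MvPolynomial.aeval x p = 0) ∧ ∃ g ∈ I, MvPolynomial.aeval x g ≠ 0}

/-- The `O_v`-points of the integral model of `X \ Z` (closures of `X`, `Z` in affine space over
`𝓞 K`): integral coordinates, and some element of `I` with coefficients in `𝓞 K` takes a unit
value. -/
def IntPts {K : Type} [Field K] [NumberField K] {N : ℕ} (P I : Ideal (MvPolynomial (Fin N) K))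
    (v : HeightOneSpectrum (𝓞 K)) : Set (Pts P I (v.adicCompletion K)) :=
  {x | (∀ i, x.1 i ∈ v.adicCompletionIntegers K) ∧
    ∃ g : MvPolynomial (Fin N) (𝓞 K), MvPolynomial.map (algebraMap (𝓞 K) K) g ∈ I ∧
      Valued.v (MvPolynomial.aeval x.1 (MvPolynomial.map (algebraMap (𝓞 K) K) g)) = 1}

/-- The adelic points of `X \ Z` with the components at the places in `S` omitted: restricted
product over the finite places, product over the infinite places. -/
abbrev Adelic {K : Type} [Field K] [NumberField K] {N : ℕ}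
    (P I : Ideal (MvPolynomial (Fin N) K)) (S : Set (Place K)) : Type :=
  (Πʳ v : {v : HeightOneSpectrum (𝓞 K) // Sum.inl v ∉ S},
    [Pts P I (v.1.adicCompletion K), IntPts P I v.1]) ×
  ((w : {w : InfinitePlace K // Sum.inr w ∉ S}) → Pts P I w.1.Completion)

/-- The image of the `K`-points of `X \ Z` in the adelic points. -/
def Rat {K : Type} [Field K] [NumberField K] {N : ℕ}
    (P I : Ideal (MvPolynomial (Fin N) K)) (S : Set (Place K)) : Set (Adelic P I S) :=
  {y | ∃ x : Fin N → K, x ∈ Pts P I K ∧
    (∀ v i, (y.1 v).1 i = algebraMap K (v.1.adicCompletion K) (x i)) ∧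
    (∀ w i, (y.2 w).1 i = algebraMap K w.1.Completion (x i))}

/-- `X \ Z` satisfies strong approximation outside `S`: the `K`-points are dense in the adelic
points. -/
def SA {K : Type} [Field K] [NumberField K] {N : ℕ}
    (P I : Ideal (MvPolynomial (Fin N) K)) (S : Set (Place K)) : Prop :=
  Dense (Rat P I S)

/-- The inclusion of the points of `V(P) \ V(I)` in those of `V(P) \ V(I0)`, for `I ≤ I0`. -/
def Pts.incl {K : Type} [Field K] {N : ℕ} {P I I0 : Ideal (MvPolynomial (Fin N) K)} (h : I ≤ I0)
    {L : Type} [Field L] [Algebra K L] (x : Pts P I L) : Pts P I0 L :=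
  ⟨x.1, x.2.1, by
    obtain ⟨g, hg, hgx⟩ := x.2.2
    exact ⟨g, h hg, hgx⟩⟩

theorem IntPts.incl {K : Type} [Field K] [NumberField K] {N : ℕ}
    {P I I0 : Ideal (MvPolynomial (Fin N) K)} (h : I ≤ I0) {v : HeightOneSpectrum (𝓞 K)}
    {x : Pts P I (v.adicCompletion K)} (hx : x ∈ IntPts P I v) :
    Pts.incl h x ∈ IntPts P I0 v := by
  obtain ⟨h1, g, hg, hgx⟩ := hx
  exact ⟨h1, g, h hg, hgx⟩

/-- The inclusion of the adelic points of `V(P) \ V(I)` in those of `V(P) \ V(I0)`. -/
noncomputable def Adelic.incl {K : Type} [Field K] [NumberField K] {N : ℕ}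
    {P I I0 : Ideal (MvPolynomial (Fin N) K)} (h : I ≤ I0) {S : Set (Place K)}
    (y : Adelic P I S) : Adelic P I0 S :=
  (⟨fun v => Pts.incl h (y.1 v), y.1.2.mono fun _ hv => IntPts.incl h hv⟩,
    fun w => Pts.incl h (y.2 w))

/-- An ideal of a `K`-algebra is stable under a set of derivations. -/
def Stable {K A : Type} [Field K] [CommRing A] [Algebra K A] (𝒟 : Set (Derivation K A A))
    (J : Ideal A) : Prop :=
  ∀ D ∈ 𝒟, ∀ a ∈ J, D a ∈ J

/-- The absolute value attached to a place. -/
noncomputable def av {K : Type} [Field K] [NumberField K] : Place K → AbsoluteValue K ℝ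
  | Sum.inl v => HeightOneSpectrum.adicAbv K v
  | Sum.inr w => w.1

end SAF
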