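import Pool.Agent.Lib.MP_dd8365_nt.Defs

/-!
MP_dd8365_nt (SAF), torus quotients: `X = U / G_m^r` for `U = V(P) \ V(I0)`; the torus acts
diagonally on affine space, all ideals are homogeneous.
-/

open IsDedekindDomain NumberField
open scoped RestrictedProduct

namespace SAF

/-- The diagonal action of the torus `(Lˣ)^r` on `L^N` with weights `W`. -/
def act {N r : ℕ} (W : Fin N → Fin r → ℤ) {L : Type} [Field L] (l : Fin r → Lˣ) (x : Fin N → L) :
    Fin N → L :=
  fun i => ((∏ j, l j ^ W i j : Lˣ) : L) * x i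

/-- Ideals which are homogeneous for the `ℤ^r`-grading given by the weights. -/
def Homog {K : Type} [Field K] {N r : ℕ} (W : Fin N → Fin r → ℤ)
    (I : Ideal (MvPolynomial (Fin N) K)) : Prop :=
  ∀ g ∈ I, ∀ c : Fin r → ℤ, MvPolynomial.weightedHomogeneousComponent W c g ∈ I

theorem act_one {N r : ℕ} (W : Fin N → Fin r → ℤ) {L : Type} [Field L] (x : Fin N → L) :
    act W (fun _ => 1) x = x := by
  funext i
  simp [act]

theorem act_act {N r : ℕ} (W : Fin N → Fin r → ℤ) {L : Type} [Field L] (l m : Fin r → Lˣ)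
    (x : Fin N → L) : act W l (act W m x) = act W (fun j => l j * m j) x := by
  funext i
  simp only [act, mul_zpow, Finset.prod_mul_distrib, Units.val_mul, mul_assoc]

/-- Two points of `V(P) \ V(I)` are equivalent if they are in the same orbit of the torus. -/
def orb {K : Type} [Field K] {N r : ℕ} (W : Fin N → Fin r → ℤ)
    (P I : Ideal (MvPolynomial (Fin N) K)) (L : Type) [Field L] [Algebra K L] :
    Setoid (Pts P I L) where
  r x y := ∃ l : Fin r → Lˣ, y.1 = act W l x.1
  iseqv :=
    { refl := fun x => ⟨fun _ => 1, (act_one W x.1).symm⟩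
      symm := by
        rintro x y ⟨l, hl⟩
        refine ⟨fun j => (l j)⁻¹, ?_⟩
        rw [hl, act_act]
        simp only [inv_mul_cancel]
        exact (act_one W x.1).symm
      trans := by
        rintro x y z ⟨l, hl⟩ ⟨m, hm⟩
        exact ⟨fun j => m j * l j, by rw [hm, hl, act_act]⟩ }

/-- The `L`-points of `(V(P) \ V(I)) / G_m^r`, with the quotient topology if `L` is a topological
field. -/
abbrev QPts {K : Type} [Field K] {N r : ℕ} (W : Fin N → Fin r → ℤ)
    (P I : Ideal (MvPolynomial (Fin N) K)) (L : Type) [Field L] [Algebra K L] : Type :=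
  Quotient (orb W P I L)

/-- The `O_v`-points of `(V(P) \ V(I)) / G_m^r`: images of `O_v`-points of `V(P) \ V(I)`. -/
def QInt {K : Type} [Field K] [NumberField K] {N r : ℕ} (W : Fin N → Fin r → ℤ)
    (P I : Ideal (MvPolynomial (Fin N) K)) (v : HeightOneSpectrum (𝓞 K)) :
    Set (QPts W P I (v.adicCompletion K)) :=
  Quotient.mk (orb W P I (v.adicCompletion K)) '' IntPts P I v

/-- The adelic points of `(V(P) \ V(I)) / G_m^r` with the components at the places in `S`
omitted. -/
abbrev QAdelic {K : Type} [Field K] [NumberField K] {N r : ℕ} (W : Fin N → Fin r → ℤ)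
    (P I : Ideal (MvPolynomial (Fin N) K)) (S : Set (Place K)) : Type :=
  (Πʳ v : {v : HeightOneSpectrum (𝓞 K) // Sum.inl v ∉ S},
    [QPts W P I (v.1.adicCompletion K), QInt W P I v.1]) ×
  ((w : {w : InfinitePlace K // Sum.inr w ∉ S}) → QPts W P I w.1.Completion)

/-- The image of the `K`-points in the adelic points. -/
def QRat {K : Type} [Field K] [NumberField K] {N r : ℕ} (W : Fin N → Fin r → ℤ)
    (P I : Ideal (MvPolynomial (Fin N) K)) (S : Set (Place K)) : Set (QAdelic W P I S) :=
  {y | ∃ x : Fin N → K, x ∈ Pts P I K ∧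
    (∀ v, ∃ u : Pts P I (v.1.adicCompletion K), (∀ i, u.1 i = algebraMap K _ (x i)) ∧
      y.1 v = Quotient.mk _ u) ∧
    (∀ w, ∃ u : Pts P I w.1.Completion, (∀ i, u.1 i = algebraMap K _ (x i)) ∧
      y.2 w = Quotient.mk _ u)}

/-- `(V(P) \ V(I)) / G_m^r` satisfies strong approximation outside `S`. -/
def QSA {K : Type} [Field K] [NumberField K] {N r : ℕ} (W : Fin N → Fin r → ℤ)
    (P I : Ideal (MvPolynomial (Fin N) K)) (S : Set (Place K)) : Prop :=
  Dense (QRat W P I S)

/-- The inclusion of the points of `(V(P) \ V(I)) / G_m^r` in those of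
`(V(P) \ V(I0)) / G_m^r`, for `I ≤ I0`. -/
noncomputable def QPts.incl {K : Type} [Field K] {N r : ℕ} {W : Fin N → Fin r → ℤ}
    {P I I0 : Ideal (MvPolynomial (Fin N) K)} (h : I ≤ I0) {L : Type} [Field L] [Algebra K L]
    (x : QPts W P I L) : QPts W P I0 L :=
  Quotient.map' (s₁ := orb W P I L) (s₂ := orb W P I0 L) (Pts.incl h) (fun _ _ hl => hl) x

theorem QInt.incl {K : Type} [Field K] [NumberField K] {N r : ℕ} {W : Fin N → Fin r → ℤ}
    {P I I0 : Ideal (MvPolynomial (Fin N) K)} (h : I ≤ I0) {v : HeightOneSpectrum (𝓞 K)}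
    {x : QPts W P I (v.adicCompletion K)} (hx : x ∈ QInt W P I v) :
    QPts.incl h x ∈ QInt W P I0 v := by
  obtain ⟨u, hu, rfl⟩ := hx
  exact ⟨Pts.incl h u, IntPts.incl h hu, rfl⟩

/-- The inclusion of the adelic points of `(V(P) \ V(I)) / G_m^r` in those of
`(V(P) \ V(I0)) / G_m^r`. -/
noncomputable def QAdelic.incl {K : Type} [Field K] [NumberField K] {N r : ℕ}
    {W : Fin N → Fin r → ℤ} {P I I0 : Ideal (MvPolynomial (Fin N) K)} (h : I ≤ I0)
    {S : Set (Place K)} (y : QAdelic W P I S) : QAdelic W P I0 S :=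
  (⟨fun v => QPts.incl h (y.1 v), y.1.2.mono fun _ hv => QInt.incl h hv⟩,
    fun w => QPts.incl h (y.2 w))

end SAF
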