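import Pool.Agent.Lib.MP_dd8365_nt.Defs

/-! MP_dd8365_nt (SAF): exponential of a locally nilpotent derivation. -/

open MvPolynomial

namespace SAF

/-- A locally nilpotent derivation. -/
structure LND (K A : Type) [Field K] [CommRing A] [Algebra K A] where
  D : Derivation K A A
  nil : ∀ a, ∃ n : ℕ, (⇑D)^[n] a = 0

variable {K : Type} [Field K]

theorem iterate_zero_of_le {A : Type} [CommRing A] [Algebra K A] (D : Derivation K A A) {a : A}
    {n m : ℕ} (h : (⇑D)^[n] a = 0) (hnm : n ≤ m) : (⇑D)^[m] a = 0 := by
  obtain ⟨k, rfl⟩ := Nat.exists_eq_add_of_le hnm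
  rw [Nat.add_comm, Function.iterate_add_apply, h]
  exact iterate_map_zero D k

theorem iterate_smul' {A : Type} [CommRing A] [Algebra K A] (D : Derivation K A A) (c : K) (a : A)
    (n : ℕ) : (⇑D)^[n] (c • a) = c • (⇑D)^[n] a := by
  induction n with
  | zero => rfl
  | succ n ih => rw [Function.iterate_succ_apply', ih, Function.iterate_succ_apply', D.map_smul]

theorem iterate_add' {A : Type} [CommRing A] [Algebra K A] (D : Derivation K A A) (a b : A)
    (n : ℕ) : (⇑D)^[n] (a + b) = (⇑D)^[n] a + (⇑D)^[n] b := iterate_map_add D n a b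

/-- Leibniz rule for iterates. -/
theorem iterate_mul' {A : Type} [CommRing A] [Algebra K A] (D : Derivation K A A) (a b : A)
    (n : ℕ) : (⇑D)^[n] (a * b) =
      ∑ p ∈ Finset.HasAntidiagonal.antidiagonal n, n.choose p.1 • ((⇑D)^[p.1] a * (⇑D)^[p.2] b) := by
  induction n with
  | zero => simp
  | succ n ih =>
    rw [Finset.sum_antidiagonal_choose_succ_nsmul (M := A)
      (fun i j => (⇑D)^[i] a * (⇑D)^[j] b) n, Function.iterate_succ_apply', ih, map_sum,
      ← Finset.sum_add_distrib]
    refine Finset.sum_congr rfl fun p hp => ?_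
    have hsymm : n.choose p.2 = n.choose p.1 := by
      rw [← Finset.HasAntidiagonal.mem_antidiagonal.1 hp, Nat.choose_symm_add]
    rw [map_nsmul, D.leibniz, hsymm, ← smul_add, Function.iterate_succ_apply',
      Function.iterate_succ_apply', smul_eq_mul, smul_eq_mul]
    congr 1
    ring

section one

variable {R : Type} [CommRing R] [Algebra K R]

/-- the polynomial `∑ (n!)⁻¹ Dⁿ(a) Xⁿ` -/
noncomputable def expFun (d : LND K R) (a : R) : Polynomial R :=
  ∑ n ∈ Finset.range (Classical.choose (d.nil a)),
    Polynomial.monomial n (((n.factorial : K)⁻¹) • (⇑d.D)^[n] a)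

theorem expFun_coeff (d : LND K R) (a : R) (n : ℕ) :
    (expFun d a).coeff n = ((n.factorial : K)⁻¹) • (⇑d.D)^[n] a := by
  rw [expFun, Polynomial.finsetSum_coeff]
  simp only [Polynomial.coeff_monomial]
  rw [Finset.sum_ite_eq' (Finset.range _) n]
  split_ifs with h
  · rfl
  · rw [iterate_zero_of_le d.D (Classical.choose_spec (d.nil a))
      (not_lt.1 fun h' => h (Finset.mem_range.2 h')), smul_zero]

variable [CharZero K]

/-- `a ↦ ∑ (n!)⁻¹ Dⁿ(a) Xⁿ` -/
noncomputable def expHom (d : LND K R) : R →ₐ[K] Polynomial R where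
  toFun := expFun d
  map_one' := by
    ext n
    rw [expFun_coeff, Polynomial.coeff_one]
    cases n with
    | zero => simp
    | succ n =>
      rw [Function.iterate_succ_apply, d.D.map_one_eq_zero, iterate_map_zero, smul_zero]
      simp
  map_zero' := by
    ext n
    rw [expFun_coeff, iterate_map_zero, smul_zero, Polynomial.coeff_zero]
  map_add' a b := by
    ext n
    rw [Polynomial.coeff_add, expFun_coeff, expFun_coeff, expFun_coeff, iterate_add', smul_add]
  map_mul' a b := by
    ext n
    rw [Polynomial.coeff_mul, expFun_coeff, iterate_mul', Finset.smul_sum]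
    refine Finset.sum_congr rfl fun p hp => ?_
    rw [expFun_coeff, expFun_coeff, smul_mul_smul_comm, ← Nat.cast_smul_eq_nsmul K, smul_smul]
    congr 1
    have hp' := Finset.HasAntidiagonal.mem_antidiagonal.1 hp
    have h1 := Nat.add_choose_mul_factorial_mul_factorial p.1 p.2
    have hs : n.choose p.2 = n.choose p.1 := by rw [← hp', Nat.choose_symm_add]
    rw [hp', hs] at h1
    have h2 : ((n.choose p.1 : ℕ) : K) * (p.1.factorial : K) * (p.2.factorial : K) =
        (n.factorial : K) := by exact_mod_cast congrArg (Nat.cast : ℕ → K) h1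
    have f1 : (p.1.factorial : K) ≠ 0 := by exact_mod_cast p.1.factorial_ne_zero
    have f2 : (p.2.factorial : K) ≠ 0 := by exact_mod_cast p.2.factorial_ne_zero
    have f3 : (n.factorial : K) ≠ 0 := by exact_mod_cast n.factorial_ne_zero
    field_simp
    linear_combination h2
  commutes' c := by
    ext n
    rw [expFun_coeff, Polynomial.algebraMap_apply, Polynomial.coeff_C]
    cases n with
    | zero => simp
    | succ n =>
      rw [Function.iterate_succ_apply, d.D.map_algebraMap, iterate_map_zero, smul_zero]
      simp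

theorem expHom_coeff (d : LND K R) (a : R) (n : ℕ) :
    (expHom d a).coeff n = ((n.factorial : K)⁻¹) • (⇑d.D)^[n] a := expFun_coeff d a n

/-- the negative of a locally nilpotent derivation -/
def LND.neg (d : LND K R) : LND K R where
  D := -d.D
  nil a := by
    obtain ⟨n, hn⟩ := d.nil a
    refine ⟨n, ?_⟩
    have key : ∀ (m : ℕ) (b : R), (⇑(-d.D))^[m] b = (-1 : K) ^ m • (⇑d.D)^[m] b := by
      intro m b
      induction m with
      | zero => simp
      | succ m ih =>
        rw [Function.iterate_succ_apply', ih, Function.iterate_succ_apply', Derivation.neg_apply,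
          d.D.map_smul, pow_succ, mul_smul, neg_smul, one_smul, smul_neg]
    rw [key, hn, smul_zero]

theorem LND.neg_iter (d : LND K R) (m : ℕ) (b : R) :
    (⇑d.neg.D)^[m] b = (-1 : K) ^ m • (⇑d.D)^[m] b := by
  induction m with
  | zero => simp
  | succ m ih =>
    rw [Function.iterate_succ_apply', ih, Function.iterate_succ_apply']
    change (-d.D) _ = _
    rw [Derivation.neg_apply, d.D.map_smul, pow_succ, mul_smul, neg_smul, one_smul, smul_neg]

theorem LND.neg_neg (d : LND K R) (a : R) (m : ℕ) : (⇑d.neg.neg.D)^[m] a = (⇑d.D)^[m] a := by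
  rw [LND.neg_iter, LND.neg_iter, smul_smul, ← mul_pow]
  simp

/-- the extension of `expHom` by `X ↦ X` -/
noncomputable def expExt (d : LND K R) : Polynomial R →+* Polynomial R :=
  Polynomial.eval₂RingHom (expHom d : R →+* Polynomial R) Polynomial.X

theorem expExt_C (d : LND K R) (a : R) : expExt d (Polynomial.C a) = expHom d a := by
  rw [expExt, Polynomial.coe_eval₂RingHom, Polynomial.eval₂_C]
  rfl

theorem expExt_X (d : LND K R) : expExt d Polynomial.X = Polynomial.X := by
  rw [expExt, Polynomial.coe_eval₂RingHom, Polynomial.eval₂_X]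

theorem expExt_coeff (d : LND K R) (f : Polynomial R) (k : ℕ) :
    (expExt d f).coeff k = ∑ n ∈ Finset.range (k + 1), (expHom d (f.coeff n)).coeff (k - n) := by
  rw [expExt, Polynomial.coe_eval₂RingHom, Polynomial.eval₂_eq_sum_range' _
    (lt_of_lt_of_le (Nat.lt_succ_self _) (le_max_left (f.natDegree + 1) (k + 1))),
    Polynomial.finsetSum_coeff]
  simp only [Polynomial.coeff_mul_X_pow']
  rw [Finset.sum_ite, Finset.sum_const_zero, add_zero]
  refine Finset.sum_congr ?_ fun n _ => rfl
  ext n
  simp only [Finset.mem_filter, Finset.mem_range]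
  omega

theorem expExt_neg (d : LND K R) (f : Polynomial R) : expExt d.neg (expExt d f) = f := by
  have h : (expExt d.neg).comp (expExt d) = RingHom.id (Polynomial R) := by
    refine Polynomial.ringHom_ext (fun a => ?_) ?_
    · rw [RingHom.comp_apply, expExt_C, RingHom.id_apply]
      ext k
      rw [expExt_coeff, Polynomial.coeff_C]
      have h1 : ∀ n ∈ Finset.range (k + 1),
          (expHom d.neg ((expHom d a).coeff n)).coeff (k - n) =
            (((k.factorial : K)⁻¹) * ((-1) ^ (k - n) * (k.choose n : K))) • (⇑d.D)^[k] a := by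
        intro n hn
        have hnk : n ≤ k := Nat.lt_succ_iff.1 (Finset.mem_range.1 hn)
        rw [expHom_coeff, expHom_coeff, LND.neg_iter, iterate_smul', ← Function.iterate_add_apply,
          Nat.sub_add_cancel hnk, smul_smul, smul_smul]
        congr 1
        have h2 : ((k.choose n : ℕ) : K) * (n.factorial : K) * ((k - n).factorial : K) =
            (k.factorial : K) := by
          exact_mod_cast congrArg (Nat.cast : ℕ → K) (Nat.choose_mul_factorial_mul_factorial hnk)
        have f1 : (n.factorial : K) ≠ 0 := by exact_mod_cast n.factorial_ne_zero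
        have f2 : ((k - n).factorial : K) ≠ 0 := by exact_mod_cast (k - n).factorial_ne_zero
        have f3 : (k.factorial : K) ≠ 0 := by exact_mod_cast k.factorial_ne_zero
        field_simp
        linear_combination -h2
      rw [Finset.sum_congr rfl h1, ← Finset.sum_smul, ← Finset.mul_sum]
      have h3 : ∑ n ∈ Finset.range (k + 1), (-1 : K) ^ (k - n) * (k.choose n : K) =
          (1 + (-1)) ^ k := by
        rw [add_pow]
        refine Finset.sum_congr rfl fun n _ => ?_
        rw [one_pow, one_mul]
      rw [h3]
      cases k with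
      | zero => simp
      | succ k => simp
    · rw [RingHom.comp_apply, expExt_X, expExt_X, RingHom.id_apply]
  have := congrArg (fun g => g f) h
  exact this

/-- extension of `expHom` by `X ↦ X`; its inverse comes from `-D` -/
theorem exp_equiv (d : LND K R) : ∃ e : Polynomial R ≃+* Polynomial R,
    ∀ a, e (Polynomial.C a) = expHom d a := by
  have hnn : ∀ f : Polynomial R, expExt d.neg.neg f = expExt d f := by
    intro f
    ext k
    rw [expExt_coeff, expExt_coeff]
    refine Finset.sum_congr rfl fun n _ => ?_
    rw [expHom_coeff, expHom_coeff, LND.neg_neg]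
  refine ⟨RingEquiv.ofRingHom (expExt d) (expExt d.neg) (RingHom.ext fun f => ?_)
    (RingHom.ext fun f => expExt_neg d f), fun a => expExt_C d a⟩
  have := expExt_neg d.neg f
  rw [hnn] at this
  exact this

end one

section mv

variable {A : Type} [CommRing A] [Algebra K A] {σ : Type}

/-- coefficientwise application -/
noncomputable def mvFun (D : Derivation K A A) (f : MvPolynomial σ A) : MvPolynomial σ A :=
  ∑ n ∈ f.support, monomial n (D (f.coeff n))

theorem mvFun_coeff (D : Derivation K A A) (f : MvPolynomial σ A) (n : σ →₀ ℕ) :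
    (mvFun D f).coeff n = D (f.coeff n) := by
  classical
  rw [mvFun, coeff_sum]
  simp only [coeff_monomial]
  rw [Finset.sum_ite_eq' f.support n]
  split_ifs with h
  · rfl
  · rw [notMem_support_iff.1 h, map_zero]

/-- the coefficientwise derivation -/
noncomputable def mvD (D : Derivation K A A) : Derivation K (MvPolynomial σ A) (MvPolynomial σ A) where
  toFun := mvFun D
  map_add' f g := by
    ext n
    rw [coeff_add, mvFun_coeff, mvFun_coeff, mvFun_coeff, coeff_add, map_add]
  map_smul' c f := by
    ext n
    rw [RingHom.id_apply, coeff_smul, mvFun_coeff, mvFun_coeff, coeff_smul, D.map_smul]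
  map_one_eq_zero' := by
    classical
    ext n
    change (mvFun D 1).coeff n = _
    rw [mvFun_coeff, coeff_one, coeff_zero]
    split_ifs
    · exact D.map_one_eq_zero
    · exact map_zero D
  leibniz' f g := by
    classical
    ext n
    change (mvFun D (f * g)).coeff n = _
    rw [mvFun_coeff, coeff_mul, map_sum, coeff_add, smul_eq_mul, smul_eq_mul, mul_comm g,
      coeff_mul, coeff_mul, ← Finset.sum_add_distrib]
    refine Finset.sum_congr rfl fun p _ => ?_
    rw [D.leibniz, smul_eq_mul, smul_eq_mul]
    change _ = f.coeff p.1 * (mvFun D g).coeff p.2 + (mvFun D f).coeff p.1 * g.coeff p.2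
    rw [mvFun_coeff, mvFun_coeff]
    ring

theorem mvD_coeff (D : Derivation K A A) (f : MvPolynomial σ A) (n : σ →₀ ℕ) :
    (mvD D f).coeff n = D (f.coeff n) := mvFun_coeff D f n

theorem mvD_iter (D : Derivation K A A) (f : MvPolynomial σ A) (n : σ →₀ ℕ) (m : ℕ) :
    ((⇑(mvD D))^[m] f).coeff n = (⇑D)^[m] (f.coeff n) := by
  induction m with
  | zero => rfl
  | succ m ih => rw [Function.iterate_succ_apply', mvD_coeff, ih, Function.iterate_succ_apply']

/-- coefficientwise extension to polynomials -/
noncomputable def LND.mv (d : LND K A) (m : ℕ) : LND K (MvPolynomial (Fin m) A) where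
  D := mvD d.D
  nil f := by
    choose N hN using d.nil
    refine ⟨f.support.sup fun n => N (f.coeff n), ?_⟩
    ext n
    rw [mvD_iter, coeff_zero]
    by_cases h : n ∈ f.support
    · exact iterate_zero_of_le d.D (hN _) (Finset.le_sup (f := fun n => N (f.coeff n)) h)
    · rw [notMem_support_iff.1 h, iterate_map_zero]

theorem LND.mv_coeff (d : LND K A) (m : ℕ) (f : MvPolynomial (Fin m) A) (n : Fin m →₀ ℕ) :
    ((d.mv m).D f).coeff n = d.D (f.coeff n) := mvD_coeff d.D f n

end mv

end SAF
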