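import Pool.Agent.Lib.MP_dd8365_nt.Good

/-! MP_dd8365_nt (SAF): specialisation of good sets. -/

namespace SAF

/-- `finSuccEquiv` commutes with a change of coefficients -/
theorem gaussB_coeff_map {A B : Type*} [CommRing A] [CommRing B] (f : A →+* B) (m : ℕ)
    (g : MvPolynomial (Fin (m + 1)) A) (i : ℕ) :
    (MvPolynomial.finSuccEquiv B m (MvPolynomial.map f g)).coeff i =
      MvPolynomial.map f ((MvPolynomial.finSuccEquiv A m g).coeff i) := by
  ext n
  rw [MvPolynomial.finSuccEquiv_coeff_coeff, MvPolynomial.coeff_map, MvPolynomial.coeff_map,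
    MvPolynomial.finSuccEquiv_coeff_coeff]

/-- the set of coefficients commutes with a change of coefficients -/
theorem gaussB_coeffs_map {A B : Type*} [CommRing A] [CommRing B] (f : A →+* B) (m : ℕ)
    (G : Set (MvPolynomial (Fin (m + 1)) A)) :
    {c | ∃ g ∈ MvPolynomial.map f '' G, ∃ i, c = (MvPolynomial.finSuccEquiv B m g).coeff i} =
      MvPolynomial.map f ''
        {c | ∃ g ∈ G, ∃ i, c = (MvPolynomial.finSuccEquiv A m g).coeff i} := by
  ext c
  constructor
  · rintro ⟨_, ⟨g, hg, rfl⟩, i, rfl⟩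
    exact ⟨_, ⟨g, hg, i, rfl⟩, (gaussB_coeff_map f m g i).symm⟩
  · rintro ⟨_, ⟨g, hg, i, rfl⟩, rfl⟩
    exact ⟨_, ⟨g, hg, rfl⟩, i, (gaussB_coeff_map f m g i).symm⟩

/-- a finite set of polynomials has finitely many coefficients -/
theorem gaussB_coeffs_finite {A : Type*} [CommRing A] (m : ℕ)
    {G : Set (MvPolynomial (Fin (m + 1)) A)} (hfin : G.Finite) :
    {c | ∃ g ∈ G, ∃ i, c = (MvPolynomial.finSuccEquiv A m g).coeff i}.Finite := by
  have h : {c | ∃ g ∈ G, ∃ i, c = (MvPolynomial.finSuccEquiv A m g).coeff i} =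
      ⋃ g ∈ G, {c | ∃ i, c = (MvPolynomial.finSuccEquiv A m g).coeff i} := by
    ext c
    simp
  rw [h]
  refine hfin.biUnion fun g _ => ?_
  refine (((Finset.range ((MvPolynomial.finSuccEquiv A m g).natDegree + 1)).finite_toSet.image
    fun i => (MvPolynomial.finSuccEquiv A m g).coeff i).union (Set.finite_singleton 0)).subset ?_
  rintro c ⟨i, rfl⟩
  rcases lt_or_ge i ((MvPolynomial.finSuccEquiv A m g).natDegree + 1) with hi | hi
  · exact Or.inl ⟨i, by simpa using hi, rfl⟩
  · exact Or.inr (Polynomial.coeff_eq_zero_of_natDegree_lt (by omega))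

section
variable {A F : Type} [CommRing A] [IsDomain A] [Field F] [Algebra A F] [IsFractionRing A F]

/-- clearing denominators in a polynomial -/
theorem gaussB_clear {σ : Type} (p : MvPolynomial σ F) :
    ∃ d : A, d ≠ 0 ∧ ∃ q : MvPolynomial σ A,
      MvPolynomial.C (algebraMap A F d) * p = MvPolynomial.map (algebraMap A F) q := by
  induction p using MvPolynomial.induction_on' with
  | monomial u a =>
    obtain ⟨x, y, hy, rfl⟩ := IsFractionRing.div_surjective (A := A) a
    have hy0 : y ≠ 0 := nonZeroDivisors.ne_zero hy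
    have hy1 : algebraMap A F y ≠ 0 := by
      intro h
      exact hy0 ((IsFractionRing.injective A F) (by rw [h, map_zero]))
    refine ⟨y, hy0, MvPolynomial.monomial u x, ?_⟩
    rw [MvPolynomial.C_mul_monomial, MvPolynomial.map_monomial, mul_div_cancel₀ _ hy1]
  | add p q hp hq =>
    obtain ⟨d, hd, p', hp'⟩ := hp
    obtain ⟨e, he, q', hq'⟩ := hq
    refine ⟨d * e, mul_ne_zero hd he, MvPolynomial.C e * p' + MvPolynomial.C d * q', ?_⟩
    simp only [map_add, map_mul, MvPolynomial.map_C, ← hp', ← hq']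
    ring

/-- clearing denominators in a member of an ideal -/
theorem gaussB_clear_span {σ : Type} (G : Set (MvPolynomial σ A)) {p : MvPolynomial σ F}
    (hp : p ∈ Ideal.span (MvPolynomial.map (algebraMap A F) '' G)) :
    ∃ d : A, d ≠ 0 ∧ ∃ q ∈ Ideal.span G,
      MvPolynomial.C (algebraMap A F d) * p = MvPolynomial.map (algebraMap A F) q := by
  induction hp using Submodule.span_induction with
  | mem x hx =>
    obtain ⟨g, hg, rfl⟩ := hx
    exact ⟨1, one_ne_zero, g, Ideal.subset_span hg, by simp⟩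
  | zero => exact ⟨1, one_ne_zero, 0, Ideal.zero_mem _, by simp⟩
  | add x y _ _ hx hy =>
    obtain ⟨d, hd, p', hpm, hp'⟩ := hx
    obtain ⟨e, he, q', hqm, hq'⟩ := hy
    refine ⟨d * e, mul_ne_zero hd he, MvPolynomial.C e * p' + MvPolynomial.C d * q',
      Ideal.add_mem _ (Ideal.mul_mem_left _ _ hpm) (Ideal.mul_mem_left _ _ hqm), ?_⟩
    simp only [map_add, map_mul, MvPolynomial.map_C, ← hp', ← hq']
    ring
  | smul a x _ hx =>
    obtain ⟨d, hd, q, hqm, hq⟩ := hx
    obtain ⟨e, he, b, hb⟩ := gaussB_clear (A := A) a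
    refine ⟨e * d, mul_ne_zero he hd, b * q, Ideal.mul_mem_left _ _ hqm, ?_⟩
    rw [map_mul (MvPolynomial.map (algebraMap A F)), ← hb, ← hq, smul_eq_mul, map_mul, map_mul]
    ring

omit [IsDomain A] in
/-- a nonzero polynomial stays nonzero when a nonzero coefficient does -/
theorem gaussB_ne {σ : Type} {q : MvPolynomial σ A} (hq : q ≠ 0) :
    ∃ c : A, c ≠ 0 ∧ ∀ (k : Type) [Field k] (φ : A →+* k), φ c ≠ 0 →
      MvPolynomial.map φ q ≠ 0 := by
  obtain ⟨n, hn⟩ := MvPolynomial.ne_zero_iff.1 hq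
  refine ⟨q.coeff n, hn, ?_⟩
  intro k _ φ h h0
  apply h
  rw [← MvPolynomial.coeff_map, h0, MvPolynomial.coeff_zero]

/-- Induction on `m`: clear denominators in `rename succ r = ∑ b_j g_j`; `h` = product of a
nonzero coefficient of `d r` and the `h` of the induction hypothesis. -/
theorem gaussB_good_spec (m : ℕ) : ∀ (G : Set (MvPolynomial (Fin m) A)), G.Finite →
    Good m (MvPolynomial.map (algebraMap A F) '' G) →
    ∃ h : A, h ≠ 0 ∧ ∀ (k : Type) [Field k] (φ : A →+* k), φ h ≠ 0 →
      Good m (MvPolynomial.map φ '' G) := by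
  induction m with
  | zero =>
    rintro G - ⟨_, ⟨g, hg, rfl⟩, h0⟩
    have hg0 : g ≠ 0 := by
      rintro rfl
      exact h0 (map_zero _)
    obtain ⟨c, hc, h⟩ := gaussB_ne hg0
    exact ⟨c, hc, fun k _ φ hφ => ⟨_, ⟨g, hg, rfl⟩, h k φ hφ⟩⟩
  | succ m ih =>
    rintro G hfin ⟨⟨r, hr, hrm⟩, hG⟩
    rw [gaussB_coeffs_map] at hG
    obtain ⟨h1, hh1, H⟩ := ih _ (gaussB_coeffs_finite m hfin) hG
    obtain ⟨e, he, s, hs⟩ := gaussB_clear (A := A) r
    obtain ⟨d, hd, q, hqm, hq⟩ := gaussB_clear_span G hrm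
    have hinj : Function.Injective (MvPolynomial.map (algebraMap A F) :
        MvPolynomial (Fin (m + 1)) A → MvPolynomial (Fin (m + 1)) F) :=
      MvPolynomial.map_injective _ (IsFractionRing.injective A F)
    have hs0 : s ≠ 0 := by
      rintro rfl
      rw [map_zero, mul_eq_zero] at hs
      rcases hs with h | h
      · rw [MvPolynomial.C_eq_zero] at h
        exact he ((IsFractionRing.injective A F) (by rw [h, map_zero]))
      · exact hr h
    -- `C d * rename succ s = C e * q`
    have key : MvPolynomial.C d * MvPolynomial.rename Fin.succ s = MvPolynomial.C e * q := by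
      apply hinj
      rw [map_mul, map_mul, MvPolynomial.map_C, MvPolynomial.map_C, ← hq, MvPolynomial.map_rename,
        ← hs, map_mul, MvPolynomial.rename_C]
      ring
    obtain ⟨c, hc, hcs⟩ := gaussB_ne hs0
    refine ⟨d * c * h1, mul_ne_zero (mul_ne_zero hd hc) hh1, ?_⟩
    intro k _ φ hφ
    rw [map_mul, map_mul] at hφ
    have hφd : φ d ≠ 0 := left_ne_zero_of_mul (left_ne_zero_of_mul hφ)
    have hφc : φ c ≠ 0 := right_ne_zero_of_mul (left_ne_zero_of_mul hφ)
    have hφh : φ h1 ≠ 0 := right_ne_zero_of_mul hφ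
    refine ⟨⟨MvPolynomial.C (φ d) * MvPolynomial.map φ s, mul_ne_zero ?_ (hcs k φ hφc), ?_⟩, ?_⟩
    · rw [Ne, MvPolynomial.C_eq_zero]
      exact hφd
    · have h2 := congrArg (MvPolynomial.map φ) key
      rw [map_mul, map_mul, MvPolynomial.map_C, MvPolynomial.map_C, MvPolynomial.map_rename] at h2
      rw [map_mul, MvPolynomial.rename_C, h2]
      refine Ideal.mul_mem_left _ _ ?_
      rw [← Ideal.map_span]
      exact Ideal.mem_map_of_mem _ hqm
    · rw [gaussB_coeffs_map]
      exact H k φ hφh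

end

end SAF
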