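import Pool.Agent.Lib.MP_dd8365_nt.GaussA
import Pool.Agent.Lib.MP_dd8365_nt.GaussB

/-! MP_dd8365_nt (SAF): gcd one implies good; specialisation of good sets. -/

namespace SAF

/-- Induction on `m`. Step `m + 1`: `R = MvPolynomial (Fin m) k`, `finSuccEquiv` to `R[X]`. The
ideal generated by `G` in `Frac(R)[X]` is principal, generated by `d`; if `d` is not a unit, an
irreducible factor of it, made primitive in `R[X]`, is irreducible in `R[X]` and divides all `g`
(Gauss lemma, `IsPrimitive.dvd_of_fraction_map_dvd_fraction_map`). So `1 = ∑ b_j g_j`, clear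
denominators. For the coefficients: `Polynomial.C_dvd_iff_dvd_coeff`, and `C q` is irreducible. -/
theorem good_of_gcd {k : Type*} [Field k] (m : ℕ) (G : Set (MvPolynomial (Fin m) k))
    (h0 : ∃ g ∈ G, g ≠ 0) (h : ∀ q : MvPolynomial (Fin m) k, Irreducible q → ∃ g ∈ G, ¬ q ∣ g) :
    Good m G := gau_good m G h0 h

/-- Induction on `m`: clear denominators in `rename succ r = ∑ b_j g_j`; `h` = product of a
nonzero coefficient of `d r` and the `h` of the induction hypothesis. -/
theorem good_spec {A F : Type} [CommRing A] [IsDomain A] [Field F] [Algebra A F]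
    [IsFractionRing A F] (m : ℕ) (G : Set (MvPolynomial (Fin m) A)) (hfin : G.Finite)
    (hG : Good m (MvPolynomial.map (algebraMap A F) '' G)) :
    ∃ h : A, h ≠ 0 ∧ ∀ (k : Type) [Field k] (φ : A →+* k), φ h ≠ 0 →
      Good m (MvPolynomial.map φ '' G) :=
  gaussB_good_spec m G hfin hG

end SAF
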