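import Pool.Agent.Lib.MP_dd8365_nt.Good

/-! MP_dd8365_nt (SAF): gcd one implies good. -/

namespace SAF

/-- clearing denominators -/
theorem gau_clear {R F : Type*} [CommRing R] [IsDomain R] [Field F] [Algebra R F]
    [IsFractionRing R F] (J : Ideal (Polynomial R)) (f : Polynomial R)
    (h : f.map (algebraMap R F) ∈ J.map (Polynomial.mapRingHom (algebraMap R F))) :
    ∃ s : R, s ≠ 0 ∧ Polynomial.C s * f ∈ J := by
  let _ : Algebra (Polynomial R) (Polynomial F) := Polynomial.algebra R F
  have : IsLocalization ((nonZeroDivisors R).map (Polynomial.C : R →+* Polynomial R))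
    (Polynomial F) := Polynomial.isLocalization (nonZeroDivisors R) F
  have h1 : algebraMap (Polynomial R) (Polynomial F) =
      Polynomial.mapRingHom (algebraMap R F) := rfl
  rw [← h1] at h
  obtain ⟨⟨⟨x, hx⟩, ⟨s, hs⟩⟩, hxs⟩ := (IsLocalization.mem_map_algebraMap_iff
    ((nonZeroDivisors R).map (Polynomial.C : R →+* Polynomial R)) (Polynomial F)).1 h
  obtain ⟨r, hr, rfl⟩ := hs
  refine ⟨r, nonZeroDivisors.ne_zero hr, ?_⟩
  have h2 : (f * Polynomial.C r).map (algebraMap R F) = x.map (algebraMap R F) := by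
    rw [Polynomial.map_mul]
    exact hxs
  have h3 := Polynomial.map_injective _ (IsFractionRing.injective R F) h2
  rw [mul_comm, h3]
  exact hx

/-- polynomials over a factorial domain without a common irreducible factor -/
theorem gau_one {R : Type*} [CommRing R] [IsDomain R] [UniqueFactorizationMonoid R]
    (G : Set (Polynomial R)) (h0 : ∃ g ∈ G, g ≠ 0)
    (h : ∀ q : Polynomial R, Irreducible q → ∃ g ∈ G, ¬ q ∣ g) :
    ∃ r : R, r ≠ 0 ∧ Polynomial.C r ∈ Ideal.span G := by
  classical
  obtain ⟨φ, hφ⟩ : ∃ φ : Polynomial R →+* Polynomial (FractionRing R),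
    φ = Polynomial.mapRingHom (algebraMap R (FractionRing R)) := ⟨_, rfl⟩
  have hφ1 : ∀ f, φ f = f.map (algebraMap R (FractionRing R)) := fun f => by
    rw [hφ]
    rfl
  have hinj : Function.Injective φ := by
    rw [hφ]
    exact Polynomial.map_injective _ (IsFractionRing.injective R (FractionRing R))
  have hclear : ∀ (J : Ideal (Polynomial R)) (f : Polynomial R), φ f ∈ J.map φ →
      ∃ s : R, s ≠ 0 ∧ Polynomial.C s * f ∈ J := fun J f hf => by
    rw [hφ1, hφ] at hf
    exact gau_clear J f hf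
  by_contra hcon
  push Not at hcon
  obtain ⟨d, hd⟩ := (IsPrincipalIdealRing.principal ((Ideal.span G).map φ)).principal
  rw [Ideal.submodule_span_eq] at hd
  obtain ⟨g₀, hg₀, hg₀0⟩ := h0
  have hmem : ∀ g ∈ G, φ g ∈ (Ideal.span G).map φ := fun g hg =>
    Ideal.mem_map_of_mem φ (Ideal.subset_span hg)
  have hd0 : d ≠ 0 := by
    rintro rfl
    have h1 := hmem g₀ hg₀
    rw [hd, Ideal.mem_span_singleton, zero_dvd_iff] at h1
    exact hg₀0 (hinj (by rw [h1, map_zero]))
  have hdu : ¬ IsUnit d := by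
    intro hu
    have h1 : φ 1 ∈ (Ideal.span G).map φ := by
      rw [hd, Ideal.span_singleton_eq_top.2 hu]
      trivial
    obtain ⟨s, hs, hs1⟩ := hclear _ _ h1
    rw [mul_one] at hs1
    exact hcon s hs hs1
  obtain ⟨p₀, hp₀, hp₀d⟩ := WfDvdMonoid.exists_irreducible_factor hdu hd0
  -- the prime of `R[X]` below `p₀`
  have hpr : (Ideal.span {p₀}).IsPrime := (Ideal.span_singleton_prime hp₀.ne_zero).2 hp₀.prime
  have hQ : ((Ideal.span {p₀}).comap φ).IsPrime := Ideal.comap_isPrime φ (Ideal.span {p₀})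
  have hQ0 : (Ideal.span {p₀}).comap φ ≠ ⊥ := by
    intro h1
    have h2 : g₀ ∈ (Ideal.span {p₀}).comap φ := by
      rw [Ideal.mem_comap, Ideal.mem_span_singleton]
      have h3 := hmem g₀ hg₀
      rw [hd, Ideal.mem_span_singleton] at h3
      exact hp₀d.trans h3
    rw [h1] at h2
    exact hg₀0 h2
  obtain ⟨q, hq, hqp⟩ := hQ.exists_mem_prime_of_ne_bot hQ0
  rw [Ideal.mem_comap, Ideal.mem_span_singleton] at hq
  have hdeg : q.natDegree ≠ 0 := by
    intro h1
    rw [Polynomial.natDegree_eq_zero] at h1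
    obtain ⟨c, rfl⟩ := h1
    have hc : c ≠ 0 := by
      rintro rfl
      exact hqp.ne_zero (map_zero _)
    apply hp₀.not_isUnit
    refine isUnit_of_dvd_unit hq ?_
    rw [hφ1, Polynomial.map_C]
    refine Polynomial.isUnit_C.2 (isUnit_iff_ne_zero.2 ?_)
    intro h2
    exact hc (IsFractionRing.injective R (FractionRing R) (by rw [h2, map_zero]))
  have hirr : Irreducible (φ q) := by
    rw [hφ1]
    exact ((hqp.irreducible.isPrimitive hdeg).irreducible_iff_irreducible_map_fraction_map).1
      hqp.irreducible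
  have hassoc : φ q ∣ p₀ := (hp₀.associated_of_dvd hirr hq).symm.dvd
  obtain ⟨g, hg, hqg⟩ := h q hqp.irreducible
  apply hqg
  have h1 : φ g ∈ (Ideal.span {q}).map φ := by
    rw [Ideal.map_span, Set.image_singleton, Ideal.mem_span_singleton]
    have h3 := hmem g hg
    rw [hd, Ideal.mem_span_singleton] at h3
    exact (hassoc.trans hp₀d).trans h3
  obtain ⟨s, hs, hs1⟩ := hclear _ _ h1
  rw [Ideal.mem_span_singleton] at hs1
  refine (hqp.dvd_or_dvd hs1).resolve_left fun h2 => hdeg ?_
  have h3 := Polynomial.natDegree_le_of_dvd h2 (Polynomial.C_ne_zero.2 hs)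
  rw [Polynomial.natDegree_C] at h3
  omega

theorem gau_rename {k : Type*} [Field k] (m : ℕ) (r : MvPolynomial (Fin m) k) :
    MvPolynomial.finSuccEquiv k m (MvPolynomial.rename Fin.succ r) = Polynomial.C r := by
  induction r using MvPolynomial.induction_on with
  | C a =>
    rw [MvPolynomial.rename_C, MvPolynomial.finSuccEquiv_apply, MvPolynomial.eval₂Hom_C]
    rfl
  | add p q hp hq => rw [map_add, map_add, hp, hq, map_add]
  | mul_X p i hp =>
    rw [map_mul, map_mul, hp, MvPolynomial.rename_X, MvPolynomial.finSuccEquiv_X_succ, map_mul]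

theorem gau_good {k : Type*} [Field k] : ∀ (m : ℕ) (G : Set (MvPolynomial (Fin m) k)),
    (∃ g ∈ G, g ≠ 0) → (∀ q : MvPolynomial (Fin m) k, Irreducible q → ∃ g ∈ G, ¬ q ∣ g) →
    Good m G
  | 0, G, h0, _ => h0
  | m + 1, G, h0, h => by
      obtain ⟨e, he⟩ : ∃ e, e = MvPolynomial.finSuccEquiv k m := ⟨_, rfl⟩
      have hirr : ∀ q : Polynomial (MvPolynomial (Fin m) k), Irreducible q →
          Irreducible (e.symm q) := fun q hq => (MulEquiv.irreducible_iff e.symm).2 hq
      have hC : ∀ r : MvPolynomial (Fin m) k, e.symm (Polynomial.C r) =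
          MvPolynomial.rename Fin.succ r := by
        intro r
        rw [AlgEquiv.symm_apply_eq, he]
        exact (gau_rename m r).symm
      have hdvd : ∀ (q : Polynomial (MvPolynomial (Fin m) k)) (g : MvPolynomial (Fin (m + 1)) k),
          q ∣ e g → e.symm q ∣ g := by
        intro q g hq
        have h1 := map_dvd e.symm hq
        rwa [AlgEquiv.symm_apply_apply] at h1
      refine ⟨?_, gau_good m _ ?_ ?_⟩
      · obtain ⟨r, hr, h1⟩ := gau_one (e '' G) (by
          obtain ⟨g, hg, hg0⟩ := h0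
          exact ⟨e g, ⟨g, hg, rfl⟩, fun h2 => hg0 (by simpa using h2)⟩) (by
          intro q hq
          obtain ⟨g, hg, hqg⟩ := h _ (hirr q hq)
          exact ⟨e g, ⟨g, hg, rfl⟩, fun h2 => hqg (hdvd q g h2)⟩)
        refine ⟨r, hr, ?_⟩
        rw [← hC]
        have h2 := Ideal.mem_map_of_mem e.symm h1
        rw [Ideal.map_span, Set.image_image] at h2
        simpa using h2
      · obtain ⟨g, hg, hg0⟩ := h0
        have h2 : MvPolynomial.finSuccEquiv k m g ≠ 0 := fun h3 => hg0 (by simpa using h3)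
        obtain ⟨i, hi⟩ : ∃ i, (MvPolynomial.finSuccEquiv k m g).coeff i ≠ 0 := by
          by_contra hcon
          push Not at hcon
          exact h2 (Polynomial.ext hcon)
        exact ⟨_, ⟨g, hg, i, rfl⟩, hi⟩
      · intro q hq
        have hq2 : Irreducible (Polynomial.C q) := by
          have := Polynomial.prime_C_iff.2 hq.prime
          exact this.irreducible
        obtain ⟨g, hg, hqg⟩ := h _ (hirr _ hq2)
        have h1 : ¬ Polynomial.C q ∣ e g := fun h2 => hqg (hdvd _ g h2)
        rw [Polynomial.C_dvd_iff_dvd_coeff] at h1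
        push Not at h1
        obtain ⟨i, hi⟩ := h1
        rw [he] at hi
        exact ⟨_, ⟨g, hg, i, rfl⟩, hi⟩

end SAF
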