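import Pool.Agent.Lib.MP_dd8365_nt.Basic

/-! MP_dd8365_nt (SAF): polynomials with a unit coefficient have unit values (large residue field). -/

open IsDedekindDomain NumberField

namespace SAF

variable {K : Type} [Field K] [NumberField K]

theorem av_one_iff (v : HeightOneSpectrum (𝓞 K)) (x : 𝓞 K) :
    av (Sum.inl v) (x : K) = 1 ↔ x ∉ v.asIdeal :=
  v.adicAbv_coe_eq_one_iff (K := K) (HeightOneSpectrum.one_lt_absNorm_nnreal v) x

/-- a common denominator which is a `v`-unit -/
theorem common_denom (v : HeightOneSpectrum (𝓞 K)) {ι : Type*} (s : Finset ι) (x : ι → K)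
    (hx : ∀ i ∈ s, av (Sum.inl v) (x i) ≤ 1) :
    ∃ d : 𝓞 K, av (Sum.inl v) (d : K) = 1 ∧ ∀ i ∈ s, ∃ y : 𝓞 K, (y : K) = d * x i := by
  classical
  induction s using Finset.induction_on with
  | empty => exact ⟨1, by simp, fun i hi => absurd hi (by simp)⟩
  | insert a s ha ih =>
    obtain ⟨d, hd, hy⟩ := ih (fun i hi => hx i (Finset.mem_insert_of_mem hi))
    obtain ⟨d', hd', y', hy'⟩ := av_denom v (x a) (hx a (Finset.mem_insert_self _ _))
    refine ⟨d * d', ?_, ?_⟩
    · rw [show ((d * d' : 𝓞 K) : K) = (d : K) * (d' : K) from map_mul _ _ _, map_mul, hd, hd',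
        one_mul]
    · intro i hi
      rcases Finset.mem_insert.mp hi with rfl | hi
      · refine ⟨d * y', ?_⟩
        rw [show ((d * y' : 𝓞 K) : K) = (d : K) * (y' : K) from map_mul _ _ _, hy',
          show ((d * d' : 𝓞 K) : K) = (d : K) * (d' : K) from map_mul _ _ _]
        ring
      · obtain ⟨y, hy⟩ := hy i hi
        refine ⟨d' * y, ?_⟩
        rw [show ((d' * y : 𝓞 K) : K) = (d' : K) * (y : K) from map_mul _ _ _, hy,
          show ((d * d' : 𝓞 K) : K) = (d : K) * (d' : K) from map_mul _ _ _]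
        ring

theorem finite_quot (v : HeightOneSpectrum (𝓞 K)) {n : ℕ} (h : n < Ideal.absNorm v.asIdeal) :
    Finite (𝓞 K ⧸ v.asIdeal) := by
  apply Nat.finite_of_card_ne_zero
  rw [← Submodule.cardQuot_apply, ← Ideal.absNorm_apply]
  omega

/-- multiply by a `v`-unit of `𝓞 K` to have coefficients in `𝓞 K` (`av_denom`), reduce modulo `v`;
over a finite field with `q` elements a nonzero polynomial with total degree `< q` has a nonzero
value. -/
theorem exists_unit_value (v : HeightOneSpectrum (𝓞 K)) {m : ℕ} (f : MvPolynomial (Fin m) K)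
    (hf : ∀ n, av (Sum.inl v) (f.coeff n) ≤ 1) (hu : ∃ n, av (Sum.inl v) (f.coeff n) = 1)
    (hd : f.totalDegree < Ideal.absNorm v.asIdeal) :
    ∃ t : Fin m → 𝓞 K, av (Sum.inl v) (MvPolynomial.eval (fun i => (t i : K)) f) = 1 := by
  classical
  obtain ⟨d, hd1, hy⟩ := common_denom v f.support (fun n => f.coeff n) (fun n _ => hf n)
  have hy' : ∀ n, ∃ y : 𝓞 K, (y : K) = d * f.coeff n := by
    intro n
    by_cases hn : n ∈ f.support
    · exact hy n hn
    · refine ⟨0, ?_⟩
      rw [MvPolynomial.notMem_support_iff.mp hn]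
      simp
  choose y hy using hy'
  set F : MvPolynomial (Fin m) (𝓞 K) := ∑ n ∈ f.support, MvPolynomial.monomial n (y n) with hF
  have hFc : ∀ n, F.coeff n = y n := by
    intro n
    rw [hF, MvPolynomial.coeff_sum]
    simp only [MvPolynomial.coeff_monomial]
    rw [Finset.sum_ite_eq' f.support n]
    split_ifs with h
    · rfl
    · have h1 := hy n
      rw [MvPolynomial.notMem_support_iff.mp h, mul_zero] at h1
      exact (NumberField.RingOfIntegers.coe_eq_zero_iff.mp h1).symm
  have hFmap : MvPolynomial.map (algebraMap (𝓞 K) K) F = MvPolynomial.C (d : K) * f := by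
    ext n
    rw [MvPolynomial.coeff_map, hFc, MvPolynomial.coeff_C_mul]
    exact hy n
  have hFdeg : F.totalDegree ≤ f.totalDegree := by
    rw [hF]
    refine (MvPolynomial.totalDegree_finsetSum _ _).trans (Finset.sup_le fun n hn => ?_)
    exact (MvPolynomial.totalDegree_monomial_le _ _).trans
      (MvPolynomial.le_totalDegree hn)
  -- reduction
  have hprime := v.isPrime
  have hfin : Finite (𝓞 K ⧸ v.asIdeal) := finite_quot v hd
  have := Fintype.ofFinite (𝓞 K ⧸ v.asIdeal)
  set π := Ideal.Quotient.mk v.asIdeal with hπ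
  have hne : MvPolynomial.map π F ≠ 0 := by
    intro h0
    obtain ⟨n, hn⟩ := hu
    have h1 : π (y n) = 0 := by
      rw [← hFc, ← MvPolynomial.coeff_map, h0, MvPolynomial.coeff_zero]
    rw [hπ, Ideal.Quotient.eq_zero_iff_mem] at h1
    have h2 : av (Sum.inl v) (y n : K) = 1 := by
      rw [hy, map_mul, hd1, hn, one_mul]
    exact (av_one_iff v _).mp h2 h1
  have hex : ∃ u : Fin m → 𝓞 K ⧸ v.asIdeal, MvPolynomial.eval u (MvPolynomial.map π F) ≠ 0 := by
    by_contra hcon
    push Not at hcon
    apply hne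
    refine MvPolynomial.eq_zero_of_eval_zero_at_prod_finset _ (fun _ => Finset.univ) ?_
      (fun u _ => hcon u)
    intro i
    calc (MvPolynomial.map π F).degreeOf i ≤ (MvPolynomial.map π F).totalDegree :=
          MvPolynomial.degreeOf_le_totalDegree _ _
      _ ≤ F.totalDegree := by
        apply Finset.sup_mono
        exact MvPolynomial.support_map_subset _ _
      _ ≤ f.totalDegree := hFdeg
      _ < Ideal.absNorm v.asIdeal := hd
      _ = _ := by
        rw [Ideal.absNorm_apply, Submodule.cardQuot_apply, Nat.card_eq_fintype_card,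
          Finset.card_univ]
  obtain ⟨u, hu'⟩ := hex
  choose t ht using fun i => Ideal.Quotient.mk_surjective (u i)
  refine ⟨t, ?_⟩
  have h1 : π (MvPolynomial.eval t F) ≠ 0 := by
    intro h
    apply hu'
    have h3 : u = π ∘ t := funext fun i => (ht i).symm
    have h4 := MvPolynomial.eval₂_comp_left π (RingHom.id _) t F
    rw [RingHom.comp_id, ← h3] at h4
    rw [MvPolynomial.eval_map, ← h4]
    exact h
  rw [hπ, Ne, Ideal.Quotient.eq_zero_iff_mem, ← av_one_iff] at h1
  have h2 : ((MvPolynomial.eval t F : 𝓞 K) : K) = d * MvPolynomial.eval (fun i => (t i : K)) f := by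
    have h4 := MvPolynomial.eval₂_comp_left (algebraMap (𝓞 K) K) (RingHom.id _) t F
    have h5 : MvPolynomial.eval (⇑(algebraMap (𝓞 K) K) ∘ t)
        (MvPolynomial.map (algebraMap (𝓞 K) K) F) =
        MvPolynomial.eval₂ (algebraMap (𝓞 K) K) (⇑(algebraMap (𝓞 K) K) ∘ t) F :=
      MvPolynomial.eval_map _ _ _
    rw [hFmap, map_mul, MvPolynomial.eval_C] at h5
    rw [RingHom.comp_id, ← h5] at h4
    exact h4
  rw [h2, map_mul, hd1, one_mul] at h1
  exact h1

/-- one variable version (used for the coefficient polynomials) -/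
theorem exists_unit_value1 (v : HeightOneSpectrum (𝓞 K)) (f : Polynomial K)
    (hf : ∀ n, av (Sum.inl v) (f.coeff n) ≤ 1) (hu : ∃ n, av (Sum.inl v) (f.coeff n) = 1)
    (hd : f.natDegree < Ideal.absNorm v.asIdeal) :
    ∃ t : 𝓞 K, av (Sum.inl v) (f.eval (t : K)) = 1 := by
  classical
  obtain ⟨d, hd1, hy⟩ := common_denom v f.support (fun n => f.coeff n) (fun n _ => hf n)
  have hy' : ∀ n, ∃ y : 𝓞 K, (y : K) = d * f.coeff n := by
    intro n
    by_cases hn : n ∈ f.support
    · exact hy n hn
    · refine ⟨0, ?_⟩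
      rw [Polynomial.notMem_support_iff.mp hn]
      simp
  choose y hy using hy'
  set F : Polynomial (𝓞 K) := ∑ n ∈ f.support, Polynomial.monomial n (y n) with hF
  have hFc : ∀ n, F.coeff n = y n := by
    intro n
    rw [hF, Polynomial.finsetSum_coeff]
    simp only [Polynomial.coeff_monomial]
    rw [Finset.sum_ite_eq' f.support n]
    split_ifs with h
    · rfl
    · have h1 := hy n
      rw [Polynomial.notMem_support_iff.mp h, mul_zero] at h1
      exact (NumberField.RingOfIntegers.coe_eq_zero_iff.mp h1).symm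
  have hFmap : F.map (algebraMap (𝓞 K) K) = Polynomial.C (d : K) * f := by
    ext n
    rw [Polynomial.coeff_map, hFc, Polynomial.coeff_C_mul]
    exact hy n
  have hFdeg : F.natDegree ≤ f.natDegree := by
    rw [Polynomial.natDegree_le_iff_coeff_eq_zero]
    intro n hn
    rw [hFc]
    have h1 := hy n
    rw [Polynomial.coeff_eq_zero_of_natDegree_lt hn, mul_zero] at h1
    exact NumberField.RingOfIntegers.coe_eq_zero_iff.mp h1
  -- reduction
  have hprime := v.isPrime
  have hfin : Finite (𝓞 K ⧸ v.asIdeal) := finite_quot v hd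
  have := Fintype.ofFinite (𝓞 K ⧸ v.asIdeal)
  set π := Ideal.Quotient.mk v.asIdeal with hπ
  have hne : F.map π ≠ 0 := by
    intro h0
    obtain ⟨n, hn⟩ := hu
    have h1 : π (y n) = 0 := by
      rw [← hFc, ← Polynomial.coeff_map, h0, Polynomial.coeff_zero]
    rw [hπ, Ideal.Quotient.eq_zero_iff_mem] at h1
    have h2 : av (Sum.inl v) (y n : K) = 1 := by
      rw [hy, map_mul, hd1, hn, one_mul]
    exact (av_one_iff v _).mp h2 h1
  obtain ⟨u, hu'⟩ := Polynomial.exists_eval_ne_zero_of_natDegree_lt_card (F.map π) hne (by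
    have h5 : (F.map π).natDegree < Fintype.card (𝓞 K ⧸ v.asIdeal) := by
      calc (F.map π).natDegree ≤ F.natDegree := Polynomial.natDegree_map_le
        _ ≤ f.natDegree := hFdeg
        _ < Ideal.absNorm v.asIdeal := hd
        _ = _ := by
          rw [Ideal.absNorm_apply, Submodule.cardQuot_apply, Nat.card_eq_fintype_card]
    rw [Cardinal.mk_fintype]
    exact_mod_cast h5)
  obtain ⟨t, ht⟩ := Ideal.Quotient.mk_surjective u
  refine ⟨t, ?_⟩
  have h1 : π (F.eval t) ≠ 0 := by
    intro h
    apply hu'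
    rw [← ht, Polynomial.eval_map_apply]
    exact h
  rw [hπ, Ne, Ideal.Quotient.eq_zero_iff_mem, ← av_one_iff] at h1
  have h2 : ((F.eval t : 𝓞 K) : K) = d * f.eval (t : K) := by
    have h4 : (F.map (algebraMap (𝓞 K) K)).eval (algebraMap (𝓞 K) K t) =
        algebraMap (𝓞 K) K (F.eval t) := Polynomial.eval_map_apply _ _
    rw [hFmap, Polynomial.eval_mul, Polynomial.eval_C] at h4
    exact h4.symm
  rw [h2, map_mul, hd1, one_mul] at h1
  exact h1

end SAF
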