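import Pool.Agent.Lib.MP_dd8365_nt.SA1
import Pool.Agent.Lib.MP_dd8365_nt.Resid

/-! MP_dd8365_nt (SAF): good sets of polynomials and strong approximation for their complements. -/

open IsDedekindDomain NumberField

namespace SAF

/-- Inductive certificate for `V(G)` having codimension at least two in affine space. -/
def Good {k : Type*} [Field k] : (m : ℕ) → Set (MvPolynomial (Fin m) k) → Prop
  | 0, G => ∃ g ∈ G, g ≠ 0
  | m + 1, G => (∃ r : MvPolynomial (Fin m) k, r ≠ 0 ∧
      MvPolynomial.rename Fin.succ r ∈ Ideal.span G) ∧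
      Good m {c | ∃ g ∈ G, ∃ i, c = (MvPolynomial.finSuccEquiv k m g).coeff i}

variable {K : Type} [Field K] [NumberField K]

theorem good_fin_min {α : Type*} (s : Finset α) (δ : α → ℝ) (h : ∀ a ∈ s, 0 < δ a) :
    ∃ ε > 0, ∀ a ∈ s, ε ≤ δ a := by
  classical
  induction s using Finset.induction_on with
  | empty => exact ⟨1, one_pos, by simp⟩
  | insert a s ha ih =>
    obtain ⟨ε, h1, h2⟩ := ih (fun b hb => h b (Finset.mem_insert_of_mem hb))
    refine ⟨min ε (δ a), lt_min h1 (h a (Finset.mem_insert_self _ _)), ?_⟩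
    intro b hb
    rcases Finset.mem_insert.1 hb with rfl | hb
    · exact min_le_right _ _
    · exact (min_le_left _ _).trans (h2 b hb)

theorem good_eq_one (v : HeightOneSpectrum (𝓞 K)) {x y : K} (h : av (Sum.inl v) (x - y) < 1)
    (hy : av (Sum.inl v) y = 1) : av (Sum.inl v) x = 1 := by
  have h1 := av_add v (x - y) y
  rw [sub_add_cancel, hy] at h1
  have h2 := av_add v (y - x) x
  rw [sub_add_cancel, hy, AbsoluteValue.map_sub] at h2
  rcases le_max_iff.1 h2 with h3 | h3
  · linarith
  · exact le_antisymm (h1.trans (max_le h.le le_rfl)) h3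

theorem good_sum_lt {ι : Type*} (s : Finset ι) (v : HeightOneSpectrum (𝓞 K)) (f : ι → K)
    (hf : ∀ i ∈ s, av (Sum.inl v) (f i) < 1) : av (Sum.inl v) (∑ i ∈ s, f i) < 1 := by
  classical
  induction s using Finset.induction_on with
  | empty => simp
  | insert a s ha ih =>
    rw [Finset.sum_insert ha]
    refine (av_add v _ _).trans_lt (max_lt (hf a (Finset.mem_insert_self _ _)) ?_)
    exact ih fun i hi => hf i (Finset.mem_insert_of_mem hi)

/-- a sum of products of integral elements which is a unit has a unit second factor -/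
theorem good_sum_unit {ι : Type*} (s : Finset ι) (v : HeightOneSpectrum (𝓞 K)) (a f : ι → K)
    (ha : ∀ i ∈ s, av (Sum.inl v) (a i) ≤ 1) (hf : ∀ i ∈ s, av (Sum.inl v) (f i) ≤ 1)
    (h : av (Sum.inl v) (∑ i ∈ s, a i * f i) = 1) : ∃ i ∈ s, av (Sum.inl v) (f i) = 1 := by
  by_contra hcon
  push Not at hcon
  have h1 := good_sum_lt s v (fun i => a i * f i) (by
    intro i hi
    show av (Sum.inl v) (a i * f i) < 1
    rw [map_mul]
    have h2 : av (Sum.inl v) (f i) < 1 := lt_of_le_of_ne (hf i hi) (hcon i hi)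
    calc av (Sum.inl v) (a i) * av (Sum.inl v) (f i) ≤ 1 * av (Sum.inl v) (f i) :=
          mul_le_mul_of_nonneg_right (ha i hi) ((av (Sum.inl v)).nonneg _)
      _ < 1 := by rwa [one_mul])
  rw [h] at h1
  exact lt_irrefl _ h1

/-- a small ball around a good point consists of good points -/
theorem good_ball (v : HeightOneSpectrum (𝓞 K)) {m : ℕ} (g : MvPolynomial (Fin m) K)
    (t₀ : Fin m → K) (h₀ : ∀ i, av (Sum.inl v) (t₀ i) ≤ 1)
    (hg : av (Sum.inl v) (MvPolynomial.eval t₀ g) = 1) :
    ∃ δ > 0, ∀ t : Fin m → K, (∀ i, av (Sum.inl v) (t i - t₀ i) < δ) →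
      (∀ i, av (Sum.inl v) (t i) ≤ 1) ∧ av (Sum.inl v) (MvPolynomial.eval t g) = 1 := by
  obtain ⟨ε, hε, h⟩ := av_cont (Sum.inl v) g t₀ one_pos
  refine ⟨min ε 1, lt_min hε one_pos, ?_⟩
  intro t ht
  constructor
  · intro i
    have h1 := av_add v (t i - t₀ i) (t₀ i)
    rw [sub_add_cancel] at h1
    exact h1.trans (max_le ((ht i).le.trans (min_le_right _ _)) (h₀ i))
  · exact good_eq_one v (h t fun i => (ht i).trans_le (min_le_left _ _)) hg

/-- the same with a nonzero polynomial which does not vanish on the ball -/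
theorem good_ball_ne (v : HeightOneSpectrum (𝓞 K)) {m : ℕ} (g r : MvPolynomial (Fin m) K)
    (hr : r ≠ 0) (t₀ : Fin m → K) (h₀ : ∀ i, av (Sum.inl v) (t₀ i) ≤ 1)
    (hg : av (Sum.inl v) (MvPolynomial.eval t₀ g) = 1) :
    ∃ c : Fin m → K, ∃ δ > 0, ∀ t : Fin m → K, (∀ i, av (Sum.inl v) (t i - c i) < δ) →
      ((∀ i, av (Sum.inl v) (t i) ≤ 1) ∧ av (Sum.inl v) (MvPolynomial.eval t g) = 1) ∧
      MvPolynomial.eval t r ≠ 0 := by
  obtain ⟨δ, hδ, h⟩ := good_ball v g t₀ h₀ hg
  obtain ⟨c, hc, hrc⟩ := av_ne (Sum.inl v) r hr t₀ hδ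
  obtain ⟨ε, hε, h'⟩ := av_cont (Sum.inl v) r c ((av (Sum.inl v)).pos hrc)
  refine ⟨c, min ε δ, lt_min hε hδ, ?_⟩
  intro t ht
  refine ⟨h t fun i => ?_, ?_⟩
  · have h1 := av_add v (t i - c i) (c i - t₀ i)
    rw [sub_add_sub_cancel] at h1
    exact h1.trans_lt (max_lt ((ht i).trans_le (min_le_right _ _)) (hc i))
  · intro h0
    have h2 := h' t fun i => (ht i).trans_le (min_le_left _ _)
    rw [h0, zero_sub, AbsoluteValue.map_neg] at h2
    exact lt_irrefl _ h2

theorem good_eval {k : Type*} [Field k] {m : ℕ} (g : MvPolynomial (Fin (m + 1)) k)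
    (t : Fin (m + 1) → k) : MvPolynomial.eval t g =
      ∑ i ∈ Finset.range ((MvPolynomial.finSuccEquiv k m g).natDegree + 1),
        (t 0) ^ i * MvPolynomial.eval (Fin.tail t) ((MvPolynomial.finSuccEquiv k m g).coeff i) := by
  conv_lhs => rw [← Fin.cons_self_tail t]
  rw [MvPolynomial.eval_eq_eval_mv_eval', Polynomial.eval_map, Polynomial.eval₂_eq_sum_range]
  refine Finset.sum_congr rfl fun i _ => ?_
  rw [mul_comm]

theorem good_coeff_finite {k : Type*} [Field k] {m : ℕ} {G : Set (MvPolynomial (Fin (m + 1)) k)}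
    (hfin : G.Finite) :
    {c | ∃ g ∈ G, ∃ i, c = (MvPolynomial.finSuccEquiv k m g).coeff i}.Finite := by
  have h : {c | ∃ g ∈ G, ∃ i, c = (MvPolynomial.finSuccEquiv k m g).coeff i} =
      ⋃ g ∈ G, {c | ∃ i, c = (MvPolynomial.finSuccEquiv k m g).coeff i} := by
    ext c
    simp
  rw [h]
  refine hfin.biUnion fun g _ => ?_
  refine (((Finset.range ((MvPolynomial.finSuccEquiv k m g).natDegree + 1)).finite_toSet.image
    fun i => (MvPolynomial.finSuccEquiv k m g).coeff i).union (Set.finite_singleton 0)).subset ?_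
  rintro c ⟨i, rfl⟩
  rcases Nat.lt_or_ge i ((MvPolynomial.finSuccEquiv k m g).natDegree + 1) with hi | hi
  · left
    exact ⟨i, by simpa using hi, rfl⟩
  · right
    rw [Set.mem_singleton_iff]
    exact Polynomial.coeff_eq_zero_of_natDegree_lt (by omega)

theorem good_bad_finite {m : ℕ} (a : MvPolynomial (Fin m) K) :
    {v : HeightOneSpectrum (𝓞 K) | ¬ ∀ n, av (Sum.inl v) (a.coeff n) ≤ 1}.Finite := by
  refine (a.support.finite_toSet.biUnion fun n _ => av_bad' (a.coeff n)).subset ?_
  intro v hv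
  rw [Set.mem_ofPred_eq] at hv
  push Not at hv
  obtain ⟨n, hn⟩ := hv
  have hn0 : n ∈ a.support := by
    rw [MvPolynomial.mem_support_iff]
    intro h0
    rw [h0, map_zero] at hn
    linarith
  simp only [Set.mem_iUnion]
  exact ⟨n, hn0, by simpa using hn⟩

/-- Strong approximation for `𝔸^m \ V(G)`. Induction on `m`; `m = 0` is trivial.
Step `m + 1`: `r ≠ 0`, `rename succ r = ∑ a_j g_j` (`a_j` finitely many polynomials). Let `D` be
a bound for the degrees in variable `0` of `G`. `Ω'` = `Ω` plus the finite `v ∉ Ω ∪ S` where some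
`a_j` or `r` has a nonintegral coefficient or `absNorm ≤ D`, plus one more finite place
`v₁ ∉ Ω ∪ S`; centers at the new places: the points `t` of `hint`. Choose `ε' ≤ min ε 1` such that
at the new places `|t - c_v| < ε'` implies `|g t|_v = 1` (ultrametric, `av_cont` with `δ = 1`).
Move the center at `v₁` a little (`av_ne`) such that `r ≠ 0` at (the last `m` coordinates of) it
and in a small ball around it. Induction hypothesis for the last `m` coordinates and the (finite)
set of coefficients: its `hc` is clear since `g (c_p) ≠ 0`, its `hint` since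
`1 = |g t| ≤ max |coefficient at t'|`. We get `t'` with `r(t') ≠ 0`. At the finitely many
`v ∉ Ω' ∪ S` with `|r(t')|_v < 1` choose `τ_v` with `|g(τ_v, t')|_v = 1` by `exists_unit_value1`.
Use `SA1` for the coordinate `0` with `Ω'` and these `v`. At all other `v` (not in `S`):
`r(t') = ∑ a_j(t) g_j(t)` is a unit, hence some `g_j(t)` is. -/
theorem SAm (S : Set (Place K)) (hS : S.Finite) (hne : S.Nonempty) (m : ℕ)
    (G : Set (MvPolynomial (Fin m) K)) (hfin : G.Finite) (hG : Good m G)
    (Ω : Finset (Place K)) (hΩ : ∀ p ∈ Ω, p ∉ S) (c : Place K → Fin m → K)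
    (hc : ∀ p ∈ Ω, ∃ g ∈ G, MvPolynomial.eval (c p) g ≠ 0)
    (hint : ∀ v, Sum.inl v ∉ Ω → Sum.inl v ∉ S →
      (∀ g ∈ G, ∀ n, av (Sum.inl v) (g.coeff n) ≤ 1) ∧
      ∃ t : Fin m → K, (∀ i, av (Sum.inl v) (t i) ≤ 1) ∧
        ∃ g ∈ G, av (Sum.inl v) (MvPolynomial.eval t g) = 1)
    {ε : ℝ} (hε : 0 < ε) : ∃ t : Fin m → K, (∀ p ∈ Ω, ∀ i, av p (t i - c p i) < ε) ∧
      ∀ v, Sum.inl v ∉ Ω → Sum.inl v ∉ S → (∀ i, av (Sum.inl v) (t i) ≤ 1) ∧
        ∃ g ∈ G, av (Sum.inl v) (MvPolynomial.eval t g) = 1 := by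
  classical
  induction m generalizing Ω ε with
  | zero =>
    refine ⟨fun i => i.elim0, fun p _ i => i.elim0, fun v hv hvS => ⟨fun i => i.elim0, ?_⟩⟩
    obtain ⟨_, t, _, g, hg, hgt⟩ := hint v hv hvS
    refine ⟨g, hg, ?_⟩
    rwa [Subsingleton.elim (fun i : Fin 0 => (i.elim0 : K)) t]
  | succ m ih =>
    obtain ⟨⟨r, hr, hspan⟩, hGC⟩ := hG
    set R := MvPolynomial.rename Fin.succ r with hR
    have hR0 : R ≠ 0 := by
      rw [hR]
      intro h0
      exact hr ((map_eq_zero_iff _ (MvPolynomial.rename_injective _ (Fin.succ_injective m))).1 h0)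
    have hRe : ∀ t : Fin (m + 1) → K, MvPolynomial.eval t R =
        MvPolynomial.eval (Fin.tail t) r := by
      intro t
      rw [hR, MvPolynomial.eval_rename]
      rfl
    set Gf := hfin.toFinset with hGf
    have hmemG : ∀ g, g ∈ Gf ↔ g ∈ G := fun g => hfin.mem_toFinset
    obtain ⟨a, _, ha⟩ : ∃ f : MvPolynomial (Fin (m + 1)) K → MvPolynomial (Fin (m + 1)) K,
        Function.support f ⊆ Gf ∧ ∑ g ∈ Gf, f g • g = R := by
      rw [← Submodule.mem_span_finset, hfin.coe_toFinset]
      exact hspan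
    obtain ⟨D, hD⟩ : ∃ D, ∀ g ∈ G, (MvPolynomial.finSuccEquiv K m g).natDegree ≤ D :=
      ⟨Gf.sup fun g => (MvPolynomial.finSuccEquiv K m g).natDegree, fun g hg =>
        Finset.le_sup (f := fun g => (MvPolynomial.finSuccEquiv K m g).natDegree) ((hmemG g).2 hg)⟩
    -- the bad places
    have hBfin : ({v : HeightOneSpectrum (𝓞 K) | ∃ g ∈ Gf, ¬ ∀ n, av (Sum.inl v) ((a g).coeff n) ≤ 1} ∪
        {v : HeightOneSpectrum (𝓞 K) | Ideal.absNorm v.asIdeal ≤ D}).Finite := by
      refine Set.Finite.union ?_ (small_norm D)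
      refine (Gf.finite_toSet.biUnion fun g _ => good_bad_finite (a g)).subset ?_
      rintro v ⟨g, hg, hv⟩
      simp only [Set.mem_iUnion]
      exact ⟨g, hg, hv⟩
    set B := hBfin.toFinset with hB
    have hΩSfin : ({v : HeightOneSpectrum (𝓞 K) | Sum.inl v ∈ Ω} ∪
        {v : HeightOneSpectrum (𝓞 K) | Sum.inl v ∈ S}).Finite := by
      refine Set.Finite.union ?_ ?_
      · exact Ω.finite_toSet.preimage Sum.inl_injective.injOn
      · exact hS.preimage Sum.inl_injective.injOn
    obtain ⟨v₁, _, hv₁⟩ := infinite_places (K := K) |>.exists_notMem_finset hΩSfin.toFinset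
    have hv₁Ω : Sum.inl v₁ ∉ Ω := fun h => hv₁ (hΩSfin.mem_toFinset.2 (Or.inl h))
    have hv₁S : Sum.inl v₁ ∉ S := fun h => hv₁ (hΩSfin.mem_toFinset.2 (Or.inr h))
    -- the centers
    have hcen : ∀ p : Place K, ∃ c' : Fin (m + 1) → K, ∃ δ : ℝ, 0 < δ ∧ (p ∈ Ω → c' = c p) ∧
        (∀ v, p = Sum.inl v → p ∉ Ω → p ∉ S → ∀ t : Fin (m + 1) → K,
          (∀ i, av p (t i - c' i) < δ) → (∀ i, av (Sum.inl v) (t i) ≤ 1) ∧
            ∃ g ∈ G, av (Sum.inl v) (MvPolynomial.eval t g) = 1) ∧
        (p = Sum.inl v₁ → ∀ t : Fin (m + 1) → K,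
          (∀ i, av p (t i - c' i) < δ) → MvPolynomial.eval t R ≠ 0) := by
      intro p
      by_cases hp : p ∈ Ω
      · refine ⟨c p, 1, one_pos, fun _ => rfl, fun v _ h => absurd hp h, fun h => ?_⟩
        exact absurd (h ▸ hp) hv₁Ω
      · by_cases hpS : p ∈ S
        · refine ⟨0, 1, one_pos, fun h => absurd h hp, fun v _ _ h => absurd hpS h, fun h => ?_⟩
          exact absurd (h ▸ hpS) hv₁S
        · rcases p with v | w
          · obtain ⟨_, t₀, ht₀, g, hg, hgt⟩ := hint v hp hpS
            obtain ⟨c', δ, hδ, h⟩ := good_ball_ne v g R hR0 t₀ ht₀ hgt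
            refine ⟨c', δ, hδ, fun h => absurd h hp, ?_, fun _ t ht => (h t ht).2⟩
            intro v' hv' _ _ t ht
            obtain rfl : v = v' := Sum.inl_injective hv'
            exact ⟨(h t ht).1.1, g, hg, (h t ht).1.2⟩
          · exact ⟨0, 1, one_pos, fun h => absurd h hp, fun v h => absurd h (by simp),
              fun h => absurd h (by simp)⟩
    choose c' δ hδ hcΩ hcb hcr using hcen
    -- the set Ω'
    set Ω' : Finset (Place K) := Ω ∪ ((insert v₁ B).image Sum.inl).filter (fun p => p ∉ S) with hΩ'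
    have hΩΩ' : Ω ⊆ Ω' := Finset.subset_union_left
    have hΩ'S : ∀ p ∈ Ω', p ∉ S := by
      intro p hp
      rw [hΩ', Finset.mem_union, Finset.mem_filter] at hp
      rcases hp with hp | hp
      · exact hΩ p hp
      · exact hp.2
    have hv₁Ω' : Sum.inl v₁ ∈ Ω' := by
      rw [hΩ', Finset.mem_union, Finset.mem_filter]
      exact Or.inr ⟨Finset.mem_image_of_mem _ (Finset.mem_insert_self _ _), hv₁S⟩
    have hBΩ' : ∀ v, Sum.inl v ∉ Ω' → Sum.inl v ∉ S →
        (∀ g ∈ G, ∀ n, av (Sum.inl v) ((a g).coeff n) ≤ 1) ∧ D < Ideal.absNorm v.asIdeal := by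
      intro v hv hvS
      have hvB : v ∉ B := by
        intro h
        apply hv
        rw [hΩ', Finset.mem_union, Finset.mem_filter]
        exact Or.inr ⟨Finset.mem_image_of_mem _ (Finset.mem_insert_of_mem h), hvS⟩
      rw [hB, hBfin.mem_toFinset] at hvB
      constructor
      · intro g hg
        by_contra hcon
        exact hvB (Or.inl ⟨g, (hmemG g).2 hg, hcon⟩)
      · by_contra hcon
        exact hvB (Or.inr (not_lt.1 hcon))
    obtain ⟨ε₁, hε₁, hε₁δ⟩ := good_fin_min Ω' δ fun p _ => hδ p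
    -- induction hypothesis
    obtain ⟨t', ht'Ω, ht'⟩ := ih {q | ∃ g ∈ G, ∃ i, q = (MvPolynomial.finSuccEquiv K m g).coeff i}
      (good_coeff_finite hfin) hGC Ω' hΩ'S (fun p => Fin.tail (c' p)) (by
        intro p hp
        have h1 : ∃ g ∈ G, MvPolynomial.eval (c' p) g ≠ 0 := by
          by_cases hpΩ : p ∈ Ω
          · rw [hcΩ p hpΩ]
            exact hc p hpΩ
          · rw [hΩ', Finset.mem_union, Finset.mem_filter, Finset.mem_image] at hp
            obtain ⟨⟨v, _, rfl⟩, hpS⟩ := hp.resolve_left hpΩ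
            obtain ⟨_, g, hg, hgt⟩ := hcb _ v rfl hpΩ hpS (c' (Sum.inl v)) (by
              intro i
              rw [sub_self, map_zero]
              exact hδ _)
            refine ⟨g, hg, fun h0 => ?_⟩
            rw [h0, map_zero] at hgt
            exact zero_ne_one hgt
        obtain ⟨g, hg, hgne⟩ := h1
        rw [good_eval] at hgne
        obtain ⟨i, _, hi⟩ := Finset.exists_ne_zero_of_sum_ne_zero hgne
        exact ⟨_, ⟨g, hg, i, rfl⟩, right_ne_zero_of_mul hi⟩) (by
        intro v hv hvS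
        obtain ⟨h1, t, ht, g, hg, hgt⟩ := hint v (fun h => hv (hΩΩ' h)) hvS
        constructor
        · rintro q ⟨g, hg, i, rfl⟩ n
          rw [MvPolynomial.finSuccEquiv_coeff_coeff]
          exact h1 g hg _
        · refine ⟨Fin.tail t, fun i => ht _, ?_⟩
          rw [good_eval] at hgt
          obtain ⟨i, _, hi⟩ := good_sum_unit _ v _ _ (by
            intro i _
            rw [map_pow]
            exact pow_le_one₀ ((av (Sum.inl v)).nonneg _) (ht 0)) (by
            intro i _
            refine av_eval_le v _ ?_ _ fun i => ht _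
            intro n
            rw [MvPolynomial.finSuccEquiv_coeff_coeff]
            exact h1 g hg _) hgt
          exact ⟨_, ⟨g, hg, i, rfl⟩, hi⟩) (lt_min hε hε₁)
    -- `r` is not zero at `t'`
    have hrt' : MvPolynomial.eval t' r ≠ 0 := by
      have h1 := hcr (Sum.inl v₁) rfl (Fin.cons (c' (Sum.inl v₁) 0) t') (by
        intro i
        refine Fin.cases ?_ (fun i => ?_) i
        · rw [Fin.cons_zero, sub_self, map_zero]
          exact hδ _
        · rw [Fin.cons_succ]
          exact (ht'Ω _ hv₁Ω' i).trans_le ((min_le_right _ _).trans (hε₁δ _ hv₁Ω')))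
      rwa [hRe, Fin.tail_cons] at h1
    -- the places where `r (t')` is not a unit
    set W : Finset (Place K) := ((av_bad hrt').toFinset.image Sum.inl).filter
      (fun p => p ∉ Ω' ∧ p ∉ S) with hW
    have hcen2 : ∀ p : Place K, ∃ τ : K, ∃ δ' : ℝ, 0 < δ' ∧ (p ∈ Ω' → τ = c' p 0) ∧
        (∀ v, p = Sum.inl v → p ∉ Ω' → p ∉ S → ∀ x : K, av p (x - τ) < δ' →
          (∀ i, av (Sum.inl v) ((Fin.cons x t' : Fin (m + 1) → K) i) ≤ 1) ∧
            ∃ g ∈ G, av (Sum.inl v) (MvPolynomial.eval (Fin.cons x t') g) = 1) := by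
      intro p
      by_cases hp : p ∈ Ω'
      · exact ⟨c' p 0, 1, one_pos, fun _ => rfl, fun v _ h => absurd hp h⟩
      · by_cases hpS : p ∈ S
        · exact ⟨0, 1, one_pos, fun h => absurd h hp, fun v _ _ h => absurd hpS h⟩
        · rcases p with v | w
          · obtain ⟨ht'v, q, ⟨g, hg, j, rfl⟩, hq⟩ := ht' v hp hpS
            obtain ⟨h1, _⟩ := hint v (fun h => hp (hΩΩ' h)) hpS
            obtain ⟨τ, hτ⟩ := exists_unit_value1 v
              (Polynomial.map (MvPolynomial.eval t') (MvPolynomial.finSuccEquiv K m g)) (by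
                intro n
                rw [Polynomial.coeff_map]
                refine av_eval_le v _ ?_ _ ht'v
                intro n
                rw [MvPolynomial.finSuccEquiv_coeff_coeff]
                exact h1 g hg _) ⟨j, by rw [Polynomial.coeff_map]; exact hq⟩
                (((Polynomial.natDegree_map_le).trans (hD g hg)).trans_lt (hBΩ' v hp hpS).2)
            rw [← MvPolynomial.eval_eq_eval_mv_eval'] at hτ
            obtain ⟨δ', hδ', h2⟩ := good_ball v g (Fin.cons (τ : K) t') (by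
              intro i
              refine Fin.cases ?_ (fun i => ?_) i
              · rw [Fin.cons_zero]
                exact av_int v τ
              · rw [Fin.cons_succ]
                exact ht'v i) hτ
            refine ⟨τ, δ', hδ', fun h => absurd h hp, ?_⟩
            intro v' hv' _ _ x hx
            obtain rfl : v = v' := Sum.inl_injective hv'
            obtain ⟨h3, h4⟩ := h2 (Fin.cons x t') (by
              intro i
              refine Fin.cases ?_ (fun i => ?_) i
              · rw [Fin.cons_zero, Fin.cons_zero]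
                exact hx
              · rw [Fin.cons_succ, Fin.cons_succ, sub_self, map_zero]
                exact hδ')
            exact ⟨h3, g, hg, h4⟩
          · exact ⟨0, 1, one_pos, fun h => absurd h hp, fun v h => absurd h (by simp)⟩
    choose τ δ' hδ' hτΩ hτb using hcen2
    obtain ⟨ε₂, hε₂, hε₂δ⟩ := good_fin_min (Ω' ∪ W) δ' fun p _ => hδ' p
    obtain ⟨x, hxΩ, hx⟩ := SA1 S hne (Ω' ∪ W) (by
      intro p hp
      rw [Finset.mem_union] at hp
      rcases hp with hp | hp
      · exact hΩ'S p hp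
      · rw [hW, Finset.mem_filter] at hp
        exact hp.2.2) τ (lt_min (lt_min hε hε₁) hε₂)
    have hball : ∀ p ∈ Ω', ∀ i, av p ((Fin.cons x t' : Fin (m + 1) → K) i - c' p i) <
        min ε ε₁ := by
      intro p hp i
      refine Fin.cases ?_ (fun i => ?_) i
      · rw [Fin.cons_zero, ← hτΩ p hp]
        exact (hxΩ p (Finset.mem_union_left _ hp)).trans_le (min_le_left _ _)
      · rw [Fin.cons_succ]
        exact ht'Ω p hp i
    refine ⟨Fin.cons x t', ?_, ?_⟩
    · intro p hp i
      have h1 := hball p (hΩΩ' hp) i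
      rw [hcΩ p hp] at h1
      exact h1.trans_le (min_le_left _ _)
    · intro v hv hvS
      by_cases hvΩ' : Sum.inl v ∈ Ω'
      · exact hcb _ v rfl hv hvS _ fun i =>
          (hball _ hvΩ' i).trans_le ((min_le_right _ _).trans (hε₁δ _ hvΩ'))
      · by_cases hvW : Sum.inl v ∈ W
        · exact hτb _ v rfl hvΩ' hvS x ((hxΩ _ (Finset.mem_union_right _ hvW)).trans_le
            ((min_le_right _ _).trans (hε₂δ _ (Finset.mem_union_right _ hvW))))
        · have hxv : av (Sum.inl v) x ≤ 1 := hx v (fun h => by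
            rw [Finset.mem_union] at h
            exact h.elim hvΩ' hvW) hvS
          obtain ⟨ht'v, _⟩ := ht' v hvΩ' hvS
          have htv : ∀ i, av (Sum.inl v) ((Fin.cons x t' : Fin (m + 1) → K) i) ≤ 1 := by
            intro i
            refine Fin.cases ?_ (fun i => ?_) i
            · rw [Fin.cons_zero]
              exact hxv
            · rw [Fin.cons_succ]
              exact ht'v i
          refine ⟨htv, ?_⟩
          have hu : av (Sum.inl v) (MvPolynomial.eval t' r) = 1 := by
            by_contra hcon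
            apply hvW
            rw [hW, Finset.mem_filter]
            exact ⟨Finset.mem_image_of_mem _ ((av_bad hrt').mem_toFinset.2 hcon), hvΩ', hvS⟩
          have hsum : MvPolynomial.eval t' r = ∑ g ∈ Gf,
              MvPolynomial.eval (Fin.cons x t') (a g) * MvPolynomial.eval (Fin.cons x t') g := by
            have h1 := hRe (Fin.cons x t')
            rw [Fin.tail_cons, ← ha, map_sum] at h1
            rw [← h1]
            refine Finset.sum_congr rfl fun g _ => ?_
            rw [smul_eq_mul, map_mul]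
          rw [hsum] at hu
          obtain ⟨h1, _⟩ := hint v hv hvS
          obtain ⟨g, hg, hgu⟩ := good_sum_unit Gf v _ _ (by
            intro g hg
            exact av_eval_le v _ ((hBΩ' v hvΩ' hvS).1 g ((hmemG g).1 hg)) _ htv) (by
            intro g hg
            exact av_eval_le v _ (h1 g ((hmemG g).1 hg)) _ htv) hu
          exact ⟨g, (hmemG g).1 hg, hgu⟩

end SAF
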