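import Pool.Agent.Lib.MP_dd8365_nt.ConcT
import Pool.Agent.Lib.MP_dd8365_nt.Core3

/-! MP_dd8365_nt (SAF): main theorem for torus quotients. -/

open IsDedekindDomain NumberField

namespace SAF

theorem mainT {K : Type} [Field K] [NumberField K] {N r : ℕ} (W : Fin N → Fin r → ℤ)
    (P I0 I : Ideal (MvPolynomial (Fin N) K)) [P.IsPrime]
    (hP : Homog W P) (hI0 : Homog W I0) (hIh : Homog W I) (hI : I ≤ I0)
    (𝒟 : Set (Derivation K (MvPolynomial (Fin N) K ⧸ P) (MvPolynomial (Fin N) K ⧸ P)))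
    (hnil : ∀ D ∈ 𝒟, ∀ a, ∃ n : ℕ, (⇑D)^[n] a = 0)
    (hst : Stable 𝒟 (I0.map (Ideal.Quotient.mk P)))
    (hZ : ∀ w q : Ideal (MvPolynomial (Fin N) K ⧸ P), w.IsPrime → q.IsPrime → Stable 𝒟 w →
      w ≤ q → I.map (Ideal.Quotient.mk P) ≤ q → ¬ I0.map (Ideal.Quotient.mk P) ≤ q →
      ∃ w1 : Ideal (MvPolynomial (Fin N) K ⧸ P), w1.IsPrime ∧ w < w1 ∧ w1 < q)
    (S : Set (Place K)) (hS : S.Finite) (hne : S.Nonempty) :
    (∀ y : QAdelic W P I S, y ∈ closure (QRat W P I S) ↔ y.incl hI ∈ closure (QRat W P I0 S)) ∧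
      (QSA W P I0 S → QSA W P I S) := by
  have H : CoreStm2 P I0 I S :=
    core3 I0 I hI S hS hne P (MvPolynomial (Fin N) K ⧸ P) (Ideal.Quotient.mkₐ K P)
      (Ideal.Quotient.mkₐ_surjective K P) (Ideal.Quotient.mkₐ_ker K P) 𝒟 hnil hst hZ
  have hiff := qclosure_iff P I0 I hP hI0 hIh hI S hS H
  refine ⟨hiff, fun hSA y => (hiff y).2 (hSA _)⟩

end SAF
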