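import Pool.Agent.Lib.MP_dd8365_nt.ConcU
import Pool.Agent.Lib.MP_dd8365_nt.Core3

/-! MP_dd8365_nt (SAF): main theorem for the definitions of `St.lean`. -/

open IsDedekindDomain NumberField

namespace SAFS

theorem main {K : Type} [Field K] [NumberField K] {N r : ℕ} (W : Fin N → Fin r → ℤ)
    (P I0 I : Ideal (MvPolynomial (Fin N) K)) [P.IsPrime]
    (hP : Homog W P) (hI0 : Homog W I0) (hIh : Homog W I) (hI : I ≤ I0)
    (𝒟 : Set (Derivation K (Coord P) (Coord P))) (hnil : LocNil 𝒟)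
    (hst : Stable 𝒟 (Coord.ideal P I0))
    (hZ : CodTwo 𝒟 (Coord.ideal P I) (Coord.ideal P I0))
    (S : Set (Place K)) (hS : S.Finite) (hne : S.Nonempty) :
    closure (Rat W P I S) = Adelic.incl hI ⁻¹' closure (Rat W P I0 S) := by
  have H : SAF.CoreStm2 P I0 I S :=
    SAF.core3 I0 I hI S hS hne P (MvPolynomial (Fin N) K ⧸ P) (Ideal.Quotient.mkₐ K P)
      (Ideal.Quotient.mkₐ_surjective K P) (Ideal.Quotient.mkₐ_ker K P) 𝒟 hnil hst hZ
  exact closure_eq P I0 I hP hI0 hIh hI S hS H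

end SAFS
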