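import Pool.Agent.Lib.MP_dd8365_nt.Basic

/-! MP_dd8365_nt (SAF): Chinese remainder theorem for finitely many places (part 1 of SA1). -/

open IsDedekindDomain NumberField

namespace SAF

variable {K : Type} [Field K] [NumberField K]

private theorem sa1_le (v : HeightOneSpectrum (𝓞 K)) (x y : K) :
    av (Sum.inl v) x ≤ av (Sum.inl v) y ↔ v.valuation K x ≤ v.valuation K y := by
  show HeightOneSpectrum.adicAbv K v x ≤ HeightOneSpectrum.adicAbv K v y ↔ _
  rw [HeightOneSpectrum.adicAbv_def, HeightOneSpectrum.adicAbv_def, NNReal.coe_le_coe]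
  exact (WithZeroMulInt.toNNReal_strictMono
    (HeightOneSpectrum.one_lt_absNorm_nnreal v)).le_iff_le

/-- The exponent of a prime in an element. -/
private theorem sa1_exp {d : 𝓞 K} (hd : d ≠ 0) (v : HeightOneSpectrum (𝓞 K)) :
    ∃ e : ℕ, ∀ s : 𝓞 K, s ∈ v.asIdeal ^ e → av (Sum.inl v) (s : K) ≤ av (Sum.inl v) (d : K) := by
  refine ⟨(Associates.mk v.asIdeal).count
    (Associates.mk (Ideal.span {d} : Ideal (𝓞 K))).factors, fun s hs => ?_⟩
  rw [sa1_le]
  show v.valuation K (algebraMap (𝓞 K) K s) ≤ v.valuation K (algebraMap (𝓞 K) K d)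
  rw [HeightOneSpectrum.valuation_of_algebraMap, HeightOneSpectrum.valuation_of_algebraMap,
    v.intValuation_if_neg hd]
  exact (v.intValuation_le_pow_iff_mem s _).2 hs

theorem approx_one' (Ω : Finset (Place K)) (c : Place K → K) : ∃ t : K,
    (∀ v, Sum.inl v ∈ Ω → av (Sum.inl v) (t - c (Sum.inl v)) ≤ 1) ∧
    (∀ v, Sum.inl v ∉ Ω → av (Sum.inl v) t ≤ 1) := by
  classical
  obtain ⟨b, hb⟩ := IsLocalization.exist_integer_multiples_of_finset (nonZeroDivisors (𝓞 K))
    (Ω.image c)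
  obtain ⟨d, hd⟩ : ∃ d : 𝓞 K, d = b := ⟨_, rfl⟩
  have hd0 : d ≠ 0 := by
    rw [hd]
    exact nonZeroDivisors.coe_ne_zero b
  have hdK : (d : K) ≠ 0 := RingOfIntegers.coe_ne_zero_iff.2 hd0
  have ha : ∀ q : Place K, ∃ a : 𝓞 K, q ∈ Ω → (a : K) = d * c q := by
    intro q
    by_cases hq : q ∈ Ω
    · obtain ⟨a, ha⟩ := hb (c q) (Finset.mem_image_of_mem c hq)
      refine ⟨a, fun _ => ?_⟩
      rw [← hd, Algebra.smul_def] at ha
      exact ha
    · exact ⟨0, fun h => absurd h hq⟩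
  choose a ha using ha
  choose e he using sa1_exp (K := K) hd0
  -- the finite set of primes
  have hfin := av_bad (K := K) hdK
  let V : Finset (HeightOneSpectrum (𝓞 K)) := Ω.toLeft ∪ hfin.toFinset
  obtain ⟨s, hs⟩ := exists_forall_sub_mem_ideal (s := V) (fun v => v.asIdeal) e
    (fun v _ => v.prime) (fun v _ w _ hvw h => hvw (HeightOneSpectrum.ext h))
    (fun v => if Sum.inl v.1 ∈ Ω then a (Sum.inl v.1) else 0)
  refine ⟨s / d, fun v hv => ?_, fun v hv => ?_⟩
  · have h1 := he v _ (hs v (Finset.mem_union_left _ (Finset.mem_toLeft.2 hv)))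
    simp only [if_pos hv] at h1
    have e1 : (s : K) / d - c (Sum.inl v) = ((s - a (Sum.inl v) : 𝓞 K) : K) / d := by
      have e2 : ((s - a (Sum.inl v) : 𝓞 K) : K) = (s : K) - (a (Sum.inl v) : K) :=
        map_sub (algebraMap (𝓞 K) K) _ _
      rw [e2, ha _ hv]
      field_simp
    rw [e1, map_div₀, div_le_one (AbsoluteValue.pos _ hdK)]
    exact h1
  · rw [map_div₀, div_le_one (AbsoluteValue.pos _ hdK)]
    by_cases h1 : av (Sum.inl v) (d : K) = 1
    · rw [h1]
      exact av_int v s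
    · have h2 := he v _ (hs v (Finset.mem_union_right _ ((Set.Finite.mem_toFinset _).2 h1)))
      simp only [if_neg hv, sub_zero] at h2
      exact h2

end SAF
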