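import Pool.Agent.Lib.MP_dd8365_nt.SA1B
import Pool.Agent.Lib.MP_dd8365_nt.SA1a

/-! MP_dd8365_nt (SAF): strong approximation for the affine line outside a nonempty set. -/

open IsDedekindDomain NumberField

namespace SAF

variable {K : Type} [Field K] [NumberField K]

/-- `K` is dense modulo integral adeles at the finite places. Proof: choose a nonzero `d : 𝓞 K`
with `d c_v` integral for all `v ∈ Ω` (`|d c_v|_v ≤ 1`); by the Chinese remainder theorem choose
`s : 𝓞 K` with `|s - d c_v|_v ≤ |d|_v` for `v ∈ Ω` and `|s|_v ≤ |d|_v` for the finitely many other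
`v` with `|d|_v < 1`; `t = s / d`. -/
theorem approx_one (Ω : Finset (Place K)) (c : Place K → K) : ∃ t : K,
    (∀ v, Sum.inl v ∈ Ω → av (Sum.inl v) (t - c (Sum.inl v)) ≤ 1) ∧
    (∀ v, Sum.inl v ∉ Ω → av (Sum.inl v) t ≤ 1) := by
  exact approx_one' Ω c

/-- `p ∈ S`, `z` from `small_elt` for `η = ε / (2 max 1 B)`, `t = z * (s + a)` with `s` from
`approx_one` and `a` from `approx_two`, both for `c_q / z`. -/
theorem SA1 (S : Set (Place K)) (hne : S.Nonempty) (Ω : Finset (Place K)) (hΩ : ∀ p ∈ Ω, p ∉ S)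
    (c : Place K → K) {ε : ℝ} (hε : 0 < ε) : ∃ t : K, (∀ p ∈ Ω, av p (t - c p) < ε) ∧
      ∀ v, Sum.inl v ∉ Ω → Sum.inl v ∉ S → av (Sum.inl v) t ≤ 1 := by
  classical
  obtain ⟨p, hp⟩ := hne
  obtain ⟨B, hB0, hB⟩ := approx_two (K := K)
  have hpΩ : p ∉ Ω := fun h => hΩ p h hp
  have hm1 : (1 : ℝ) ≤ max 1 B := le_max_left _ _
  have hmB : B ≤ max 1 B := le_max_right _ _
  have hη : 0 < ε / (2 * max 1 B) := by positivity
  obtain ⟨z, hz0, hz1, hz2⟩ := small_elt p Ω hpΩ hη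
  obtain ⟨s, hs1, hs2⟩ := approx_one Ω (fun q => c q / z)
  obtain ⟨a, ha⟩ := hB (fun w => c (Sum.inr w) / z) s
  have key : ∀ M : ℝ, 0 ≤ M → M ≤ max 1 B → ε / (2 * max 1 B) * M < ε := by
    intro M hM0 hM
    rw [div_mul_eq_mul_div, div_lt_iff₀ (by positivity)]
    nlinarith
  refine ⟨z * (s + a), fun q hq => ?_, fun v hv hvS => ?_⟩
  · have e1 : z * (s + a) - c q = z * (s + a - c q / z) := by
      field_simp
    rw [e1, map_mul]
    rcases q with v | w
    · have h1 : av (Sum.inl v) (s + (a : K) - c (Sum.inl v) / z) ≤ 1 := by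
        have e2 : s + (a : K) - c (Sum.inl v) / z = (s - c (Sum.inl v) / z) + a := by ring
        rw [e2]
        exact (av_add v _ _).trans (max_le (hs1 v hq) (av_int v a))
      refine lt_of_le_of_lt (mul_le_mul (hz1 _ hq) h1 (AbsoluteValue.nonneg _ _) hη.le) ?_
      exact key 1 zero_le_one hm1
    · refine lt_of_le_of_lt (mul_le_mul (hz1 _ hq) (ha w) (AbsoluteValue.nonneg _ _) hη.le) ?_
      exact key B hB0.le hmB
  · rw [map_mul]
    have h1 : av (Sum.inl v) (s + (a : K)) ≤ 1 :=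
      (av_add v _ _).trans (max_le (hs2 v hv) (av_int v a))
    have h2 : av (Sum.inl v) z ≤ 1 := hz2 v fun h => hvS (h ▸ hp)
    exact mul_le_one₀ h2 (AbsoluteValue.nonneg _ _) h1

end SAF
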