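import Pool.Agent.Lib.MP_dd8365_nt.Basic

/-! MP_dd8365_nt (SAF): lattices: approximation at the infinite places, small elements. -/

open IsDedekindDomain NumberField Module
open scoped NNReal ENNReal nonZeroDivisors

namespace SAF

variable {K : Type} [Field K] [NumberField K]

/-- there is a bound `B` such that all archimedean conditions can be satisfied up to `B`:
`𝓞 K` is a lattice in the mixed space. -/
theorem approx_two : ∃ B : ℝ, 0 < B ∧ ∀ (c : InfinitePlace K → K) (s : K), ∃ a : 𝓞 K,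
    ∀ w : InfinitePlace K, w (s + a - c w) ≤ B := by
  classical
  set b := mixedEmbedding.latticeBasis K with hb
  have hB : (0 : ℝ) < 1 + ∑ i, ‖b i‖ := by positivity
  refine ⟨1 + ∑ i, ‖b i‖, hB, fun c s => ?_⟩
  set x : mixedEmbedding.mixedSpace K :=
    (fun w => InfinitePlace.embedding_of_isReal w.2 (c w.1 - s),
      fun w => w.1.embedding (c w.1 - s)) with hx
  obtain ⟨a, ha⟩ : ∃ a : 𝓞 K, mixedEmbedding K (a : K) =
      ((ZSpan.floor b x : Submodule.span ℤ (Set.range b)) : mixedEmbedding.mixedSpace K) := by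
    have h1 := (ZSpan.floor b x).2
    rw [hb, mixedEmbedding.mem_span_latticeBasis] at h1
    obtain ⟨a, ha⟩ := h1
    exact ⟨a, ha⟩
  refine ⟨a, fun w => ?_⟩
  have h1 : ‖ZSpan.fract b x‖ ≤ ∑ i, ‖b i‖ := ZSpan.norm_fract_le b x
  have h2 : ZSpan.fract b x = x - mixedEmbedding K (a : K) := by rw [ZSpan.fract_apply, ha]
  rw [h2] at h1
  have h3 : w (s + a - c w) ≤ ‖x - mixedEmbedding K (a : K)‖ := by
    have e : s + (a : K) - c w = -(c w - s - a) := by ring
    rw [e]
    rcases w.isReal_or_isComplex with hw | hw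
    · have h4 : (x - mixedEmbedding K (a : K)).1 ⟨w, hw⟩ =
          InfinitePlace.embedding_of_isReal hw (c w - s - a) := by
        rw [Prod.fst_sub, Pi.sub_apply, mixedEmbedding.mixedEmbedding_apply_isReal, map_sub _ (c w - s)]
      have h5 : w (-(c w - s - a)) = ‖(x - mixedEmbedding K (a : K)).1 ⟨w, hw⟩‖ := by
        rw [h4, InfinitePlace.norm_embedding_of_isReal hw]
        exact w.1.map_neg _
      rw [h5]
      exact (norm_le_pi_norm _ _).trans (norm_fst_le _)
    · have h4 : (x - mixedEmbedding K (a : K)).2 ⟨w, hw⟩ = w.embedding (c w - s - a) := by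
        rw [Prod.snd_sub, Pi.sub_apply, mixedEmbedding.mixedEmbedding_apply_isComplex, map_sub _ (c w - s)]
      have h5 : w (-(c w - s - a)) = ‖(x - mixedEmbedding K (a : K)).2 ⟨w, hw⟩‖ := by
        rw [h4, InfinitePlace.norm_embedding_eq]
        exact w.1.map_neg _
      rw [h5]
      exact (norm_le_pi_norm _ _).trans (norm_snd_le _)
  linarith

/-- An element of `𝓞 K` which is small at finitely many finite places. -/
private theorem small_fin (Ω : Finset (Place K)) {η : ℝ} (hη : 0 < η) :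
    ∃ m : 𝓞 K, m ≠ 0 ∧ ∀ v, Sum.inl v ∈ Ω → av (Sum.inl v) (m : K) ≤ η := by
  classical
  induction Ω using Finset.induction_on with
  | empty => exact ⟨1, one_ne_zero, fun v hv => absurd hv (by simp)⟩
  | insert q Ω _ ih =>
    obtain ⟨m, hm, h⟩ := ih
    rcases q with q | w
    · obtain ⟨y, hy, hy0⟩ := Submodule.exists_mem_ne_zero_of_ne_bot q.ne_bot
      have h1 : av (Sum.inl q) (y : K) < 1 :=
        (q.adicAbv_coe_lt_one_iff (K := K)
          (NumberField.HeightOneSpectrum.one_lt_absNorm_nnreal q) y).2 hy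
      obtain ⟨n, hn⟩ := exists_pow_lt_of_lt_one hη h1
      refine ⟨m * y ^ n, mul_ne_zero hm (pow_ne_zero _ hy0), fun v hv => ?_⟩
      have e : ((m * y ^ n : 𝓞 K) : K) = (m : K) * (y : K) ^ n := by push_cast; rfl
      rw [e, map_mul, map_pow]
      have hm1 := av_int v m
      have hy1 := av_int v y
      rcases Finset.mem_insert.1 hv with hv | hv
      · have hv' : v = q := Sum.inl_injective hv
        subst hv'
        calc av (Sum.inl v) (m : K) * av (Sum.inl v) (y : K) ^ n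
            ≤ 1 * av (Sum.inl v) (y : K) ^ n := by gcongr
          _ ≤ η := by rw [one_mul]; exact hn.le
      · calc av (Sum.inl v) (m : K) * av (Sum.inl v) (y : K) ^ n
            ≤ av (Sum.inl v) (m : K) * 1 := by
              refine mul_le_mul_of_nonneg_left (pow_le_one₀ (apply_nonneg _ _) hy1)
                (apply_nonneg _ _)
          _ ≤ η := by rw [mul_one]; exact h v hv
    · refine ⟨m, hm, fun v hv => ?_⟩
      rcases Finset.mem_insert.1 hv with hv | hv
      · exact absurd hv (by simp)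
      · exact h v hv

/-- An element of `𝓞 K` which is small at all infinite places but one. -/
private theorem small_inf (w₀ : InfinitePlace K) {δ : ℝ} (hδ : 0 < δ) :
    ∃ u : 𝓞 K, u ≠ 0 ∧ ∀ w : InfinitePlace K, w ≠ w₀ → w (u : K) ≤ δ := by
  classical
  set δ' : ℝ≥0 := ⟨δ, hδ.le⟩ with hδ'
  have hδ0 : δ' ≠ 0 := by
    intro h
    have h1 : (δ' : ℝ) = 0 := by rw [h]; rfl
    exact hδ.ne' h1
  set M := mixedEmbedding.minkowskiBound K (1 : (FractionalIdeal (𝓞 K)⁰ K)ˣ) with hM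
  have hMt : M < ⊤ := mixedEmbedding.minkowskiBound_lt_top K _
  obtain ⟨g, hg1, hg2⟩ := mixedEmbedding.adjust_f K (w₁ := w₀) (f := fun _ => δ') (M.toNNReal + 1)
    (fun _ _ => hδ0)
  have hvol : M < MeasureTheory.volume (mixedEmbedding.convexBodyLT K g) := by
    rw [mixedEmbedding.convexBodyLT_volume]
    have h1 : (∏ w, (g w : ℝ≥0∞) ^ w.mult : ℝ≥0∞) = ((M.toNNReal + 1 : ℝ≥0) : ℝ≥0∞) := by
      rw [← hg2]
      push_cast
      rfl
    have h2 : ((∏ w, g w ^ w.mult : ℝ≥0) : ℝ≥0∞) = ((M.toNNReal + 1 : ℝ≥0) : ℝ≥0∞) := by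
      rw [hg2]
    have h3 : M < ((M.toNNReal + 1 : ℝ≥0) : ℝ≥0∞) := by
      conv_lhs => rw [← ENNReal.coe_toNNReal hMt.ne]
      rw [ENNReal.coe_lt_coe]
      exact lt_add_of_pos_right _ one_pos
    calc M < ((M.toNNReal + 1 : ℝ≥0) : ℝ≥0∞) := h3
      _ = 1 * ((M.toNNReal + 1 : ℝ≥0) : ℝ≥0∞) := (one_mul _).symm
      _ ≤ (mixedEmbedding.convexBodyLTFactor K : ℝ≥0∞) * ((M.toNNReal + 1 : ℝ≥0) : ℝ≥0∞) := by
          gcongr
          exact_mod_cast mixedEmbedding.one_le_convexBodyLTFactor K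
      _ = _ := by rw [← h2]
  obtain ⟨u, hu0, hu⟩ := mixedEmbedding.exists_ne_zero_mem_ringOfIntegers_lt K hvol
  refine ⟨u, hu0, fun w hw => ?_⟩
  have h1 := hu w
  rw [hg1 w hw] at h1
  exact h1.le

/-- A small element away from one finite place. -/
private theorem small_one (P : HeightOneSpectrum (𝓞 K)) {δ : ℝ} (hδ : 0 < δ) :
    ∃ u : K, u ≠ 0 ∧ (∀ w : InfinitePlace K, w u ≤ δ) ∧
      ∀ v, v ≠ P → av (Sum.inl v) u ≤ 1 := by
  classical
  set δ' : ℝ≥0 := ⟨δ, hδ.le⟩ with hδ'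
  have hδ0 : δ' ≠ 0 := by
    intro h
    have h1 : (δ' : ℝ) = 0 := by rw [h]; rfl
    exact hδ.ne' h1
  have hP0 : (P.asIdeal : FractionalIdeal (𝓞 K)⁰ K) ≠ 0 := FractionalIdeal.coeIdeal_ne_zero.2 P.ne_bot
  set U : (FractionalIdeal (𝓞 K)⁰ K)ˣ := Units.mk0 _ hP0 with hU
  set V := MeasureTheory.volume (mixedEmbedding.convexBodyLT K fun _ => δ') with hV
  have hV0 : 0 < V := by
    rw [hV, mixedEmbedding.convexBodyLT_volume]
    refine ENNReal.mul_pos ?_ ?_
    · exact_mod_cast mixedEmbedding.convexBodyLTFactor_ne_zero K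
    · rw [ENNReal.coe_ne_zero, Finset.prod_ne_zero_iff]
      intro w _
      exact pow_ne_zero _ hδ0
  set C : ℝ≥0∞ := MeasureTheory.volume (ZSpan.fundamentalDomain (mixedEmbedding.latticeBasis K)) *
    (2 : ℝ≥0∞) ^ (finrank ℝ (mixedEmbedding.mixedSpace K)) with hC
  have hCt : C < ⊤ := ENNReal.mul_lt_top (ZSpan.fundamentalDomain_isBounded _).measure_lt_top
    (ENNReal.pow_lt_top ENNReal.ofNat_lt_top)
  have hN : (1 : ℝ) < (Ideal.absNorm P.asIdeal : ℝ) := by
    have h1 := NumberField.HeightOneSpectrum.one_lt_absNorm_nnreal P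
    exact_mod_cast h1
  have hbd : ∀ k : ℕ, mixedEmbedding.minkowskiBound K (U⁻¹ ^ k) =
      ENNReal.ofReal ((Ideal.absNorm P.asIdeal : ℝ)⁻¹ ^ k) * C := by
    intro k
    rw [mixedEmbedding.minkowskiBound,
      mixedEmbedding.volume_fundamentalDomain_fractionalIdealLatticeBasis, hC, mul_assoc]
    congr 2
    rw [Units.val_pow_eq_pow_val, map_pow, Units.val_inv_eq_inv_val, hU, Units.val_mk0, map_inv₀,
      FractionalIdeal.coeIdeal_absNorm]
    push_cast
    rfl
  have hlim : Filter.Tendsto (fun k : ℕ => ENNReal.ofReal ((Ideal.absNorm P.asIdeal : ℝ)⁻¹ ^ k) * C)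
      Filter.atTop (nhds 0) := by
    have h1 : Filter.Tendsto (fun k : ℕ => (Ideal.absNorm P.asIdeal : ℝ)⁻¹ ^ k) Filter.atTop
        (nhds 0) := tendsto_pow_atTop_nhds_zero_of_lt_one (by positivity) (inv_lt_one_of_one_lt₀ hN)
    have h2 := ENNReal.Tendsto.mul_const (b := C) (ENNReal.tendsto_ofReal h1) (Or.inr hCt.ne)
    simpa using h2
  obtain ⟨k, hk⟩ := (hlim.eventually_lt_const hV0).exists
  rw [← hbd k] at hk
  obtain ⟨u, hu, hu0, huw⟩ := mixedEmbedding.exists_ne_zero_mem_ideal_lt K (U⁻¹ ^ k) hk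
  refine ⟨u, hu0, fun w => (huw w).le, fun v hv => ?_⟩
  have hvP : ¬ P.asIdeal ^ k ≤ v.asIdeal := by
    intro hle
    have h1 : P.asIdeal ≤ v.asIdeal := by
      rcases Nat.eq_zero_or_pos k with rfl | hk0
      · rw [pow_zero, Ideal.one_eq_top, top_le_iff] at hle
        exact absurd hle v.isPrime.ne_top
      · exact (v.isPrime.pow_le_iff (by omega)).1 hle
    exact hv (HeightOneSpectrum.ext ((P.isMaximal.eq_of_le v.isPrime.ne_top h1).symm))
  obtain ⟨y, hy, hyv⟩ := SetLike.not_le_iff_exists.1 hvP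
  have hy1 : av (Sum.inl v) (y : K) = 1 :=
    (v.adicAbv_coe_eq_one_iff (NumberField.HeightOneSpectrum.one_lt_absNorm_nnreal v) y).2 hyv
  have hmem : u * (y : K) ∈ (1 : FractionalIdeal (𝓞 K)⁰ K) := by
    have h1 : ((U⁻¹ ^ k : (FractionalIdeal (𝓞 K)⁰ K)ˣ) : FractionalIdeal (𝓞 K)⁰ K) =
        ((P.asIdeal ^ k : Ideal (𝓞 K)) : FractionalIdeal (𝓞 K)⁰ K)⁻¹ := by
      rw [Units.val_pow_eq_pow_val, Units.val_inv_eq_inv_val, hU, Units.val_mk0, inv_pow,
        FractionalIdeal.coeIdeal_pow]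
    rw [h1, FractionalIdeal.mem_inv_iff
      (FractionalIdeal.coeIdeal_ne_zero.2 (pow_ne_zero _ P.ne_bot))] at hu
    exact hu _ (FractionalIdeal.mem_coeIdeal_of_mem _ hy)
  obtain ⟨r, hr⟩ := (FractionalIdeal.mem_one_iff _).1 hmem
  have h3 : av (Sum.inl v) (u * (y : K)) ≤ 1 := by
    rw [← hr]
    exact av_int v r
  rwa [map_mul, hy1, mul_one] at h3

/-- small elements away from one place. -/
theorem small_elt (p : Place K) (Ω : Finset (Place K)) (hp : p ∉ Ω) {η : ℝ} (hη : 0 < η) :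
    ∃ z : K, z ≠ 0 ∧ (∀ q ∈ Ω, av q z ≤ η) ∧ ∀ v, Sum.inl v ≠ p → av (Sum.inl v) z ≤ 1 := by
  classical
  obtain ⟨m, hm, hmη⟩ := small_fin (K := K) Ω hη
  have hm0 : (m : K) ≠ 0 := RingOfIntegers.coe_ne_zero_iff.2 hm
  set M : ℝ := 1 + ∑ w : InfinitePlace K, w (m : K) with hM
  have hMs : 0 ≤ ∑ w : InfinitePlace K, w (m : K) := Finset.sum_nonneg fun w _ => apply_nonneg w _
  have hM0 : 0 < M := by linarith
  have hMw : ∀ w : InfinitePlace K, w (m : K) ≤ M := by
    intro w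
    have := Finset.single_le_sum (f := fun w : InfinitePlace K => w (m : K))
      (fun w _ => apply_nonneg w _) (Finset.mem_univ w)
    linarith
  obtain ⟨u, hu0, hu1, hu2⟩ : ∃ u : K, u ≠ 0 ∧
      (∀ w : InfinitePlace K, Sum.inr w ≠ p → w u ≤ η / M) ∧
      ∀ v, Sum.inl v ≠ p → av (Sum.inl v) u ≤ 1 := by
    rcases p with P | w₀
    · obtain ⟨u, h1, h2, h3⟩ := small_one P (div_pos hη hM0)
      exact ⟨u, h1, fun w _ => h2 w, fun v hv => h3 v fun h => hv (by rw [h])⟩
    · obtain ⟨u, h1, h2⟩ := small_inf w₀ (div_pos hη hM0)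
      exact ⟨u, RingOfIntegers.coe_ne_zero_iff.2 h1, fun w hw => h2 w fun h => hw (by rw [h]),
        fun v _ => av_int v u⟩
  refine ⟨(m : K) * u, mul_ne_zero hm0 hu0, ?_, ?_⟩
  · intro q hq
    have hqp : q ≠ p := fun h => hp (h ▸ hq)
    rw [map_mul]
    rcases q with v | w
    · calc av (Sum.inl v) (m : K) * av (Sum.inl v) u ≤ η * 1 :=
          mul_le_mul (hmη v hq) (hu2 v hqp) (apply_nonneg _ _) hη.le
        _ = η := mul_one _
    · have h1 : av (Sum.inr w) (m : K) ≤ M := hMw w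
      have h2 : av (Sum.inr w) u ≤ η / M := hu1 w hqp
      calc av (Sum.inr w) (m : K) * av (Sum.inr w) u ≤ M * (η / M) :=
            mul_le_mul h1 h2 (apply_nonneg _ _) hM0.le
        _ = η := by field_simp
  · intro v hv
    rw [map_mul]
    exact mul_le_one₀ (av_int v m) (apply_nonneg _ _) (hu2 v hv)

end SAF
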