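import Mathlib

/-!
MP_dd8365_nt (SAF): the definitions of the statement.

`K` number field, `P` prime ideal of `K[x_1..x_N]`, `I ≤ I0` ideals, `U = V(P) \ V(I0)`, all ideals
homogeneous for the action of the torus `G_m^r` on affine space with weights `W`,
`X = U / G_m^r` (`X = U` for `r = 0`), `X \ Z = (V(P) \ V(I)) / G_m^r`.
-/

open IsDedekindDomain NumberField
open scoped RestrictedProduct

noncomputable section

namespace SAFS

/-- The places of `K`: finite (nonzero primes of `𝓞 K`) and infinite ones. -/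
abbrev Place (K : Type) [Field K] [NumberField K] : Type :=
  HeightOneSpectrum (𝓞 K) ⊕ InfinitePlace K

/-- The completion of `K` at a place. -/
def Loc (K : Type) [Field K] [NumberField K] : Place K → Type
  | Sum.inl v => v.adicCompletion K
  | Sum.inr w => w.Completion

/-- The usual structure of a normed field on the completion. -/
instance normedLoc (K : Type) [Field K] [NumberField K] :
    (p : Place K) → NormedField (Loc K p)
  | Sum.inl v => (inferInstance : NormedField (v.adicCompletion K))
  | Sum.inr w => (inferInstance : NormedField w.Completion)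

/-- The usual embedding of `K` in the completion. -/
instance algLoc (K : Type) [Field K] [NumberField K] :
    (p : Place K) → Algebra K (Loc K p)
  | Sum.inl v => (inferInstance : Algebra K (v.adicCompletion K))
  | Sum.inr w => (inferInstance : Algebra K w.Completion)

/-- The value of a polynomial at a point with coordinates in an extension field. -/
def val {K : Type} [Field K] {N : ℕ} {L : Type} [Field L] [Algebra K L]
    (x : Fin N → L) (f : MvPolynomial (Fin N) K) : L :=
  MvPolynomial.aeval x f

/-- A polynomial over `𝓞 K` as polynomial over `K`. -/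
def toK {K : Type} [Field K] {N : ℕ} (g : MvPolynomial (Fin N) (𝓞 K)) :
    MvPolynomial (Fin N) K :=
  MvPolynomial.map (algebraMap (𝓞 K) K) g

/-- The `L`-points of `V(P) \ V(I)`. -/
def Pts {K : Type} [Field K] {N : ℕ} (P I : Ideal (MvPolynomial (Fin N) K))
    (L : Type) [Field L] [Algebra K L] : Set (Fin N → L) :=
  {x | (∀ p ∈ P, val x p = 0) ∧ ∃ g ∈ I, val x g ≠ 0}

/-- For a finite place `v`: the `O_v`-points of the integral model of `V(P) \ V(I)` (closures in
affine space over `𝓞 K`): integral coordinates, and some element of `I` with coefficients in `𝓞 K`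
takes a unit value. For an infinite place: all points. -/
def IntPts {K : Type} [Field K] [NumberField K] {N : ℕ} (P I : Ideal (MvPolynomial (Fin N) K))
    (p : Place K) : Set (Pts P I (Loc K p)) :=
  {x | ∀ v, p = Sum.inl v → (∀ i, ‖x.1 i‖ ≤ 1) ∧
    ∃ g : MvPolynomial (Fin N) (𝓞 K), toK g ∈ I ∧ ‖val x.1 (toK g)‖ = 1}

/-- The action of the torus `(Lˣ)^r` on `L^N` with weights `W`. -/
def act {N r : ℕ} (W : Fin N → Fin r → ℤ) {L : Type} [Field L] (l : Fin r → Lˣ) (x : Fin N → L) :
    Fin N → L :=
  fun i => ((∏ j, l j ^ W i j : Lˣ) : L) * x i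

/-- Ideals which are homogeneous for the `ℤ^r`-grading given by the weights. -/
def Homog {K : Type} [Field K] {N r : ℕ} (W : Fin N → Fin r → ℤ)
    (I : Ideal (MvPolynomial (Fin N) K)) : Prop :=
  ∀ g ∈ I, ∀ c : Fin r → ℤ, MvPolynomial.weightedHomogeneousComponent W c g ∈ I

theorem act_one {N r : ℕ} (W : Fin N → Fin r → ℤ) {L : Type} [Field L] (x : Fin N → L) :
    act W (fun _ => 1) x = x := by
  funext i
  simp [act]

theorem act_act {N r : ℕ} (W : Fin N → Fin r → ℤ) {L : Type} [Field L] (l m : Fin r → Lˣ)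
    (x : Fin N → L) : act W l (act W m x) = act W (fun j => l j * m j) x := by
  funext i
  simp only [act, mul_zpow, Finset.prod_mul_distrib, Units.val_mul, mul_assoc]

/-- Two points of `V(P) \ V(I)` are equivalent if they are in the same orbit of the torus. -/
def orb {K : Type} [Field K] {N r : ℕ} (W : Fin N → Fin r → ℤ)
    (P I : Ideal (MvPolynomial (Fin N) K)) (L : Type) [Field L] [Algebra K L] :
    Setoid (Pts P I L) where
  r x y := ∃ l : Fin r → Lˣ, y.1 = act W l x.1
  iseqv :=
    { refl := fun x => ⟨fun _ => 1, (act_one W x.1).symm⟩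
      symm := by
        rintro x y ⟨l, hl⟩
        refine ⟨fun j => (l j)⁻¹, ?_⟩
        rw [hl, act_act]
        simp only [inv_mul_cancel]
        exact (act_one W x.1).symm
      trans := by
        rintro x y z ⟨l, hl⟩ ⟨m, hm⟩
        exact ⟨fun j => m j * l j, by rw [hm, hl, act_act]⟩ }

/-- The `L`-points of `(V(P) \ V(I)) / G_m^r`. -/
def QPts {K : Type} [Field K] {N r : ℕ} (W : Fin N → Fin r → ℤ)
    (P I : Ideal (MvPolynomial (Fin N) K)) (L : Type) [Field L] [Algebra K L] : Type :=
  Quotient (orb W P I L)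

/-- The point of `(V(P) \ V(I)) / G_m^r` given by a point of `V(P) \ V(I)`. -/
def QPts.mk {K : Type} [Field K] {N r : ℕ} (W : Fin N → Fin r → ℤ)
    {P I : Ideal (MvPolynomial (Fin N) K)} {L : Type} [Field L] [Algebra K L] (x : Pts P I L) :
    QPts W P I L :=
  Quotient.mk (orb W P I L) x

/-- The quotient topology. -/
instance topQPts {K : Type} [Field K] {N r : ℕ} (W : Fin N → Fin r → ℤ)
    (P I : Ideal (MvPolynomial (Fin N) K)) (L : Type) [NormedField L] [Algebra K L] :
    TopologicalSpace (QPts W P I L) :=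
  (inferInstance : TopologicalSpace (Quotient (orb W P I L)))

/-- The `O_v`-points of `(V(P) \ V(I)) / G_m^r`: images of `O_v`-points of `V(P) \ V(I)`; all
points for an infinite place. -/
def QInt {K : Type} [Field K] [NumberField K] {N r : ℕ} (W : Fin N → Fin r → ℤ)
    (P I : Ideal (MvPolynomial (Fin N) K)) (p : Place K) : Set (QPts W P I (Loc K p)) :=
  QPts.mk W '' IntPts P I p

/-- The adelic points of `(V(P) \ V(I)) / G_m^r` with the components at the places in `S`
omitted: restricted product of the points over the completions with respect to the integral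
points. -/
def Adelic {K : Type} [Field K] [NumberField K] {N r : ℕ} (W : Fin N → Fin r → ℤ)
    (P I : Ideal (MvPolynomial (Fin N) K)) (S : Set (Place K)) : Type :=
  Πʳ p : {p : Place K // p ∉ S}, [QPts W P I (Loc K p.1), QInt W P I p.1]

/-- The topology of the restricted product. -/
instance topAdelic {K : Type} [Field K] [NumberField K] {N r : ℕ} (W : Fin N → Fin r → ℤ)
    (P I : Ideal (MvPolynomial (Fin N) K)) (S : Set (Place K)) :
    TopologicalSpace (Adelic W P I S) :=
  (inferInstance : TopologicalSpace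
    (Πʳ p : {p : Place K // p ∉ S}, [QPts W P I (Loc K p.1), QInt W P I p.1]))

/-- The component at a place. -/
def Adelic.comp {K : Type} [Field K] [NumberField K] {N r : ℕ} {W : Fin N → Fin r → ℤ}
    {P I : Ideal (MvPolynomial (Fin N) K)} {S : Set (Place K)} (y : Adelic W P I S)
    (p : {p : Place K // p ∉ S}) : QPts W P I (Loc K p.1) :=
  y.1 p

/-- `q` is the image of the `K`-point `x` in the points over the extension field `L`. -/
def IsImage {K : Type} [Field K] {N r : ℕ} {W : Fin N → Fin r → ℤ}
    {P I : Ideal (MvPolynomial (Fin N) K)} (x : Fin N → K) {L : Type} [Field L] [Algebra K L]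
    (q : QPts W P I L) : Prop :=
  ∃ u : Pts P I L, (∀ i, u.1 i = algebraMap K L (x i)) ∧ q = QPts.mk W u

/-- The image of the `K`-points in the adelic points. -/
def Rat {K : Type} [Field K] [NumberField K] {N r : ℕ} (W : Fin N → Fin r → ℤ)
    (P I : Ideal (MvPolynomial (Fin N) K)) (S : Set (Place K)) : Set (Adelic W P I S) :=
  {y | ∃ x : Fin N → K, x ∈ Pts P I K ∧ ∀ p, IsImage x (y.comp p)}

/-- The inclusion of the points of `V(P) \ V(I)` in those of `V(P) \ V(I0)`, for `I ≤ I0`. -/
def Pts.incl {K : Type} [Field K] {N : ℕ} {P I I0 : Ideal (MvPolynomial (Fin N) K)} (h : I ≤ I0)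
    {L : Type} [Field L] [Algebra K L] (x : Pts P I L) : Pts P I0 L :=
  ⟨x.1, x.2.1, x.2.2.imp fun _ hg => ⟨h hg.1, hg.2⟩⟩

/-- The inclusion of the points of `(V(P) \ V(I)) / G_m^r` in those of
`(V(P) \ V(I0)) / G_m^r`, for `I ≤ I0`. -/
def QPts.incl {K : Type} [Field K] {N r : ℕ} {W : Fin N → Fin r → ℤ}
    {P I I0 : Ideal (MvPolynomial (Fin N) K)} (h : I ≤ I0) {L : Type} [Field L] [Algebra K L]
    (x : QPts W P I L) : QPts W P I0 L :=
  Quotient.lift (fun u => QPts.mk W (Pts.incl h u))
    (fun _ _ hl => Quotient.sound (s := orb W P I0 L) hl) x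

theorem QInt.incl {K : Type} [Field K] [NumberField K] {N r : ℕ} {W : Fin N → Fin r → ℤ}
    {P I I0 : Ideal (MvPolynomial (Fin N) K)} (h : I ≤ I0) {p : Place K}
    {x : QPts W P I (Loc K p)} (hx : x ∈ QInt W P I p) :
    QPts.incl h x ∈ QInt W P I0 p := by
  obtain ⟨u, hu, rfl⟩ := hx
  refine ⟨Pts.incl h u, fun v hv => ?_, rfl⟩
  obtain ⟨h1, g, hg, hgx⟩ := hu v hv
  exact ⟨h1, g, h hg, hgx⟩

theorem Adelic.incl_mem {K : Type} [Field K] [NumberField K] {N r : ℕ}
    {W : Fin N → Fin r → ℤ} {P I I0 : Ideal (MvPolynomial (Fin N) K)} (h : I ≤ I0)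
    {S : Set (Place K)} (y : Adelic W P I S) :
    ∀ᶠ p : {p : Place K // p ∉ S} in Filter.cofinite, QPts.incl h (y.comp p) ∈ QInt W P I0 p.1 :=
  y.2.mono fun _ hp => QInt.incl h hp

/-- The inclusion of the adelic points of `(V(P) \ V(I)) / G_m^r` in those of
`(V(P) \ V(I0)) / G_m^r`. -/
def Adelic.incl {K : Type} [Field K] [NumberField K] {N r : ℕ}
    {W : Fin N → Fin r → ℤ} {P I I0 : Ideal (MvPolynomial (Fin N) K)} (h : I ≤ I0)
    {S : Set (Place K)} (y : Adelic W P I S) : Adelic W P I0 S :=
  ⟨fun p => QPts.incl h (y.comp p), Adelic.incl_mem h y⟩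

/-- The coordinate ring `K[x_1..x_N] / P` of `V(P)`. -/
def Coord {K : Type} [Field K] {N : ℕ} (P : Ideal (MvPolynomial (Fin N) K)) : Type :=
  MvPolynomial (Fin N) K ⧸ P

/-- Its ring structure. -/
instance ringCoord {K : Type} [Field K] {N : ℕ} (P : Ideal (MvPolynomial (Fin N) K)) :
    CommRing (Coord P) :=
  (inferInstance : CommRing (MvPolynomial (Fin N) K ⧸ P))

/-- Its structure of a `K`-algebra. -/
instance algCoord {K : Type} [Field K] {N : ℕ} (P : Ideal (MvPolynomial (Fin N) K)) :
    Algebra K (Coord P) :=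
  (inferInstance : Algebra K (MvPolynomial (Fin N) K ⧸ P))

/-- The ideal `(I + P) / P` of the coordinate ring. -/
def Coord.ideal {K : Type} [Field K] {N : ℕ} (P I : Ideal (MvPolynomial (Fin N) K)) :
    Ideal (Coord P) :=
  I.map (Ideal.Quotient.mk P)

/-- All derivations in the set are locally nilpotent. -/
def LocNil {K A : Type} [Field K] [CommRing A] [Algebra K A] (𝒟 : Set (Derivation K A A)) :
    Prop :=
  ∀ D ∈ 𝒟, ∀ a, ∃ n : ℕ, D^[n] a = 0

/-- An ideal of a `K`-algebra is stable under a set of derivations. -/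
def Stable {K A : Type} [Field K] [CommRing A] [Algebra K A] (𝒟 : Set (Derivation K A A))
    (J : Ideal A) : Prop :=
  ∀ D ∈ 𝒟, ∀ a ∈ J, D a ∈ J

/-- `V(J) \ V(J0)` has codimension at least two in every stable irreducible closed set: if `w ≤ q`
are prime ideals, `w` is stable and `q` contains `J` but not `J0`, then there is a prime ideal
strictly between `w` and `q`. -/
def CodTwo {K A : Type} [Field K] [CommRing A] [Algebra K A] (𝒟 : Set (Derivation K A A))
    (J J0 : Ideal A) : Prop :=
  ∀ w q : Ideal A, w.IsPrime → q.IsPrime → Stable 𝒟 w → w ≤ q → J ≤ q → ¬ J0 ≤ q →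
    ∃ w1 : Ideal A, w1.IsPrime ∧ w < w1 ∧ w1 < q

end SAFS

end
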